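import Mathlib

/-!
# Siegel's lemma for matrices of small rank
-/

set_option autoImplicit false

namespace Pool.Agent.H95.LC

open Finset
open scoped Matrix.Norms.Elementwise

/-- Siegel's lemma in terms of the dimension of the kernel. -/
lemma siegel_rank {ι : Type*} [Fintype ι] {N d : ℕ} (hd : 1 ≤ d) {B : ℕ} (hB : 1 ≤ B)
    (Mx : Matrix ι (Fin N) ℤ) (hM : ∀ i j, |Mx i j| ≤ B) (hN : 1 ≤ N)
    (hker : d ≤ Module.finrank ℚ
      (LinearMap.ker (Matrix.mulVecLin (Mx.map (fun x : ℤ => (x : ℚ)))))) :
    ∃ b : Fin N → ℤ, b ≠ 0 ∧ Mx.mulVec b = 0 ∧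
      ∀ j, ((|b j| : ℤ) : ℝ) ≤ ((N : ℝ) * B) ^ ((N : ℝ) / d) := by
  classical
  set MQ : Matrix ι (Fin N) ℚ := Mx.map (fun x : ℤ => (x : ℚ)) with hMQ
  have hbase : (1 : ℝ) ≤ (N : ℝ) * B := by
    have h1 : (1 : ℝ) ≤ N := by exact_mod_cast hN
    have h2 : (1 : ℝ) ≤ B := by exact_mod_cast hB
    nlinarith
  obtain ⟨κ, f, hf, hspan, hli⟩ := exists_linearIndependent' ℚ (fun i : ι => MQ i)
  haveI : Finite κ := Finite.of_injective f hf
  haveI : Fintype κ := Fintype.ofFinite κ
  -- the number of rows
  have hcard : Fintype.card κ + d ≤ N := by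
    have h1 : Module.finrank ℚ (Submodule.span ℚ (Set.range ((fun i : ι => MQ i) ∘ f))) =
        Fintype.card κ := finrank_span_eq_card hli
    have h2 : MQ.rank = Module.finrank ℚ (Submodule.span ℚ (Set.range MQ.row)) :=
      Matrix.rank_eq_finrank_span_row MQ
    have h3 := LinearMap.finrank_range_add_finrank_ker (Matrix.mulVecLin MQ)
    rw [Module.finrank_fin_fun] at h3
    have h4 : MQ.rank = Module.finrank ℚ (LinearMap.range (Matrix.mulVecLin MQ)) := rfl
    rw [hspan] at h1
    have h5 : Set.range MQ.row = Set.range (fun i : ι => MQ i) := rfl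
    rw [h5] at h2
    omega
  -- vectors killed by the chosen rows are killed by all rows
  have hkill : ∀ b : Fin N → ℤ, (∀ k : κ, (Mx.mulVec b) (f k) = 0) → Mx.mulVec b = 0 := by
    intro b hb
    funext i
    have hi : MQ i ∈ Submodule.span ℚ (Set.range ((fun i : ι => MQ i) ∘ f)) := by
      rw [hspan]
      exact Submodule.subset_span ⟨i, rfl⟩
    let φ : (Fin N → ℚ) →ₗ[ℚ] ℚ :=
      { toFun := fun v => ∑ j, v j * (b j : ℚ)
        map_add' := fun u v => by
          simp only [Pi.add_apply, add_mul, Finset.sum_add_distrib]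
        map_smul' := fun c v => by
          simp only [Pi.smul_apply, smul_eq_mul, RingHom.id_apply, Finset.mul_sum, mul_assoc] }
    have hφ : ∀ i, φ (MQ i) = ((Mx.mulVec b i : ℤ) : ℚ) := by
      intro i
      simp only [φ, LinearMap.coe_mk, AddHom.coe_mk, hMQ, Matrix.map_apply, Matrix.mulVec,
        dotProduct]
      push_cast
      rfl
    have hle : Submodule.span ℚ (Set.range ((fun i : ι => MQ i) ∘ f)) ≤ LinearMap.ker φ := by
      rw [Submodule.span_le]
      rintro _ ⟨k, rfl⟩
      simp only [Function.comp_apply, SetLike.mem_coe, LinearMap.mem_ker]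
      rw [hφ, hb k]
      simp
    have h1 := hle hi
    rw [LinearMap.mem_ker, hφ] at h1
    simpa using h1
  rcases Nat.eq_zero_or_pos (Fintype.card κ) with h0 | h0
  · -- no rows
    haveI : IsEmpty κ := Fintype.card_eq_zero_iff.1 h0
    refine ⟨fun _ => 1, ?_, hkill _ (fun k => isEmptyElim k), fun j => ?_⟩
    · intro h
      have := congrFun h ⟨0, hN⟩
      simp at this
    · simp only [abs_one, Int.cast_one]
      exact Real.one_le_rpow hbase (by positivity)
  · have hn : Fintype.card κ < Fintype.card (Fin N) := by rw [Fintype.card_fin]; omega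
    obtain ⟨b, hb0, hb, hbn⟩ := Int.Matrix.exists_ne_zero_int_vec_norm_le
      (Matrix.of (fun k : κ => Mx (f k))) hn h0
    refine ⟨b, hb0, hkill b (fun k => ?_), fun j => ?_⟩
    · have := congrFun hb k
      simpa [Matrix.mulVec, Matrix.of_apply] using this
    · rw [Fintype.card_fin] at hbn
      have h1 : ((|b j| : ℤ) : ℝ) ≤ ‖b‖ := by
        have := norm_le_pi_norm b j
        rwa [Int.norm_eq_abs, ← Int.cast_abs] at this
      refine h1.trans (hbn.trans ?_)
      have h2 : ((N : ℝ) * max 1 ‖Matrix.of (fun k : κ => Mx (f k))‖) ≤ (N : ℝ) * B := by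
        apply mul_le_mul_of_nonneg_left _ (by positivity)
        apply max_le
        · exact_mod_cast hB
        · rw [Matrix.norm_le_iff (by positivity)]
          intro k j
          rw [Matrix.of_apply, Int.norm_eq_abs]
          have := hM (f k) j
          exact_mod_cast this
      have h3 : (0 : ℝ) ≤ (Fintype.card κ : ℝ) / (N - Fintype.card κ) := by
        apply div_nonneg (by positivity)
        have : (Fintype.card κ : ℝ) ≤ N := by exact_mod_cast (by omega : Fintype.card κ ≤ N)
        linarith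
      have h4 : (Fintype.card κ : ℝ) / (N - Fintype.card κ) ≤ (N : ℝ) / d := by
        have a1 : (Fintype.card κ : ℝ) + d ≤ N := by exact_mod_cast hcard
        have a2 : (1 : ℝ) ≤ d := by exact_mod_cast hd
        have a3 : (0 : ℝ) ≤ Fintype.card κ := by positivity
        apply div_le_div₀ (by positivity) (by linarith) (by linarith) (by linarith)
      calc ((N : ℝ) * max 1 ‖Matrix.of (fun k : κ => Mx (f k))‖) ^
            ((Fintype.card κ : ℝ) / (N - Fintype.card κ))
          ≤ ((N : ℝ) * B) ^ ((Fintype.card κ : ℝ) / (N - Fintype.card κ)) :=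
            Real.rpow_le_rpow (by positivity) h2 h3
        _ ≤ ((N : ℝ) * B) ^ ((N : ℝ) / d) := Real.rpow_le_rpow_of_exponent_le hbase h4

end Pool.Agent.H95.LC
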