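import Pool.Agent.H95.LC.Op
import Pool.Agent.H95.LC.Siegel

/-!
# A relation of arbitrary height gives, on a slightly shorter window, one of small height
-/

set_option autoImplicit false

namespace Pool.Agent.H95.LC

open Finset Polynomial

/-- The symmetric multipliers. -/
noncomputable def sy (k j : ℕ) : ℤ[X] := X ^ (k + j) + X ^ (k - j)

lemma sy_natDegree {k j : ℕ} (hj : j ≤ k) : (sy k j).natDegree ≤ 2 * k := by
  unfold sy
  refine (natDegree_add_le _ _).trans (max_le ?_ ?_)
  · rw [natDegree_X_pow]; omega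
  · rw [natDegree_X_pow]; omega

lemma sy_reflect {k j : ℕ} (hj : j ≤ k) : (sy k j).reflect (2 * k) = sy k j := by
  unfold sy
  rw [reflect_add, reflect_monomial, reflect_monomial, revAt_le (by omega), revAt_le (by omega),
    show 2 * k - (k + j) = k - j by omega, show 2 * k - (k - j) = k + j by omega, add_comm]

/-- Linear independence of the multiples. -/
lemma sy_indep {A : ℤ[X]} (hA : A ≠ 0) {J k : ℕ} (hJ : A.natDegree ≤ J) :
    LinearIndependent ℚ (fun (j : Fin (k + 1)) (t : Fin (J + 2 * k + 1)) =>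
      (((A * sy k j).coeff t : ℤ) : ℚ)) := by
  rw [Fintype.linearIndependent_iff]
  intro g hg
  set AQ : ℚ[X] := A.map (Int.castRingHom ℚ) with hAQ
  have hAQ0 : AQ ≠ 0 := by
    rw [hAQ]
    intro h
    apply hA
    exact (Polynomial.map_eq_zero_iff (RingHom.injective_int (Int.castRingHom ℚ))).1 h
  set S : ℚ[X] := ∑ j : Fin (k + 1), C (g j) * (sy k j).map (Int.castRingHom ℚ) with hS
  have hP : AQ * S = 0 := by
    ext t
    rw [hS, Finset.mul_sum, finsetSum_coeff, coeff_zero]
    have e1 : ∀ j : Fin (k + 1), (AQ * (C (g j) * (sy k j).map (Int.castRingHom ℚ))).coeff t =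
        g j * (((A * sy k j).coeff t : ℤ) : ℚ) := by
      intro j
      rw [show AQ * (C (g j) * (sy k j).map (Int.castRingHom ℚ)) =
        C (g j) * (A * sy k j).map (Int.castRingHom ℚ) by
          rw [Polynomial.map_mul, ← hAQ]; ring, coeff_C_mul, coeff_map]
      rfl
    simp only [e1]
    rcases Nat.lt_or_ge t (J + 2 * k + 1) with ht | ht
    · have := congrFun hg ⟨t, ht⟩
      simpa [Finset.sum_apply] using this
    · apply Finset.sum_eq_zero
      intro j _
      have hj : (j : ℕ) ≤ k := by have := j.2; omega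
      have h1 : (A * sy k j).natDegree < t := by
        refine lt_of_le_of_lt natDegree_mul_le ?_
        have := sy_natDegree hj
        omega
      rw [coeff_eq_zero_of_natDegree_lt h1]
      simp
  have hS0 : S = 0 := (mul_eq_zero.1 hP).resolve_left hAQ0
  intro i
  have hi : (i : ℕ) ≤ k := by have := i.2; omega
  have h1 : S.coeff (k + i) = 0 := by rw [hS0, coeff_zero]
  rw [hS, finsetSum_coeff] at h1
  have h2 : ∀ j : Fin (k + 1), (C (g j) * (sy k j).map (Int.castRingHom ℚ)).coeff (k + i) =
      if j = i then (g i * (if (i : ℕ) = 0 then 2 else 1)) else 0 := by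
    intro j
    have hj : (j : ℕ) ≤ k := by have := j.2; omega
    rw [coeff_C_mul, coeff_map]
    unfold sy
    rw [coeff_add, coeff_X_pow, coeff_X_pow]
    by_cases h : j = i
    · subst h
      by_cases h0 : (j : ℕ) = 0
      · simp [h0]
      · simp [h0, show ¬ (k + (j : ℕ) = k - j) by omega]
    · have h' : (j : ℕ) ≠ i := fun h1 => h (Fin.ext h1)
      rw [if_neg h, if_neg (show ¬ (k + (i : ℕ) = k + j) by omega),
        if_neg (show ¬ (k + (i : ℕ) = k - j) by omega)]
      simp
  simp only [h2] at h1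
  rw [Finset.sum_ite_eq' Finset.univ i] at h1
  simp only [Finset.mem_univ, if_true] at h1
  rcases mul_eq_zero.1 h1 with h3 | h3
  · exact h3
  · exfalso
    split_ifs at h3 <;> norm_num at h3

/-- The boost. -/
lemma boost {m : ℕ} {e : ℕ → ℤ} {F : ℕ} (he : ∀ k, |e k| ≤ F) {σ : ℤ} (hσ : σ = 1 ∨ σ = -1)
    {J n w : ℕ} {A : ℤ[X]} (hA : A ≠ 0) (hJ : A.natDegree ≤ J) (hrcp : A.reflect J = C σ * A)
    (hrel : ∀ i < w, op m A e (n + i) = 0) (k : ℕ) :
    ∃ B : ℤ[X], B ≠ 0 ∧ B.natDegree ≤ J + 2 * k ∧ B.reflect (J + 2 * k) = C σ * B ∧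
      (∀ i < w - 2 * k * m, op m B e (n + i) = 0) ∧
      ((l1 B : ℤ) : ℝ) ≤ ((J + 2 * k + 1 : ℕ) : ℝ) * (((J + 2 * k + 1 : ℕ) : ℝ) *
        ((F + 2 : ℕ) : ℝ)) ^ (((J + 2 * k + 1 : ℕ) : ℝ) / ((k + 1 : ℕ) : ℝ)) := by
  classical
  set N := J + 2 * k + 1 with hN
  set w' := w - 2 * k * m with hw'
  let Mx : Matrix (Fin w' ⊕ Fin N) (Fin N) ℤ := fun r t =>
    match r with
    | Sum.inl i => e (n + i + t * m)
    | Sum.inr s => (if (t : ℕ) = J + 2 * k - s then 1 else 0) - σ * (if t = s then 1 else 0)
  have hMb : ∀ r t, |Mx r t| ≤ ((F + 2 : ℕ) : ℤ) := by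
    intro r t
    rcases r with i | s
    · have := he (n + i + t * m)
      show |e (n + i + t * m)| ≤ _
      push_cast
      linarith
    · show |(if (t : ℕ) = J + 2 * k - s then (1 : ℤ) else 0) - σ * (if t = s then 1 else 0)| ≤ _
      push_cast
      have hF : (0 : ℤ) ≤ F := by positivity
      rcases hσ with h | h <;> rw [h] <;> split_ifs <;> norm_num <;> omega
  -- the operator in terms of the matrix
  have hop : ∀ (B : ℤ[X]) (hB : B.natDegree ≤ J + 2 * k) (i : Fin w'),
      Mx.mulVec (fun t : Fin N => B.coeff t) (Sum.inl i) = op m B e (n + i) := by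
    intro B hB i
    rw [op_apply hB, ← hN, Finset.sum_range]
    simp only [Matrix.mulVec, dotProduct, Mx, smul_eq_mul]
    exact Finset.sum_congr rfl (fun t _ => mul_comm _ _)
  have hrf : ∀ (b : Fin N → ℤ) (s : Fin N),
      Mx.mulVec b (Sum.inr s) = b ⟨J + 2 * k - s, by have := s.2; omega⟩ - σ * b s := by
    intro b s
    have hs : J + 2 * k - (s : ℕ) < N := by have := s.2; omega
    simp only [Matrix.mulVec, dotProduct, Mx, sub_mul, Finset.sum_sub_distrib, ite_mul, one_mul,
      zero_mul, mul_assoc]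
    congr 1
    · have : ∀ t : Fin N, ((t : ℕ) = J + 2 * k - s) ↔ t = ⟨J + 2 * k - s, hs⟩ := by
        intro t
        constructor
        · intro h; exact Fin.ext h
        · intro h; rw [h]
      simp only [this]
      rw [Finset.sum_ite_eq' Finset.univ]
      simp
    · rw [← Finset.mul_sum, Finset.sum_ite_eq' Finset.univ s]
      simp
  -- the kernel
  have hker : k + 1 ≤ Module.finrank ℚ
      (LinearMap.ker (Matrix.mulVecLin (Mx.map (fun x : ℤ => (x : ℚ))))) := by
    have hmem : ∀ j : Fin (k + 1), (fun t : Fin N => (((A * sy k j).coeff t : ℤ) : ℚ)) ∈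
        LinearMap.ker (Matrix.mulVecLin (Mx.map (fun x : ℤ => (x : ℚ)))) := by
      intro j
      have hj : (j : ℕ) ≤ k := by have := j.2; omega
      have hdeg : (A * sy k j).natDegree ≤ J + 2 * k :=
        natDegree_mul_le.trans (by have := sy_natDegree hj; omega)
      have hint : Mx.mulVec (fun t : Fin N => (A * sy k j).coeff t) = 0 := by
        funext r
        rcases r with i | s
        · rw [hop _ hdeg i, mul_comm, op_mul, op_apply (sy_natDegree hj)]
          show _ = (0 : ℤ)
          apply Finset.sum_eq_zero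
          intro t ht
          have ht' : t ≤ 2 * k := by have := Finset.mem_range.1 ht; omega
          have h1 : t * m ≤ 2 * k * m := Nat.mul_le_mul_right m ht'
          have h2 := i.2
          rw [show n + (i : ℕ) + t * m = n + (i + t * m) by ring, hrel (i + t * m) (by omega),
            smul_zero]
        · rw [hrf]
          show (A * sy k j).coeff (J + 2 * k - s) - σ * (A * sy k j).coeff s = 0
          have h1 : (A * sy k j).reflect (J + 2 * k) = C σ * (A * sy k j) := by
            rw [reflect_mul A (sy k j) hJ (sy_natDegree hj), hrcp, sy_reflect hj, mul_assoc]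
          have h2 := congrArg (fun p => coeff p (s : ℕ)) h1
          simp only [coeff_reflect, coeff_C_mul] at h2
          rw [revAt_le (by have := s.2; omega)] at h2
          rw [h2, sub_self]
      rw [LinearMap.mem_ker, Matrix.mulVecLin_apply]
      funext r
      have h3 := congrFun hint r
      have h4 : ((Mx.mulVec (fun t : Fin N => (A * sy k j).coeff t) r : ℤ) : ℚ) = 0 := by
        rw [h3]; simp
      simp only [Matrix.mulVec, dotProduct, Matrix.map_apply] at h4 ⊢
      push_cast at h4
      exact h4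
    let v : Fin (k + 1) → LinearMap.ker (Matrix.mulVecLin (Mx.map (fun x : ℤ => (x : ℚ)))) :=
      fun j => ⟨_, hmem j⟩
    have hv : LinearIndependent ℚ v := by
      apply LinearIndependent.of_comp (Submodule.subtype _)
      exact sy_indep hA hJ
    have := hv.fintype_card_le_finrank
    rwa [Fintype.card_fin] at this
  obtain ⟨b, hb0, hbM, hbb⟩ := siegel_rank (by omega : 1 ≤ k + 1) (by omega : 1 ≤ F + 2) Mx hMb
    (by omega : 1 ≤ N) hker
  -- the polynomial
  set B : ℤ[X] := ∑ t : Fin N, monomial (t : ℕ) (b t) with hB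
  have hBc : ∀ t : Fin N, B.coeff t = b t := by
    intro t
    rw [hB, finsetSum_coeff, Finset.sum_eq_single t]
    · rw [coeff_monomial, if_pos rfl]
    · intro s _ hs
      rw [coeff_monomial, if_neg (fun h => hs (Fin.ext h))]
    · intro h; exact absurd (Finset.mem_univ t) h
  have hBd : B.natDegree ≤ J + 2 * k := by
    rw [hB]
    apply natDegree_sum_le_of_forall_le
    intro t _
    refine (natDegree_monomial_le _).trans ?_
    have := t.2
    omega
  have hBv : (fun t : Fin N => B.coeff t) = b := funext hBc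
  refine ⟨B, ?_, hBd, ?_, ?_, ?_⟩
  · intro h0
    apply hb0
    funext t
    rw [← hBc t, h0, coeff_zero]
    rfl
  · ext s
    rw [coeff_reflect, coeff_C_mul]
    rcases Nat.lt_or_ge (J + 2 * k) s with hs | hs
    · have : revAt (J + 2 * k) s = s := by simp [revAt, Nat.not_le.2 hs]
      rw [this, coeff_eq_zero_of_natDegree_lt (by omega), mul_zero]
    · rw [revAt_le hs]
      have h1 := congrFun hbM (Sum.inr (⟨s, by omega⟩ : Fin N))
      rw [hrf] at h1
      have h2 := hBc ⟨s, by omega⟩
      have h3 := hBc ⟨J + 2 * k - s, by omega⟩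
      simp only at h1 h2 h3
      rw [h2, h3]
      have h4 : b ⟨J + 2 * k - s, by omega⟩ - σ * b ⟨s, by omega⟩ = 0 := h1
      linarith
  · intro i hi
    have h1 := congrFun hbM (Sum.inl (⟨i, hi⟩ : Fin w'))
    rw [← hBv, hop B hBd ⟨i, hi⟩] at h1
    exact h1
  · rw [l1_eq (show B.natDegree < N by omega), Finset.sum_range]
    push_cast
    have h1 : ∀ t ∈ (Finset.univ : Finset (Fin N)), |((B.coeff t : ℤ) : ℝ)| ≤
        ((N : ℝ) * ((F + 2 : ℕ) : ℝ)) ^ ((N : ℝ) / ((k + 1 : ℕ) : ℝ)) := by
      intro t _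
      have := hbb t
      rw [← hBc t] at this
      rw [← Int.cast_abs]
      exact this
    refine (Finset.sum_le_sum h1).trans (le_of_eq ?_)
    rw [Finset.sum_const, Finset.card_univ, Fintype.card_fin, nsmul_eq_mul]
    push_cast
    rfl

end Pool.Agent.H95.LC
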