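import Pool.Agent.H95.LC.Fac2

/-!
# Reciprocal relations when the minus continued fraction of `α` is periodic
-/

set_option autoImplicit false

namespace Pool.Agent.H95.LC

open Finset
open Pool.Agent.H1.PC
open Pool.Agent.H18.LC

/-- The combination of translates. -/
noncomputable def tr (a : ℕ → ℤ) (L : ℕ) (X : ℕ → ℝ) (k : ℕ) : ℝ :=
  ∑ j ∈ range (L + 1), (a j : ℝ) * X (k + j)

lemma tr_rec {α : ℝ} {L k : ℕ} {a : ℕ → ℤ}
    (hc : ∀ j ≤ L, a j ≠ 0 → pq α (k + j + 1) = pq α (k + 1))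
    (X f : ℕ → ℝ) (hX : ∀ k, X (k + 2) = pq α (k + 1) * X (k + 1) - X k - f k) :
    tr a L X (k + 2) = pq α (k + 1) * tr a L X (k + 1) - tr a L X k - tr a L f k := by
  unfold tr
  rw [Finset.mul_sum, ← Finset.sum_sub_distrib, ← Finset.sum_sub_distrib]
  apply Finset.sum_congr rfl
  intro j hj
  have hj' : j ≤ L := by have := Finset.mem_range.1 hj; omega
  rw [show k + 2 + j = k + j + 2 by ring, show k + 1 + j = k + j + 1 by ring]
  by_cases h : a j = 0
  · simp [h]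
  · rw [hX (k + j), hc j hj' h]
    ring

lemma tr_bound {a : ℕ → ℤ} {L A : ℕ} (hA : ∑ j ∈ range (L + 1), |a j| ≤ A)
    {X : ℕ → ℝ} {M : ℝ} (k : ℕ) (hM : ∀ j ≤ L, |X (k + j)| ≤ M) :
    |tr a L X k| ≤ A * M := by
  have hM0 : 0 ≤ M := (abs_nonneg _).trans (hM 0 (Nat.zero_le _))
  unfold tr
  have h1 : ∀ j ∈ range (L + 1), |(a j : ℝ) * X (k + j)| ≤ |(a j : ℝ)| * M := by
    intro j hj
    have hj' : j ≤ L := by have := Finset.mem_range.1 hj; omega
    rw [abs_mul]
    exact mul_le_mul_of_nonneg_left (hM j hj') (abs_nonneg (a j : ℝ))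
  refine (Finset.abs_sum_le_sum_abs _ _).trans ((Finset.sum_le_sum h1).trans ?_)
  rw [← Finset.sum_mul]
  apply mul_le_mul_of_nonneg_right _ hM0
  have h2 : ((∑ j ∈ range (L + 1), |a j| : ℤ) : ℝ) ≤ (A : ℝ) := by exact_mod_cast hA
  refine le_trans (le_of_eq ?_) h2
  push_cast
  rfl

/-- a combination supported on multiples of `m` -/
lemma tr_mult {m J : ℕ} (hm : 1 ≤ m) {a : ℕ → ℤ} (hs : ∀ j ≤ J * m, a j ≠ 0 → m ∣ j)
    (X : ℕ → ℝ) (k : ℕ) :
    tr a (J * m) X k = ∑ t ∈ range (J + 1), (a (t * m) : ℝ) * X (k + t * m) := by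
  classical
  unfold tr
  have hinj : Function.Injective (fun t : ℕ => t * m) := fun x y h =>
    Nat.eq_of_mul_eq_mul_right (by omega) h
  have h1 : ∑ t ∈ range (J + 1), (a (t * m) : ℝ) * X (k + t * m) =
      ∑ j ∈ (range (J + 1)).image (fun t => t * m), (a j : ℝ) * X (k + j) := by
    rw [Finset.sum_image (fun x _ y _ h => hinj h)]
  rw [h1]
  symm
  apply Finset.sum_subset
  · intro j hj
    obtain ⟨t, ht, rfl⟩ := Finset.mem_image.1 hj
    have ht' : t ≤ J := by have := Finset.mem_range.1 ht; omega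
    rw [Finset.mem_range]
    have : t * m ≤ J * m := Nat.mul_le_mul_right m ht'
    omega
  · intro j hj hj'
    have hjL : j ≤ J * m := by have := Finset.mem_range.1 hj; omega
    by_cases h : a j = 0
    · simp [h]
    · exfalso
      apply hj'
      obtain ⟨t, rfl⟩ := hs j hjL h
      rw [Finset.mem_image]
      refine ⟨t, Finset.mem_range.2 ?_, by ring⟩
      have : m * t ≤ m * J := by rw [mul_comm m J]; exact hjL
      have := Nat.le_of_mul_le_mul_left this (by omega)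
      omega

/-- The final arithmetic. -/
lemma fin_arith {x y z u P Y E B H W : ℝ} (hx : 0 ≤ x) (hy : 0 ≤ y) (hz : 0 ≤ z)
    (hu : 1 ≤ u) (hP : 0 ≤ P) (hY : 0 ≤ Y) (hE : 0 ≤ E) (hB : 0 ≤ B) (hH : 0 < H) (hW : 0 ≤ W)
    (h1 : x ≤ Real.sqrt u * P) (h2 : y ≤ Real.sqrt u * Y) (h3 : z * u ≤ Real.sqrt u * (E / H))
    (h4 : P * Y ≤ W) (h5 : u ^ 2 ≤ B) :
    (x * y * z) ^ 4 ≤ (W * E) ^ 4 * B / H ^ 4 := by
  have hu0 : 0 < u := by linarith
  have hs : 0 ≤ Real.sqrt u := Real.sqrt_nonneg _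
  have hs2 : Real.sqrt u ^ 2 = u := Real.sq_sqrt hu0.le
  have hEH : 0 ≤ E / H := by positivity
  have e1 : x * y ≤ u * W := by
    calc x * y ≤ (Real.sqrt u * P) * (Real.sqrt u * Y) := mul_le_mul h1 h2 hy (by positivity)
      _ = Real.sqrt u ^ 2 * (P * Y) := by ring
      _ ≤ Real.sqrt u ^ 2 * W := mul_le_mul_of_nonneg_left h4 (by positivity)
      _ = u * W := by rw [hs2]
  have e2 : x * y * z ≤ Real.sqrt u * (W * (E / H)) := by
    calc x * y * z ≤ (u * W) * z := mul_le_mul_of_nonneg_right e1 hz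
      _ = W * (z * u) := by ring
      _ ≤ W * (Real.sqrt u * (E / H)) := mul_le_mul_of_nonneg_left h3 hW
      _ = _ := by ring
  have e3 : (x * y * z) ^ 4 ≤ (Real.sqrt u * (W * (E / H))) ^ 4 :=
    pow_le_pow_left₀ (by positivity) e2 4
  have e4 : (Real.sqrt u * (W * (E / H))) ^ 4 = u ^ 2 * ((W * E) ^ 4 / H ^ 4) := by
    have : (Real.sqrt u) ^ 4 = u ^ 2 := by
      rw [show 4 = 2 * 2 by norm_num, pow_mul, hs2]
    rw [mul_pow, this]
    field_simp
  rw [e4] at e3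
  refine e3.trans ?_
  have e5 : 0 ≤ (W * E) ^ 4 / H ^ 4 := by positivity
  calc u ^ 2 * ((W * E) ^ 4 / H ^ 4) ≤ B * ((W * E) ^ 4 / H ^ 4) :=
        mul_le_mul_of_nonneg_right h5 e5
    _ = _ := by ring

section bad

variable {α : ℝ} (hα : Irrational α) {δ : ℝ} (hδ : 0 < δ)
  (hbad : ∀ q : ℕ, 0 < q → ∀ p : ℤ, δ ≤ (q : ℝ) * |(q : ℝ) * α - p|)
include hα hδ hbad

/-- A bounded homogeneous solution is tiny in the middle of a window. -/
lemma sol_small {Y : ℕ → ℝ} {M : ℝ} (hY : ∀ k, |Y k| ≤ M)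
    {k1 : ℕ} {ρ c1 c2 : ℝ} (hρ : 1 < ρ) (hc1 : 0 < c1) (hc2 : 0 < c2)
    (hg : ∀ k h, k1 ≤ k → c1 * ρ ^ h * den α k ≤ den α (k + h) ∧
      (den α (k + h) : ℝ) ≤ c2 * ρ ^ h * den α k)
    {n s h : ℕ} (hn : k1 ≤ n) (hs : 2 * h ≤ s) (hh : 1 ≤ h)
    (hYrec : ∀ j < s, Y (n + j + 2) = pq α (n + j + 1) * Y (n + j + 1) - Y (n + j))
    (e : ℕ) (he : e ≤ 1) :
    |Y (n + h + 1 + e)| ≤ (2 * M / (δ * c1)) * (c2 * ρ ^ 2 + ρ + 1) / ρ ^ h := by
  have hM0 : 0 ≤ M := (abs_nonneg _).trans (hY 0)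
  have hρ0 : 0 < ρ := by linarith
  have hb := window_bound hα Y M hY n s hYrec (h + e) (by omega)
  have e1 : n + (h + e) + 1 = n + h + 1 + e := by ring
  rw [e1] at hb
  set k := n + h + 1 with hk
  have hQ : ∀ i, (0 : ℝ) ≤ den α i := den_cast_nonneg hα
  have hth : ∀ i, 0 ≤ th α i := th_nonneg hα
  have hQth : ∀ i, (den α i : ℝ) * th α i ≤ 1 / δ := fun i => (step_facts hα hδ hbad i).2.2
  have hr : 0 < ρ ^ h := by positivity
  have f1 : (den α (k + e) : ℝ) * th α (n + s) ≤ (c2 * ρ ^ 2 + ρ) / (δ * c1 * ρ ^ h) := by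
    have g1 := (hg k (s - h - 1) (by omega)).1
    have e2 : k + (s - h - 1) = n + s := by omega
    rw [e2] at g1
    have g2 : ρ ^ h ≤ ρ * ρ ^ (s - h - 1) := by
      rw [← pow_succ']
      exact pow_le_pow_right₀ hρ.le (by omega)
    have g3 : c1 * ρ ^ h * den α k ≤ ρ * den α (n + s) := by
      calc c1 * ρ ^ h * den α k ≤ c1 * (ρ * ρ ^ (s - h - 1)) * den α k := by
            apply mul_le_mul_of_nonneg_right _ (hQ _)
            exact mul_le_mul_of_nonneg_left g2 hc1.le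
        _ = ρ * (c1 * ρ ^ (s - h - 1) * den α k) := by ring
        _ ≤ ρ * den α (n + s) := mul_le_mul_of_nonneg_left g1 hρ0.le
    have g4 : (den α (k + e) : ℝ) ≤ (c2 * ρ + 1) * den α k := by
      rcases (by omega : e = 0 ∨ e = 1) with rfl | rfl
      · simp only [Nat.add_zero]
        have : 0 ≤ c2 * ρ * den α k := mul_nonneg (by positivity) (hQ _)
        linarith
      · have := (hg k 1 (by omega)).2
        rw [pow_one] at this
        have h0 := hQ k
        linarith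
    rw [le_div_iff₀ (by positivity)]
    calc (den α (k + e) : ℝ) * th α (n + s) * (δ * c1 * ρ ^ h)
        ≤ ((c2 * ρ + 1) * den α k) * th α (n + s) * (δ * c1 * ρ ^ h) := by
          apply mul_le_mul_of_nonneg_right _ (by positivity)
          exact mul_le_mul_of_nonneg_right g4 (hth _)
      _ = (c2 * ρ + 1) * δ * th α (n + s) * (c1 * ρ ^ h * den α k) := by ring
      _ ≤ (c2 * ρ + 1) * δ * th α (n + s) * (ρ * den α (n + s)) := by
          apply mul_le_mul_of_nonneg_left g3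
          have := hth (n + s)
          positivity
      _ = (c2 * ρ + 1) * ρ * δ * (den α (n + s) * th α (n + s)) := by ring
      _ ≤ (c2 * ρ + 1) * ρ * δ * (1 / δ) := by
          apply mul_le_mul_of_nonneg_left (hQth _) (by positivity)
      _ = c2 * ρ ^ 2 + ρ := by field_simp
  have f2 : th α (k + e) * (den α (n + 1) : ℝ) ≤ 1 / (δ * c1 * ρ ^ h) := by
    have g1 := (hg (n + 1) h (by omega)).1
    have e2 : n + 1 + h = k := by omega
    rw [e2] at g1
    have g2 : th α (k + e) ≤ th α k := th_anti hα (by omega)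
    rw [le_div_iff₀ (by positivity)]
    calc th α (k + e) * (den α (n + 1) : ℝ) * (δ * c1 * ρ ^ h)
        ≤ th α k * (den α (n + 1) : ℝ) * (δ * c1 * ρ ^ h) := by
          apply mul_le_mul_of_nonneg_right _ (by positivity)
          exact mul_le_mul_of_nonneg_right g2 (hQ _)
      _ = th α k * δ * (c1 * ρ ^ h * den α (n + 1)) := by ring
      _ ≤ th α k * δ * den α k := by
          apply mul_le_mul_of_nonneg_left g1
          have := hth k
          positivity
      _ = δ * (den α k * th α k) := by ring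
      _ ≤ δ * (1 / δ) := mul_le_mul_of_nonneg_left (hQth _) hδ.le
      _ = 1 := by field_simp
  refine hb.trans ?_
  have f3 : (den α (k + e) : ℝ) * th α (n + s) + th α (k + e) * den α (n + 1) ≤
      (c2 * ρ ^ 2 + ρ) / (δ * c1 * ρ ^ h) + 1 / (δ * c1 * ρ ^ h) := add_le_add f1 f2
  calc 2 * M * ((den α (k + e) : ℝ) * th α (n + s) + th α (k + e) * den α (n + 1))
      ≤ 2 * M * ((c2 * ρ ^ 2 + ρ) / (δ * c1 * ρ ^ h) + 1 / (δ * c1 * ρ ^ h)) :=
        mul_le_mul_of_nonneg_left f3 (by positivity)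
    _ = _ := by field_simp

end bad

end Pool.Agent.H95.LC
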