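import Pool.Agent.H95.LC.Core

/-!
# Reciprocal relations: the main estimate
-/

set_option autoImplicit false

namespace Pool.Agent.H95.LC

open Finset
open Pool.Agent.H1.PC
open Pool.Agent.H18.LC

lemma rel_fac {α : ℝ} {k0 m J : ℕ} (hm : 1 ≤ m) {T σ : ℤ} (hσ : σ = 1 ∨ σ = -1)
    (hT : ∀ y : ℕ → ℝ, IsSol α k0 y → ∀ k, k0 ≤ k → y (k + 2 * m) = T * y (k + m) - y k)
    {a : ℕ → ℤ} (hrcp : ∀ j ≤ J * m, a (J * m - j) = σ * a j)
    (hsupp : ∀ j ≤ J * m, a j ≠ 0 → m ∣ j) :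
    ∃ p q U : ℤ, PQ T p q ∧ ∀ y : ℕ → ℝ, IsSol α k0 y → ∀ x, k0 ≤ x →
      2 * tr a (J * m) y x = U * (p * y (x + (J / 2 + 1) * m) + q * y (x + J / 2 * m)) := by
  obtain ⟨p, q, U, hpq, hU⟩ := fac_rel T σ hσ J (fun t => a (t * m)) (fun t ht => by
    have := hrcp (t * m) (Nat.mul_le_mul_right m ht)
    rw [← Nat.sub_mul] at this
    exact this)
  refine ⟨p, q, U, hpq, fun y hy x hx => ?_⟩
  have := hU (fun t => y (x + t * m)) (fun t => by
    have h1 := hT y hy (x + t * m) (by omega)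
    rw [show x + t * m + 2 * m = x + (t + 2) * m by ring,
      show x + t * m + m = x + (t + 1) * m by ring] at h1
    exact h1)
  rw [tr_mult hm hsupp]
  exact this

section bad

variable {α : ℝ} (hα : Irrational α) {δ : ℝ} (hδ : 0 < δ)
  (hbad : ∀ q : ℕ, 0 < q → ∀ p : ℤ, δ ≤ (q : ℝ) * |(q : ℝ) * α - p|)
include hα hδ hbad

/-- lower bound for `p Q_(x+m) + q Q_x` -/
lemma pq_low {k0 m x : ℕ} (hm : 1 ≤ m) {T : ℤ}
    (hT : ∀ y : ℕ → ℝ, IsSol α k0 y → ∀ k, k0 ≤ k → y (k + 2 * m) = T * y (k + m) - y k)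
    (hx : k0 + m ≤ x) {p q : ℤ} (hpq : PQ T p q) :
    δ * (den α x : ℝ) ≤ p * den α (x + m) + q * den α x := by
  have hd1 := delta_le_one hα hδ hbad
  have hQ : ∀ i, (0 : ℝ) ≤ den α i := den_cast_nonneg hα
  have h1 : (1 + δ) * (den α x : ℝ) ≤ den α (x + m) :=
    ((step_facts hα hδ hbad x).2.1).trans (den_cast_mono hα (by omega))
  have h0 := hQ x
  have hδx : δ * (den α x : ℝ) ≤ den α x := by nlinarith
  rcases hpq with ⟨rfl, rfl⟩ | ⟨rfl, rfl⟩ | ⟨rfl, rfl⟩ | ⟨rfl, rfl⟩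
  · have h2 := hT _ (den_sol (α := α) k0) (x - m) (by omega)
    rw [show x - m + 2 * m = x + m by omega, show x - m + m = x by omega] at h2
    have h3 : (den α (x - m) : ℝ) ≤ den α x := den_cast_mono hα (by omega)
    push_cast
    linarith
  · push_cast
    linarith
  · push_cast
    linarith
  · push_cast
    linarith

lemma core2 {β : ℝ} {R : ℕ → ℤ} {M : ℝ} (hM : ∀ k, |(den α k : ℝ) * β - R k| ≤ M)
    {k0 k1 m : ℕ} (hm : 1 ≤ m) (hper : ∀ k, k0 ≤ k → pq α (k + m) = pq α k) {T : ℤ}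
    (hT3 : 3 ≤ T)
    (hT : ∀ y : ℕ → ℝ, IsSol α k0 y → ∀ k, k0 ≤ k → y (k + 2 * m) = T * y (k + m) - y k)
    (hk01 : k0 + m ≤ k1) (hk11 : 1 ≤ k1) {ρ c1 c2 : ℝ} (hρ : 1 < ρ) (hc1 : 0 < c1) (hc2 : 0 < c2)
    (hg : ∀ k h, k1 ≤ k → c1 * ρ ^ h * den α k ≤ den α (k + h) ∧
      (den α (k + h) : ℝ) ≤ c2 * ρ ^ h * den α k)
    {A J : ℕ} {a : ℕ → ℤ} {σ : ℤ} (hσ : σ = 1 ∨ σ = -1)
    (hrcp : ∀ j ≤ J * m, a (J * m - j) = σ * a j) (hsupp : ∀ j ≤ J * m, a j ≠ 0 → m ∣ j)
    (hA : ∑ j ∈ range (J * m + 1), |a j| ≤ A)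
    {n s h : ℕ} (hn : k1 ≤ n) (hs : 2 * h ≤ s) (hh : 1 ≤ h)
    (hdig : ∀ i < s, ∑ j ∈ range (J * m + 1), a j * digit α R (n + i + j) = 0)
    (hne : ∃ x, k0 ≤ x ∧ ∑ j ∈ range (J * m + 1), a j * den α (x + j) ≠ 0)
    (hθ4 : 4 * A * th α (n + h + 1) < 1) :
    ∃ q p r : ℤ, q ≠ 0 ∧ |(q : ℝ) * α - p| ≤ 4 * A * th α (n + h + 1) ∧
      (|(q : ℝ)| * |(q : ℝ) * α - p| * |(q : ℝ) * β - r|) ^ 4 ≤
        ((4 * (|T| + 3) ^ 2 * (c2 * ρ ^ (1 + m) / δ)) *
          (2 * ((2 * (2 * (A * M)) / (δ * c1)) * (c2 * ρ ^ 2 + ρ + 1)))) ^ 4 *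
        ((2 * A * c2 / δ) ^ 2 * ρ ^ m * ρ ^ (J * m)) / (ρ ^ h) ^ 4 := by
  have hM0 : 0 ≤ M := (abs_nonneg _).trans (hM 0)
  have hρ0 : 0 < ρ := by linarith
  have hd1 := delta_le_one hα hδ hbad
  have hA0 : (0 : ℝ) ≤ A := Nat.cast_nonneg _
  have hQ : ∀ i, (0 : ℝ) ≤ den α i := den_cast_nonneg hα
  have hQpos : ∀ i, 1 ≤ i → (0 : ℝ) < den α i := by
    intro i hi
    have := den_ge hα i
    have h2 : (0 : ℤ) < den α i := by omega
    exact_mod_cast h2
  have hth : ∀ i, 0 < th α i := fun i => (th_pos hα i).1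
  have hQth : ∀ i, (den α i : ℝ) * th α i ≤ 1 / δ := fun i => (step_facts hα hδ hbad i).2.2
  set CY : ℝ := (2 * (2 * (A * M)) / (δ * c1)) * (c2 * ρ ^ 2 + ρ + 1) with hCY
  have hCY0 : 0 ≤ CY := by positivity
  set k := n + h + 1 with hk
  set L := J * m with hL
  obtain ⟨pp, qq, U, hpq, hfac⟩ := rel_fac hm hσ hT hrcp hsupp
  obtain ⟨hpp, hqq⟩ := pq_bounds hpq
  set i := J / 2 with hi
  have hi2 : 2 * i ≤ J := by omega
  have hi3 : J ≤ 2 * i + 1 := by omega
  -- integers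
  let qd : ℕ → ℤ := fun x => pp * den α (x + (i + 1) * m) + qq * den α (x + i * m)
  let pd : ℕ → ℤ := fun x => pp * num α (x + (i + 1) * m) + qq * num α (x + i * m)
  have hqdR : ∀ x, (qd x : ℝ) = pp * den α (x + (i + 1) * m) + qq * den α (x + i * m) := by
    intro x; simp only [qd]; push_cast; ring
  have hpdR : ∀ x, (pd x : ℝ) = pp * num α (x + (i + 1) * m) + qq * num α (x + i * m) := by
    intro x; simp only [pd]; push_cast; ring
  have hqd : ∀ x, k0 ≤ x → 2 * tr a L (fun k => (den α k : ℝ)) x = U * (qd x : ℝ) := by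
    intro x hx
    rw [hqdR]
    exact hfac _ (den_sol (α := α) k0) x hx
  have hpd : ∀ x, k0 ≤ x → 2 * tr a L (fun k => (num α k : ℝ)) x = U * (pd x : ℝ) := by
    intro x hx
    rw [hpdR]
    exact hfac _ (num_sol (α := α) k0) x hx
  have hU0 : U ≠ 0 := by
    intro h0
    obtain ⟨x, hx, hne⟩ := hne
    apply hne
    have h1 := hqd x hx
    rw [h0] at h1
    simp only [Int.cast_zero, zero_mul, mul_eq_zero, OfNat.ofNat_ne_zero, false_or] at h1
    have h2 : ∑ j ∈ range (L + 1), (a j : ℝ) * (den α (x + j) : ℝ) = 0 := h1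
    exact_mod_cast h2
  set u : ℤ := |U| with hu
  have hu1 : 1 ≤ u := Int.one_le_abs hU0
  have hu1R : (1 : ℝ) ≤ u := by exact_mod_cast hu1
  have huabs : |(U : ℝ)| = u := by rw [hu]; push_cast; rfl
  have hupos : (0 : ℝ) < u := by linarith
  -- Thue
  set z0 : ℤ := 2 * ∑ j ∈ range (L + 1), a j * R (k + j) with hz0
  set z1 : ℤ := 2 * ∑ j ∈ range (L + 1), a j * R (k + 1 + j) with hz1
  obtain ⟨b0, b1, hb, hdvd, hb0, hb1⟩ := thue u z0 z1 (by omega)
  have hdvd' : U ∣ b0 * z0 + b1 * z1 := by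
    rw [hu] at hdvd
    exact (abs_dvd _ _).1 hdvd
  obtain ⟨r, hr⟩ := hdvd'
  set q : ℤ := b0 * qd k + b1 * qd (k + 1) with hq
  set p : ℤ := b0 * pd k + b1 * pd (k + 1) with hp
  have hsq : ∀ b : ℤ, b ^ 2 ≤ u → |(b : ℝ)| ≤ Real.sqrt u := by
    intro b hb
    apply Real.le_sqrt_of_sq_le
    rw [sq_abs]
    exact_mod_cast hb
  have hB0 := hsq b0 hb0
  have hB1 := hsq b1 hb1
  have hsu : 0 ≤ Real.sqrt (u : ℝ) := Real.sqrt_nonneg _
  let V : ℕ → ℝ := fun k => (den α k : ℝ) * β - R k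
  have hV : ∀ k, V (k + 2) = pq α (k + 1) * V (k + 1) - V k - digit α R k := by
    intro k
    have h3 := digit_cast (α := α) R k
    have h5 := den_rec (α := α) k
    simp only [V]
    linear_combination β * h5 + h3
  let Y : ℕ → ℝ := fun k => 2 * tr a L V k
  have hYb : ∀ k, |Y k| ≤ 2 * (A * M) := by
    intro k
    simp only [Y]
    rw [abs_mul, abs_of_pos (by norm_num : (0 : ℝ) < 2)]
    exact mul_le_mul_of_nonneg_left (tr_bound hA k (fun j _ => hM _)) (by norm_num)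
  have hcomp : ∀ x, k0 ≤ x → ∀ j ≤ L, a j ≠ 0 → pq α (x + j + 1) = pq α (x + 1) := by
    intro x hx j hj ha
    obtain ⟨t, rfl⟩ := hsupp j hj ha
    have : ∀ t : ℕ, pq α (x + m * t + 1) = pq α (x + 1) := by
      intro t
      induction t with
      | zero => simp
      | succ t ih =>
        rw [show x + m * (t + 1) + 1 = x + m * t + 1 + m by ring, hper _ (by omega), ih]
    exact this t
  have hYrec : ∀ j < s, Y (n + j + 2) = pq α (n + j + 1) * Y (n + j + 1) - Y (n + j) := by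
    intro j hj
    simp only [Y]
    rw [tr_rec (hcomp (n + j) (by omega)) V (fun k => (digit α R k : ℝ)) hV]
    have h2 : tr a L (fun k => (digit α R k : ℝ)) (n + j) = 0 := by
      show ∑ j' ∈ range (L + 1), (a j' : ℝ) * (digit α R (n + j + j') : ℝ) = 0
      exact_mod_cast hdig j hj
    rw [h2]; ring
  have y0 := sol_small hα hδ hbad hYb hρ hc1 hc2 hg hn hs hh hYrec 0 (by norm_num)
  have y1 := sol_small hα hδ hbad hYb hρ hc1 hc2 hg hn hs hh hYrec 1 (by norm_num)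
  rw [← hCY] at y0 y1
  rw [← hk] at y0 y1
  -- identities
  have hUp : (U : ℝ) * (q * α - p) =
      -(b0 * (2 * tr a L (th α) k) + b1 * (2 * tr a L (th α) (k + 1))) := by
    have hthtr : ∀ x, tr a L (th α) x = tr a L (fun k => (num α k : ℝ)) x -
        α * tr a L (fun k => (den α k : ℝ)) x := by
      intro x
      unfold tr
      rw [Finset.mul_sum, ← Finset.sum_sub_distrib]
      apply Finset.sum_congr rfl
      intro j _
      unfold th
      ring
    have e1 := hqd k (by omega)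
    have e2 := hqd (k + 1) (by omega)
    have e3 := hpd k (by omega)
    have e4 := hpd (k + 1) (by omega)
    rw [hthtr, hthtr, hq, hp]
    push_cast
    linear_combination (-(b0 : ℝ)) * α * e1 - (b1 : ℝ) * α * e2 + (b0 : ℝ) * e3 + (b1 : ℝ) * e4
  have hUr : (U : ℝ) * (q * β - r) = b0 * Y k + b1 * Y (k + 1) := by
    have e1 := hqd k (by omega)
    have e2 := hqd (k + 1) (by omega)
    have e0 : ((b0 * z0 + b1 * z1 : ℤ) : ℝ) = ((U * r : ℤ) : ℝ) := by rw [hr]
    rw [hz0, hz1] at e0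
    push_cast at e0
    have hVtr : ∀ x, tr a L V x = β * tr a L (fun k => (den α k : ℝ)) x -
        ∑ j ∈ range (L + 1), (a j : ℝ) * (R (x + j) : ℝ) := by
      intro x
      unfold tr
      rw [Finset.mul_sum, ← Finset.sum_sub_distrib]
      apply Finset.sum_congr rfl
      intro j _
      simp only [V]
      ring
    simp only [Y]
    rw [hVtr, hVtr, hq]
    push_cast
    linear_combination (-(b0 : ℝ)) * β * e1 - (b1 : ℝ) * β * e2 + e0
  -- the bounds
  have ht : ∀ x, k ≤ x → |2 * tr a L (th α) x| ≤ 2 * (A * th α k) := by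
    intro x hx
    rw [abs_mul, abs_of_pos (by norm_num : (0 : ℝ) < 2)]
    apply mul_le_mul_of_nonneg_left _ (by norm_num)
    apply tr_bound hA
    intro j _
    rw [abs_of_pos (hth _)]
    exact th_anti hα (by omega)
  have hp_bd : |(q : ℝ) * α - p| * u ≤ Real.sqrt u * (4 * A * th α k) := by
    rw [← huabs, mul_comm, ← abs_mul, hUp, abs_neg]
    refine (abs_add_le _ _).trans ?_
    rw [abs_mul (b0 : ℝ), abs_mul (b1 : ℝ)]
    have h1 := mul_le_mul hB0 (ht k le_rfl) (abs_nonneg _) hsu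
    have h2 := mul_le_mul hB1 (ht (k + 1) (by omega)) (abs_nonneg _) hsu
    rw [huabs]
    linarith
  have hp4 : |(q : ℝ) * α - p| ≤ 4 * A * th α k := by
    have h1 : Real.sqrt (u : ℝ) ≤ u := by
      rw [Real.sqrt_le_left (by linarith)]
      nlinarith
    have h2 : |(q : ℝ) * α - p| * u ≤ (4 * A * th α k) * u := by
      refine hp_bd.trans ?_
      rw [mul_comm (4 * A * th α k)]
      exact mul_le_mul_of_nonneg_right h1 (by have := hth k; positivity)
    exact le_of_mul_le_mul_right h2 hupos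
  have hr_bd : |(q : ℝ) * β - r| * u ≤ Real.sqrt u * (2 * CY / ρ ^ h) := by
    rw [← huabs, mul_comm, ← abs_mul, hUr]
    refine (abs_add_le _ _).trans ?_
    rw [abs_mul (b0 : ℝ), abs_mul (b1 : ℝ)]
    have h1 := mul_le_mul hB0 y0 (abs_nonneg _) hsu
    have h2 := mul_le_mul hB1 y1 (abs_nonneg _) hsu
    have e : Real.sqrt u * (2 * CY / ρ ^ h) =
        Real.sqrt u * (CY / ρ ^ h) + Real.sqrt u * (CY / ρ ^ h) := by ring
    rw [huabs, e]
    exact add_le_add h1 h2
  have p1 : |(pp : ℝ)| ≤ 2 := by exact_mod_cast hpp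
  have p2 : |(qq : ℝ)| ≤ |(T : ℝ)| + 1 := by exact_mod_cast hqq
  have hTR : (0 : ℝ) ≤ ((|T| : ℤ) : ℝ) := by exact_mod_cast abs_nonneg T
  have hTR' : ((|T| : ℤ) : ℝ) = |(T : ℝ)| := by push_cast; rfl
  set τ3 : ℝ := ((|T| : ℤ) : ℝ) + 3 with hτ3
  have hτ0 : 0 < τ3 := by rw [hτ3]; linarith
  have him : (i + 1) * m = i * m + m := by ring
  have hq_bd : |(q : ℝ)| ≤ Real.sqrt u * (2 * τ3 * den α (k + 1 + (i + 1) * m)) := by
    have g : ∀ x, x ≤ k + 1 → |(qd x : ℝ)| ≤ τ3 * den α (k + 1 + (i + 1) * m) := by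
      intro x hx
      rw [hqdR]
      refine (abs_add_le _ _).trans ?_
      rw [abs_mul, abs_mul, abs_of_nonneg (hQ _), abs_of_nonneg (hQ (x + i * m))]
      have g1 : (den α (x + (i + 1) * m) : ℝ) ≤ den α (k + 1 + (i + 1) * m) :=
        den_cast_mono hα (by omega)
      have g2 : (den α (x + i * m) : ℝ) ≤ den α (k + 1 + (i + 1) * m) :=
        den_cast_mono hα (by omega)
      have m1 := mul_le_mul p1 g1 (hQ _) (by norm_num)
      have m2 := mul_le_mul p2 g2 (hQ _) (by have := abs_nonneg (T : ℝ); linarith)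
      rw [hτ3, hTR']
      linarith
    rw [hq]
    push_cast
    refine (abs_add_le _ _).trans ?_
    rw [abs_mul, abs_mul]
    have h1 := mul_le_mul hB0 (g k (by omega)) (abs_nonneg _) hsu
    have h2 := mul_le_mul hB1 (g (k + 1) le_rfl) (abs_nonneg _) hsu
    linarith
  have hp_bd2 : |(q : ℝ) * α - p| ≤ Real.sqrt u * (2 * τ3 * th α (k + i * m)) := by
    have g : ∀ x, k ≤ x → |(qd x : ℝ) * α - pd x| ≤ τ3 * th α (k + i * m) := by
      intro x hx
      have e : (qd x : ℝ) * α - pd x =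
          -(pp * th α (x + (i + 1) * m) + qq * th α (x + i * m)) := by
        rw [hqdR, hpdR]; unfold th; ring
      rw [e, abs_neg]
      refine (abs_add_le _ _).trans ?_
      rw [abs_mul, abs_mul, abs_of_pos (hth _), abs_of_pos (hth (x + i * m))]
      have g1 : th α (x + (i + 1) * m) ≤ th α (k + i * m) := th_anti hα (by omega)
      have g2 : th α (x + i * m) ≤ th α (k + i * m) := th_anti hα (by omega)
      have m1 := mul_le_mul p1 g1 (hth _).le (by norm_num)
      have m2 := mul_le_mul p2 g2 (hth _).le (by have := abs_nonneg (T : ℝ); linarith)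
      rw [hτ3, hTR']
      linarith
    have e : (q : ℝ) * α - p = b0 * ((qd k : ℝ) * α - pd k) +
        b1 * ((qd (k + 1) : ℝ) * α - pd (k + 1)) := by
      rw [hq, hp]; push_cast; ring
    rw [e]
    refine (abs_add_le _ _).trans ?_
    rw [abs_mul, abs_mul]
    have h1 := mul_le_mul hB0 (g k le_rfl) (abs_nonneg _) hsu
    have h2 := mul_le_mul hB1 (g (k + 1) (by omega)) (abs_nonneg _) hsu
    linarith
  have hW : (2 * τ3 * (den α (k + 1 + (i + 1) * m) : ℝ)) * (2 * τ3 * th α (k + i * m)) ≤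
      4 * τ3 ^ 2 * (c2 * ρ ^ (1 + m) / δ) := by
    have h1 := (hg (k + i * m) (1 + m) (by omega)).2
    rw [show k + i * m + (1 + m) = k + 1 + (i + 1) * m by ring] at h1
    have h2 : (den α (k + 1 + (i + 1) * m) : ℝ) * th α (k + i * m) ≤
        c2 * ρ ^ (1 + m) / δ := by
      calc (den α (k + 1 + (i + 1) * m) : ℝ) * th α (k + i * m)
          ≤ (c2 * ρ ^ (1 + m) * den α (k + i * m)) * th α (k + i * m) :=
            mul_le_mul_of_nonneg_right h1 (hth _).le
        _ = c2 * ρ ^ (1 + m) * (den α (k + i * m) * th α (k + i * m)) := by ring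
        _ ≤ c2 * ρ ^ (1 + m) * (1 / δ) := mul_le_mul_of_nonneg_left (hQth _) (by positivity)
        _ = _ := by ring
    calc (2 * τ3 * (den α (k + 1 + (i + 1) * m) : ℝ)) * (2 * τ3 * th α (k + i * m))
        = 4 * τ3 ^ 2 * ((den α (k + 1 + (i + 1) * m) : ℝ) * th α (k + i * m)) := by ring
      _ ≤ _ := mul_le_mul_of_nonneg_left h2 (by positivity)
  -- upper bound of `u`
  have hu_up : (u : ℝ) ≤ (2 * A * c2 / δ) * ρ ^ (L - i * m) := by
    have h1 : δ * (den α (k + i * m) : ℝ) ≤ pp * den α (k + i * m + m) + qq * den α (k + i * m) :=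
      pq_low hα hδ hbad hm hT (by omega) hpq
    rw [show k + i * m + m = k + (i + 1) * m by ring, ← hqdR] at h1
    have hx0 : 0 < (den α (k + i * m) : ℝ) := hQpos _ (by omega)
    have h2 : (u : ℝ) * (qd k : ℝ) ≤ 2 * (A * den α (k + L)) := by
      have h3 : |(U : ℝ) * (qd k : ℝ)| ≤ 2 * (A * den α (k + L)) := by
        rw [← hqd k (by omega), abs_mul, abs_of_pos (by norm_num : (0 : ℝ) < 2)]
        apply mul_le_mul_of_nonneg_left _ (by norm_num)
        apply tr_bound hA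
        intro j hj
        rw [abs_of_nonneg (hQ _)]
        exact den_cast_mono hα (by omega)
      rw [abs_mul, huabs] at h3
      exact (mul_le_mul_of_nonneg_left (le_abs_self _) hupos.le).trans h3
    have hile : i * m ≤ L := by
      rw [hL]; exact Nat.mul_le_mul_right m (by omega)
    have h4 := (hg (k + i * m) (L - i * m) (by omega)).2
    rw [show k + i * m + (L - i * m) = k + L by omega] at h4
    have h5 : (u : ℝ) * (δ * den α (k + i * m)) ≤
        2 * (A * (c2 * ρ ^ (L - i * m) * den α (k + i * m))) := by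
      refine (mul_le_mul_of_nonneg_left h1 hupos.le).trans (h2.trans ?_)
      apply mul_le_mul_of_nonneg_left _ (by norm_num)
      exact mul_le_mul_of_nonneg_left h4 hA0
    have h6 : ((u : ℝ) * δ) * den α (k + i * m) ≤
        (2 * A * c2 * ρ ^ (L - i * m)) * den α (k + i * m) := by
      calc ((u : ℝ) * δ) * den α (k + i * m) = (u : ℝ) * (δ * den α (k + i * m)) := by ring
        _ ≤ _ := h5
        _ = _ := by ring
    have h7 := le_of_mul_le_mul_right h6 hx0
    rw [div_mul_eq_mul_div, le_div_iff₀ hδ]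
    exact h7
  have hu2 : (u : ℝ) ^ 2 ≤ (2 * A * c2 / δ) ^ 2 * ρ ^ m * ρ ^ L := by
    have h1 : (u : ℝ) ^ 2 ≤ ((2 * A * c2 / δ) * ρ ^ (L - i * m)) ^ 2 :=
      pow_le_pow_left₀ hupos.le hu_up 2
    refine h1.trans ?_
    have h2 : J * m ≤ (2 * i + 1) * m := Nat.mul_le_mul_right m hi3
    have h3 : (2 * i + 1) * m = 2 * (i * m) + m := by ring
    have h4 : ρ ^ (2 * (L - i * m)) ≤ ρ ^ (m + L) := pow_le_pow_right₀ hρ.le (by omega)
    calc ((2 * A * c2 / δ) * ρ ^ (L - i * m)) ^ 2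
        = (2 * A * c2 / δ) ^ 2 * ρ ^ (2 * (L - i * m)) := by
          rw [mul_pow, ← pow_mul, mul_comm (L - i * m) 2]
      _ ≤ (2 * A * c2 / δ) ^ 2 * ρ ^ (m + L) := mul_le_mul_of_nonneg_left h4 (by positivity)
      _ = _ := by rw [pow_add]; ring
  -- q is not zero
  have hqne : q ≠ 0 := by
    intro hq0
    have hp0 : p = 0 := by
      have h1 : |(q : ℝ) * α - p| < 1 := lt_of_le_of_lt hp4 hθ4
      rw [hq0] at h1
      simp only [Int.cast_zero, zero_mul, zero_sub, abs_neg] at h1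
      exact Int.abs_lt_one_iff.1 (by exact_mod_cast h1)
    have e1 : (b0 : ℝ) * (pp * den α (k + i * m + m) + qq * den α (k + i * m)) +
        b1 * (pp * den α (k + i * m + m + 1) + qq * den α (k + i * m + 1)) = 0 := by
      have : ((b0 * qd k + b1 * qd (k + 1) : ℤ) : ℝ) = 0 := by rw [← hq, hq0]; simp
      push_cast at this
      rw [hqdR, hqdR] at this
      rw [show k + i * m + m + 1 = k + 1 + (i + 1) * m by ring,
        show k + i * m + 1 = k + 1 + i * m by ring, show k + i * m + m = k + (i + 1) * m by ring]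
      exact this
    have e2 : (b0 : ℝ) * (pp * num α (k + i * m + m) + qq * num α (k + i * m)) +
        b1 * (pp * num α (k + i * m + m + 1) + qq * num α (k + i * m + 1)) = 0 := by
      have : ((b0 * pd k + b1 * pd (k + 1) : ℤ) : ℝ) = 0 := by rw [← hp, hp0]; simp
      push_cast at this
      rw [hpdR, hpdR] at this
      rw [show k + i * m + m + 1 = k + 1 + (i + 1) * m by ring,
        show k + i * m + 1 = k + 1 + i * m by ring, show k + i * m + m = k + (i + 1) * m by ring]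
      exact this
    obtain ⟨hb0', hb1'⟩ := det_ne hper hT hT3 (by omega : k0 ≤ k + i * m) hpq e1 e2
    rcases hb with h | h
    · exact h hb0'
    · exact h hb1'
  refine ⟨q, p, r, hqne, hp4, ?_⟩
  have := fin_arith (x := |(q : ℝ)|) (y := |(q : ℝ) * α - p|) (z := |(q : ℝ) * β - r|)
    (u := (u : ℝ)) (P := 2 * τ3 * (den α (k + 1 + (i + 1) * m) : ℝ))
    (Y := 2 * τ3 * th α (k + i * m)) (E := 2 * CY) (B := (2 * A * c2 / δ) ^ 2 * ρ ^ m * ρ ^ L)
    (H := ρ ^ h) (W := 4 * τ3 ^ 2 * (c2 * ρ ^ (1 + m) / δ))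
    (abs_nonneg _) (abs_nonneg _) (abs_nonneg _) hu1R
    (mul_nonneg (by positivity) (hQ _)) (mul_nonneg (by positivity) (hth _).le)
    (by positivity) (by positivity) (pow_pos hρ0 h) (by positivity)
    hq_bd hp_bd2 hr_bd hW hu2
  rw [hτ3] at this
  exact this

end bad

end Pool.Agent.H95.LC
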