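import Pool.Agent.H18.LC.Periodic

/-!
# Reciprocal relations: factorisation and non-vanishing
-/

set_option autoImplicit false

namespace Pool.Agent.H95.LC

open Finset
open Pool.Agent.H1.PC
open Pool.Agent.H18.LC

/-- The possible pairs `(p, q)`. -/
def PQ (T p q : ℤ) : Prop :=
  (p = 2 ∧ q = -T) ∨ (p = 0 ∧ q = 1) ∨ (p = 1 ∧ q = -1) ∨ (p = 1 ∧ q = 1)

lemma fac2 (T τ : ℤ) (hτ : τ = 1 ∨ τ = -1) (r : ℕ) (hr : r = 0 ∨ r = 1) :
    ∃ p q : ℤ, PQ T p q ∧ ∀ i : ℕ, ∃ U : ℤ, ∀ z : ℕ → ℝ,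
      (∀ k, z (k + 2) = T * z (k + 1) - z k) →
        z (r + 2 * i) - τ * z 0 = U * (p * z (i + 1) + q * z i) := by
  rcases hr with rfl | rfl
  · rcases hτ with rfl | rfl
    · exact ⟨2, -T, Or.inl ⟨rfl, rfl⟩, fac_aux T 1 0 2 (-T) ⟨0, fun z hz => by simp⟩
        ⟨1, fun z hz => by
          have := hz 0
          simp only [Nat.zero_add] at this ⊢
          push_cast
          linear_combination (-1 : ℝ) * this⟩⟩
    · exact ⟨0, 1, Or.inr (Or.inl ⟨rfl, rfl⟩), fac_aux T (-1) 0 0 1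
        ⟨2, fun z hz => by push_cast; ring⟩ ⟨T, fun z hz => by
          have := hz 0
          simp only [Nat.zero_add] at this ⊢
          push_cast
          linear_combination this⟩⟩
  · rcases hτ with rfl | rfl
    · exact ⟨1, -1, Or.inr (Or.inr (Or.inl ⟨rfl, rfl⟩)), fac_aux T 1 1 1 (-1)
        ⟨1, fun z hz => by push_cast; ring⟩
        ⟨T + 1, fun z hz => by
          have h0 := hz 0
          have h1 := hz 1
          simp only [Nat.zero_add, Nat.reduceAdd] at h0 h1 ⊢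
          push_cast
          linear_combination h1 - h0⟩⟩
    · exact ⟨1, 1, Or.inr (Or.inr (Or.inr ⟨rfl, rfl⟩)), fac_aux T (-1) 1 1 1
        ⟨1, fun z hz => by push_cast; ring⟩
        ⟨T - 1, fun z hz => by
          have h0 := hz 0
          have h1 := hz 1
          simp only [Nat.zero_add, Nat.reduceAdd] at h0 h1 ⊢
          push_cast
          linear_combination h1 + h0⟩⟩

lemma fac_rel (T σ : ℤ) (hσ : σ = 1 ∨ σ = -1) (J : ℕ) (a : ℕ → ℤ)
    (ha : ∀ t ≤ J, a (J - t) = σ * a t) :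
    ∃ p q U : ℤ, PQ T p q ∧ ∀ z : ℕ → ℝ, (∀ k, z (k + 2) = T * z (k + 1) - z k) →
      2 * ∑ t ∈ range (J + 1), (a t : ℝ) * z t = U * (p * z (J / 2 + 1) + q * z (J / 2)) := by
  have hσσ : (σ : ℝ) * σ = 1 := by rcases hσ with rfl | rfl <;> norm_num
  obtain ⟨p, q, hpq, hU⟩ := fac2 T (-σ) (by rcases hσ with rfl | rfl <;> simp) (J % 2) (by omega)
  have hlow : ∀ t, 2 * t ≤ J → ∃ U : ℤ, ∀ z : ℕ → ℝ,
      (∀ k, z (k + 2) = T * z (k + 1) - z k) →
      z (J - t) + σ * z t = U * (p * z (J / 2 + 1) + q * z (J / 2)) := by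
    intro t ht
    obtain ⟨U, hU⟩ := hU (J / 2 - t)
    refine ⟨U, fun z hz => ?_⟩
    have h1 := hU (fun k => z (t + k)) (fun k => hz (t + k))
    simp only [Nat.add_zero] at h1
    rw [show t + (J % 2 + 2 * (J / 2 - t)) = J - t by omega,
      show t + (J / 2 - t + 1) = J / 2 + 1 by omega,
      show t + (J / 2 - t) = J / 2 by omega] at h1
    push_cast at h1
    linarith
  have hloc : ∀ t, t ≤ J → ∃ U : ℤ, ∀ z : ℕ → ℝ,
      (∀ k, z (k + 2) = T * z (k + 1) - z k) →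
      z (J - t) + σ * z t = U * (p * z (J / 2 + 1) + q * z (J / 2)) := by
    intro t ht
    rcases Nat.le_total (2 * t) J with h | h
    · exact hlow t h
    · obtain ⟨U, hU⟩ := hlow (J - t) (by omega)
      refine ⟨σ * U, fun z hz => ?_⟩
      have h1 := hU z hz
      rw [show J - (J - t) = t by omega] at h1
      push_cast
      linear_combination (σ : ℝ) * h1 - z (J - t) * hσσ
  choose! Uf hUf using hloc
  refine ⟨p, q, ∑ t ∈ range (J + 1), σ * a t * Uf t, hpq, fun z hz => ?_⟩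
  have h1 : ∑ t ∈ range (J + 1), (a t : ℝ) * z t =
      ∑ t ∈ range (J + 1), (σ * a t : ℝ) * z (J - t) := by
    rw [← Finset.sum_range_reflect]
    apply Finset.sum_congr rfl
    intro t ht
    have ht' : t ≤ J := by have := Finset.mem_range.1 ht; omega
    rw [show J + 1 - 1 - t = J - t by omega, ha t ht']
    push_cast
    ring
  have h2 : 2 * ∑ t ∈ range (J + 1), (a t : ℝ) * z t =
      ∑ t ∈ range (J + 1), ((σ * a t : ℝ) * (z (J - t) + σ * z t)) := by
    rw [two_mul]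
    nth_rewrite 2 [h1]
    rw [← Finset.sum_add_distrib]
    apply Finset.sum_congr rfl
    intro t _
    linear_combination (-(a t : ℝ) * z t) * hσσ
  rw [h2]
  push_cast
  rw [Finset.sum_mul]
  apply Finset.sum_congr rfl
  intro t ht
  have ht' : t ≤ J := by have := Finset.mem_range.1 ht; omega
  rw [hUf t ht' z hz]
  ring

lemma pq_bounds {T p q : ℤ} (h : PQ T p q) : |p| ≤ 2 ∧ |q| ≤ |T| + 1 := by
  have hT := abs_nonneg T
  rcases h with ⟨rfl, rfl⟩ | ⟨rfl, rfl⟩ | ⟨rfl, rfl⟩ | ⟨rfl, rfl⟩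
  · exact ⟨by norm_num, by rw [abs_neg]; omega⟩
  · exact ⟨by norm_num, by rw [abs_one]; omega⟩
  · exact ⟨by norm_num, by rw [abs_neg, abs_one]; omega⟩
  · exact ⟨by norm_num, by rw [abs_one]; omega⟩

/-- independence of denominators and numerators -/
lemma indep {α : ℝ} {x : ℕ} {u v : ℝ} (h1 : u * den α x + v * den α (x + 1) = 0)
    (h2 : u * num α x + v * num α (x + 1) = 0) : u = 0 ∧ v = 0 := by
  have hd := det (α := α) x
  unfold th at hd
  constructor
  · linear_combination (-u) * hd + (α * (den α (x + 1) : ℝ)) * 0 +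
      (den α (x + 1) : ℝ) * h2 - (num α (x + 1) : ℝ) * h1
  · linear_combination (-v) * hd + (num α x : ℝ) * h1 - (den α x : ℝ) * h2

/-- the transfer over a period and its trace -/
lemma transfer_trace {α : ℝ} {k0 m x : ℕ} (hper : ∀ k, k0 ≤ k → pq α (k + m) = pq α k) {T : ℤ}
    (hT : ∀ y : ℕ → ℝ, IsSol α k0 y → ∀ k, k0 ≤ k → y (k + 2 * m) = T * y (k + m) - y k)
    (hx : k0 ≤ x) :
    ∃ A B C D : ℤ, A * D - B * C = 1 ∧ A + D = T ∧
      ∀ y : ℕ → ℝ, IsSol α x y →
      y (x + m) = A * y x + B * y (x + 1) ∧ y (x + m + 1) = C * y x + D * y (x + 1) := by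
  obtain ⟨A, B, C, D, hdet, h⟩ := transfer α x m
  refine ⟨A, B, C, D, hdet, ?_, h⟩
  have hdetR : (A : ℝ) * D - B * C = 1 := by exact_mod_cast hdet
  have key : ∀ y : ℕ → ℝ, IsSol α k0 y →
      ((A : ℝ) * (A + D - T)) * y x + ((B : ℝ) * (A + D - T)) * y (x + 1) = 0 := by
    intro y hy
    have hyx : IsSol α x y := fun j hj => hy j (by omega)
    have hy' : IsSol α x (fun j => y (j + m)) := by
      intro j hj
      have h1 := hy (j + m) (by omega)
      have h2 := hper (j + 1) (by omega)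
      have e1 : j + 2 + m = j + m + 2 := by ring
      have e2 : j + 1 + m = j + m + 1 := by ring
      simp only [e1, e2]
      rw [h1, ← h2, e2]
    obtain ⟨a1, a2⟩ := h y hyx
    obtain ⟨b1, -⟩ := h _ hy'
    have b2 := hT y hy x hx
    rw [show x + m + m = x + 2 * m by ring, show x + 1 + m = x + m + 1 by ring] at b1
    rw [b1, a1, a2] at b2
    linear_combination b2 + (y x) * hdetR
  have k1 := key _ (den_sol (α := α) k0)
  have k2 := key _ (num_sol (α := α) k0)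
  obtain ⟨e1, e2⟩ := indep k1 k2
  by_contra hne
  have hne' : (A : ℝ) + D - T ≠ 0 := by
    intro h0
    apply hne
    have : ((A + D : ℤ) : ℝ) = T := by push_cast; linarith
    exact_mod_cast this
  have hA : (A : ℝ) = 0 := (mul_eq_zero.1 e1).resolve_right hne'
  have hB : (B : ℝ) = 0 := (mul_eq_zero.1 e2).resolve_right hne'
  rw [hA, hB] at hdetR
  norm_num at hdetR

lemma det_ne {α : ℝ} {k0 m x : ℕ} (hper : ∀ k, k0 ≤ k → pq α (k + m) = pq α k) {T : ℤ}
    (hT : ∀ y : ℕ → ℝ, IsSol α k0 y → ∀ k, k0 ≤ k → y (k + 2 * m) = T * y (k + m) - y k)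
    (hT3 : 3 ≤ T) (hx : k0 ≤ x) {p q b0 b1 : ℤ} (hpq : PQ T p q)
    (h1 : (b0 : ℝ) * (p * den α (x + m) + q * den α x) +
      b1 * (p * den α (x + m + 1) + q * den α (x + 1)) = 0)
    (h2 : (b0 : ℝ) * (p * num α (x + m) + q * num α x) +
      b1 * (p * num α (x + m + 1) + q * num α (x + 1)) = 0) : b0 = 0 ∧ b1 = 0 := by
  obtain ⟨A, B, C, D, hdet, htr, h⟩ := transfer_trace hper hT hx
  have s1 : IsSol α x (fun k => (den α k : ℝ)) := den_sol x
  have s2 : IsSol α x (fun k => (num α k : ℝ)) := num_sol x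
  obtain ⟨a1, a2⟩ := h _ s1
  obtain ⟨c1, c2⟩ := h _ s2
  rw [a1, a2] at h1
  rw [c1, c2] at h2
  have g1 : ((b0 * (p * A + q) + b1 * p * C : ℤ) : ℝ) * den α x +
      ((b0 * p * B + b1 * (p * D + q) : ℤ) : ℝ) * den α (x + 1) = 0 := by
    push_cast; linear_combination h1
  have g2 : ((b0 * (p * A + q) + b1 * p * C : ℤ) : ℝ) * num α x +
      ((b0 * p * B + b1 * (p * D + q) : ℤ) : ℝ) * num α (x + 1) = 0 := by
    push_cast; linear_combination h2
  obtain ⟨e1, e2⟩ := indep g1 g2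
  have e1' : b0 * (p * A + q) + b1 * p * C = 0 := by exact_mod_cast e1
  have e2' : b0 * p * B + b1 * (p * D + q) = 0 := by exact_mod_cast e2
  have n0 : b0 * (p ^ 2 + p * q * T + q ^ 2) = 0 := by
    linear_combination (p * D + q) * e1' - p * C * e2' - b0 * p * q * htr - b0 * p ^ 2 * hdet
  have n1 : b1 * (p ^ 2 + p * q * T + q ^ 2) = 0 := by
    linear_combination (p * A + q) * e2' - p * B * e1' - b1 * p * q * htr - b1 * p ^ 2 * hdet
  have hN : p ^ 2 + p * q * T + q ^ 2 ≠ 0 := by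
    rcases hpq with ⟨rfl, rfl⟩ | ⟨rfl, rfl⟩ | ⟨rfl, rfl⟩ | ⟨rfl, rfl⟩
    · intro h0; nlinarith
    · intro h0; nlinarith
    · intro h0; nlinarith
    · intro h0; nlinarith
  exact ⟨(mul_eq_zero.1 n0).resolve_right hN, (mul_eq_zero.1 n1).resolve_right hN⟩

end Pool.Agent.H95.LC
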