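import Pool.Agent.H95.LC.PolyCase
import Pool.Agent.H95.LC.Boost

/-!
# Reciprocal relations of arbitrary height, quadratic case
-/

set_option autoImplicit false

namespace Pool.Agent.H95.LC

open Finset
open Pool.Agent.H1.PC
open Pool.Agent.H18.LC

/-- `C (l+1)^2 ≤ 2^l + K`. -/
lemma sq_growth (D : ℕ) : ∃ K : ℕ, ∀ l : ℕ, D * (l + 1) ^ 2 ≤ 2 ^ l + K := by
  have h1 := tendsto_pow_const_div_const_pow_of_one_lt 2 (one_lt_two : (1 : ℝ) < 2)
  have h2 : ∀ᶠ n : ℕ in Filter.atTop, (n : ℝ) ^ 2 / 2 ^ n < 1 / (2 * (D + 1)) :=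
    h1.eventually_lt_const (by positivity)
  obtain ⟨l0, hl0⟩ := Filter.eventually_atTop.1 h2
  refine ⟨D * (l0 + 1) ^ 2, fun l => ?_⟩
  rcases Nat.lt_or_ge l l0 with h | h
  · have : D * (l + 1) ^ 2 ≤ D * (l0 + 1) ^ 2 :=
      Nat.mul_le_mul_left _ (Nat.pow_le_pow_left (by omega) 2)
    exact this.trans (Nat.le_add_left _ _)
  · have h3 := hl0 (l + 1) (by omega)
    rw [div_lt_div_iff₀ (by positivity) (by positivity)] at h3
    have h4 : (D : ℝ) * ((l : ℝ) + 1) ^ 2 ≤ 2 ^ l := by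
      push_cast at h3
      rw [pow_succ (2 : ℝ) l] at h3
      have h5 : (0 : ℝ) ≤ ((l : ℝ) + 1) ^ 2 := by positivity
      nlinarith
    have h5 : D * (l + 1) ^ 2 ≤ 2 ^ l := by exact_mod_cast h4
    omega

/-- The height-free form. -/
lemma poly_free {e : ℕ → ℤ} {F : ℕ} (hF : ∀ k, |e k| ≤ F) {k1 m : ℕ} (hm : 1 ≤ m)
    {K2 : ℕ} (hK2 : ∀ (μ n w J : ℕ) (A : Polynomial ℤ) (σ : ℤ), (σ = 1 ∨ σ = -1) →
      k1 ≤ n → A.natDegree ≤ J → l1 A ≤ 2 ^ μ → A.reflect J = Polynomial.C σ * A → A ≠ 0 →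
      (∀ i < w, op m A e (n + i) = 0) → 2 * w < J * m + K2 * (μ + 1) ^ 2) (s : ℕ) (hs : 1 ≤ s) :
    ∃ K : ℕ, ∀ (n w J : ℕ) (A : Polynomial ℤ) (σ : ℤ), (σ = 1 ∨ σ = -1) →
      k1 ≤ n → A.natDegree ≤ J → A.reflect J = Polynomial.C σ * A → A ≠ 0 →
      (∀ i < w, op m A e (n + i) = 0) → s * (2 * w) < (s + 1) * (J * m) + K := by
  set D : ℕ := K2 * (8 * s + 4) ^ 2 with hD
  obtain ⟨K', hK'⟩ := sq_growth (4 * s * D * (6 * (F + 2)))
  refine ⟨24 * s * m + 1 + K' + 1, fun n w J A σ hσ hn hJ hrcp hA hrel => ?_⟩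
  set q := J / (8 * s) with hq
  set k := q + 1 with hk
  set N := J + 2 * k + 1 with hN
  have hqJ : 8 * s * q ≤ J := Nat.mul_div_le J (8 * s)
  have hJk : J < 8 * s * k := by
    rw [hk]
    exact Nat.lt_mul_div_succ J (by omega)
  obtain ⟨B, hB0, hBd, hBr, hBrel, hBl⟩ := boost hF hσ hA hJ hrcp hrel k
  -- the height of `B`
  set l := Nat.log 2 (N * (F + 2)) + 1 with hl
  have hl1 : N * (F + 2) < 2 ^ l := Nat.lt_pow_succ_log_self (by norm_num) _
  have hl2 : 2 ^ l ≤ 2 * (N * (F + 2)) := by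
    rw [hl, pow_succ, mul_comm]
    apply Nat.mul_le_mul_left
    apply Nat.pow_log_le_self
    have : 1 ≤ N * (F + 2) := Nat.mul_pos (by omega) (by omega)
    omega
  have hbase : (1 : ℝ) ≤ ((N : ℕ) : ℝ) * ((F + 2 : ℕ) : ℝ) := by
    have : 1 ≤ N * (F + 2) := Nat.mul_pos (by omega) (by omega)
    exact_mod_cast this
  have hexp : ((N : ℕ) : ℝ) / ((k + 1 : ℕ) : ℝ) ≤ ((8 * s + 2 : ℕ) : ℝ) := by
    rw [div_le_iff₀ (by positivity)]
    have h1 : N ≤ (8 * s + 2) * (k + 1) := by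
      have : (8 * s + 2) * (k + 1) = 8 * s * k + 2 * k + 8 * s + 2 := by ring
      omega
    exact_mod_cast h1
  have hBl2 : ((l1 B : ℤ) : ℝ) ≤ (((N * (F + 2)) ^ (8 * s + 3) : ℕ) : ℝ) := by
    refine hBl.trans ?_
    have h1 : (((N : ℕ) : ℝ) * ((F + 2 : ℕ) : ℝ)) ^ (((N : ℕ) : ℝ) / ((k + 1 : ℕ) : ℝ)) ≤
        (((N : ℕ) : ℝ) * ((F + 2 : ℕ) : ℝ)) ^ (8 * s + 2) := by
      rw [← Real.rpow_natCast]
      exact Real.rpow_le_rpow_of_exponent_le hbase hexp
    have h2 : ((N : ℕ) : ℝ) ≤ ((N : ℕ) : ℝ) * ((F + 2 : ℕ) : ℝ) := by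
      have h3 : (1 : ℝ) ≤ ((F + 2 : ℕ) : ℝ) := by exact_mod_cast (by omega : 1 ≤ F + 2)
      have h4 : (0 : ℝ) ≤ ((N : ℕ) : ℝ) := by positivity
      nlinarith
    calc ((N : ℕ) : ℝ) * (((N : ℕ) : ℝ) * ((F + 2 : ℕ) : ℝ)) ^
          (((N : ℕ) : ℝ) / ((k + 1 : ℕ) : ℝ))
        ≤ (((N : ℕ) : ℝ) * ((F + 2 : ℕ) : ℝ)) *
          (((N : ℕ) : ℝ) * ((F + 2 : ℕ) : ℝ)) ^ (8 * s + 2) :=
          mul_le_mul h2 h1 (by positivity) (by positivity)
      _ = _ := by push_cast; ring
  have hBl3 : l1 B ≤ 2 ^ (l * (8 * s + 3)) := by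
    have h1 : l1 B ≤ (((N * (F + 2)) ^ (8 * s + 3) : ℕ) : ℤ) := by exact_mod_cast hBl2
    have h2 : (N * (F + 2)) ^ (8 * s + 3) ≤ (2 ^ l) ^ (8 * s + 3) :=
      Nat.pow_le_pow_left hl1.le _
    rw [← pow_mul] at h2
    have h3 : (((N * (F + 2)) ^ (8 * s + 3) : ℕ) : ℤ) ≤ ((2 ^ (l * (8 * s + 3)) : ℕ) : ℤ) := by
      exact_mod_cast h2
    push_cast at h1 h3 ⊢
    exact h1.trans h3
  have hfin := hK2 (l * (8 * s + 3)) n _ (J + 2 * k) B σ hσ hn hBd hBl3 hBr hB0 hBrel
  set E := K2 * (l * (8 * s + 3) + 1) ^ 2 with hE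
  -- bound of `E`
  have hE2 : 4 * s * E ≤ J + 1 + K' := by
    have h1 : (l * (8 * s + 3) + 1) ^ 2 ≤ ((8 * s + 4) * (l + 1)) ^ 2 := by
      apply Nat.pow_le_pow_left
      have : (8 * s + 4) * (l + 1) = l * (8 * s + 3) + l + 8 * s + 4 := by ring
      omega
    have h2 : 4 * s * E ≤ 4 * s * D * (l + 1) ^ 2 := by
      calc 4 * s * E ≤ 4 * s * (K2 * ((8 * s + 4) * (l + 1)) ^ 2) :=
            Nat.mul_le_mul_left _ (Nat.mul_le_mul_left _ h1)
        _ = 4 * s * D * (l + 1) ^ 2 := by rw [hD]; ring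
    have h3 : 2 ^ l ≤ 6 * (F + 2) * (J + 1) := by
      have h4 : N ≤ 3 * (J + 1) := by
        have : q ≤ J := Nat.div_le_self _ _
        omega
      calc 2 ^ l ≤ 2 * (N * (F + 2)) := hl2
        _ ≤ 2 * (3 * (J + 1) * (F + 2)) := Nat.mul_le_mul_left _ (Nat.mul_le_mul_right _ h4)
        _ = _ := by ring
    have h5 := hK' l
    have h6 : (6 * (F + 2)) * (4 * s * E) ≤ (6 * (F + 2)) * (J + 1 + K') := by
      calc (6 * (F + 2)) * (4 * s * E) ≤ (6 * (F + 2)) * (4 * s * D * (l + 1) ^ 2) :=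
            Nat.mul_le_mul_left _ h2
        _ = 4 * s * D * (6 * (F + 2)) * (l + 1) ^ 2 := by ring
        _ ≤ 2 ^ l + K' := h5
        _ ≤ 6 * (F + 2) * (J + 1) + K' := by omega
        _ ≤ 6 * (F + 2) * (J + 1) + 6 * (F + 2) * K' := by
            apply Nat.add_le_add_left
            exact Nat.le_mul_of_pos_left _ (by omega)
        _ = _ := by ring
    exact Nat.le_of_mul_le_mul_left h6 (by omega)
  -- the final arithmetic
  have e1 : (J + 2 * k) * m = J * m + 2 * (k * m) := by ring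
  have e2 : 2 * k * m = 2 * (k * m) := by ring
  rw [e1, e2] at hfin
  have h7 : 2 * w + 1 ≤ J * m + 6 * (k * m) + E := by omega
  have h8 : s * (2 * w + 1) ≤ s * (J * m + 6 * (k * m) + E) := Nat.mul_le_mul_left _ h7
  have h9 : 8 * s * q * m ≤ J * m := Nat.mul_le_mul_right m hqJ
  have h10 : J ≤ J * m := Nat.le_mul_of_pos_right _ (by omega)
  have e3 : s * (J * m + 6 * (k * m) + E) = s * (J * m) + 6 * (s * q * m) + 6 * (s * m) + s * E := by
    rw [hk]; ring
  have e4 : s * (2 * w + 1) = s * (2 * w) + s := by ring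
  have e5 : 8 * s * q * m = 8 * (s * q * m) := by ring
  have e6 : 4 * s * E = 4 * (s * E) := by ring
  have e7 : (s + 1) * (J * m) = s * (J * m) + J * m := by ring
  have e8 : 24 * s * m = 24 * (s * m) := by ring
  rw [e3, e4] at h8
  rw [e5] at h9
  rw [e6] at hE2
  rw [e7, e8]
  omega

/-- All non-zero relations, reciprocal or not. -/
lemma poly_free_gen {e : ℕ → ℤ} {k1 m : ℕ} {s K : ℕ}
    (hK : ∀ (n w J : ℕ) (A : Polynomial ℤ) (σ : ℤ), (σ = 1 ∨ σ = -1) →
      k1 ≤ n → A.natDegree ≤ J → A.reflect J = Polynomial.C σ * A → A ≠ 0 →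
      (∀ i < w, op m A e (n + i) = 0) → s * (2 * w) < (s + 1) * (J * m) + K)
    (n w J : ℕ) (A : Polynomial ℤ) (hn : k1 ≤ n) (hJ : A.natDegree ≤ J) (hA : A ≠ 0)
    (hrel : ∀ i < w, op m A e (n + i) = 0) : s * w < (2 * s + 1) * (J * m) + K := by
  have hA' : A.reflect J ≠ 0 := by
    rw [Ne, Polynomial.reflect_eq_zero_iff]; exact hA
  have hd : (A.reflect J).natDegree ≤ J := by
    rw [Polynomial.natDegree_le_iff_coeff_eq_zero]
    intro N hN
    rw [Polynomial.coeff_reflect]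
    have : Polynomial.revAt J N = N := by simp [Polynomial.revAt, Nat.not_le.2 hN]
    rw [this]
    exact Polynomial.coeff_eq_zero_of_natDegree_lt (by omega)
  have h1 := hK n (w - J * m) (J + J) (A.reflect J * A) 1 (Or.inl rfl) hn
    (Polynomial.natDegree_mul_le.trans (by omega))
    (by rw [Polynomial.reflect_mul _ _ hd hJ, Polynomial.reflect_reflect]; simp; ring)
    (mul_ne_zero hA' hA) (fun i hi => by
      rw [op_mul, op_apply hd]
      apply Finset.sum_eq_zero
      intro t ht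
      have ht' : t ≤ J := by have := Finset.mem_range.1 ht; omega
      have h2 : t * m ≤ J * m := Nat.mul_le_mul_right m ht'
      rw [show n + i + t * m = n + (i + t * m) by ring, hrel (i + t * m) (by omega), smul_zero])
  have h2 : s * (2 * w) ≤ s * (2 * (w - J * m)) + s * (2 * (J * m)) := by
    rw [← Nat.mul_add]
    apply Nat.mul_le_mul_left
    omega
  have e1 : s * (2 * w) = 2 * (s * w) := by ring
  have e2 : (s + 1) * ((J + J) * m) = 2 * (s * (J * m)) + 2 * (J * m) := by ring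
  have e3 : s * (2 * (J * m)) = 2 * (s * (J * m)) := by ring
  have e4 : (2 * s + 1) * (J * m) = 2 * (s * (J * m)) + J * m := by ring
  rw [e2] at h1
  rw [e1, e3] at h2
  rw [e4]
  omega

/-- From coefficient functions to polynomials, without reciprocity. -/
lemma to_poly_gen {e : ℕ → ℤ} {m n w L : ℕ} (hm : 1 ≤ m) {a : ℕ → ℤ}
    (hdiv : ∀ j ≤ L, a j ≠ 0 → m ∣ j) (hne : ∃ j ≤ L, a j ≠ 0)
    (hdig : ∀ i < w, ∑ j ∈ range (L + 1), a j * e (n + i + j) = 0) :
    ∃ (J : ℕ) (A : Polynomial ℤ), J * m ≤ L ∧ A ≠ 0 ∧ A.natDegree ≤ J ∧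
      ∀ i < w, op m A e (n + i) = 0 := by
  set J := L / m with hJ
  have hJL : J * m ≤ L := Nat.div_mul_le_self L m
  set A : Polynomial ℤ := ∑ t ∈ range (J + 1), Polynomial.monomial t (a (t * m)) with hA
  have hAc : ∀ t ≤ J, A.coeff t = a (t * m) := by
    intro t ht
    rw [hA, Polynomial.finsetSum_coeff, Finset.sum_eq_single t]
    · rw [Polynomial.coeff_monomial, if_pos rfl]
    · intro s _ hs
      rw [Polynomial.coeff_monomial, if_neg hs]
    · intro h; exact absurd (Finset.mem_range.2 (by omega)) h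
  have hAd : A.natDegree ≤ J := by
    rw [hA]
    apply Polynomial.natDegree_sum_le_of_forall_le
    intro t ht
    have := Finset.mem_range.1 ht
    exact (Polynomial.natDegree_monomial_le _).trans (by omega)
  refine ⟨J, A, hJL, ?_, hAd, ?_⟩
  · intro h0
    obtain ⟨j, hj, ha⟩ := hne
    obtain ⟨t, rfl⟩ := hdiv j hj ha
    have ht : t ≤ J := by
      rw [hJ, Nat.le_div_iff_mul_le (by omega), mul_comm]
      exact hj
    have h1 := hAc t ht
    rw [h0, Polynomial.coeff_zero, mul_comm] at h1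
    exact ha h1.symm
  · intro i hi
    have h1 := hdig i hi
    have h2 : ∑ j ∈ range (L + 1), a j * e (n + i + j) =
        ∑ j ∈ range (J * m + 1), a j * e (n + i + j) := by
      symm
      apply Finset.sum_subset
      · intro j hj
        have := Finset.mem_range.1 hj
        exact Finset.mem_range.2 (by omega)
      · intro j hj hj'
        have hjL : j ≤ L := by have := Finset.mem_range.1 hj; omega
        have hjJ : J * m < j := by
          by_contra h
          exact hj' (Finset.mem_range.2 (by omega))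
        by_cases h0 : a j = 0
        · rw [h0, zero_mul]
        · exfalso
          obtain ⟨t, rfl⟩ := hdiv j hjL h0
          have ht : t ≤ J := by
            rw [hJ, Nat.le_div_iff_mul_le (by omega), mul_comm]
            exact hjL
          have := Nat.mul_le_mul_left m ht
          rw [mul_comm m J] at this
          omega
    rw [h2, sum_mult hm (fun j hj h => by
      have : a j = 0 := by
        by_contra h0
        exact h (hdiv j (by omega) h0)
      rw [this, zero_mul])] at h1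
    rw [op_apply hAd, ← h1]
    apply Finset.sum_congr rfl
    intro t ht
    rw [hAc t (by have := Finset.mem_range.1 ht; omega), smul_eq_mul]

/-- From coefficient functions to polynomials. -/
lemma to_poly {e : ℕ → ℤ} {m n w L : ℕ} (hm : 1 ≤ m) {a : ℕ → ℤ} {σ : ℤ}
    (hσ : σ = 1 ∨ σ = -1) (hdiv : ∀ j ≤ L, a j ≠ 0 → m ∣ j)
    (hrcp : ∀ j ≤ L, a (L - j) = σ * a j) (hne : ∃ j ≤ L, a j ≠ 0)
    (hdig : ∀ i < w, ∑ j ∈ range (L + 1), a j * e (n + i + j) = 0) :
    ∃ (J : ℕ) (A : Polynomial ℤ), L = J * m ∧ A ≠ 0 ∧ A.natDegree ≤ J ∧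
      l1 A = ∑ j ∈ range (L + 1), |a j| ∧ A.reflect J = Polynomial.C σ * A ∧
      ∀ i < w, op m A e (n + i) = 0 := by
  have hmL : m ∣ L := by
    obtain ⟨j, hj, ha⟩ := hne
    have h1 := hdiv j hj ha
    have ha' : a (L - j) ≠ 0 := by
      rw [hrcp j hj]
      rcases hσ with rfl | rfl
      · simpa using ha
      · simpa using ha
    have h2 := hdiv (L - j) (by omega) ha'
    have h3 := Nat.dvd_add h1 h2
    rwa [show j + (L - j) = L by omega] at h3
  obtain ⟨J, hJ⟩ := hmL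
  rw [mul_comm] at hJ
  subst hJ
  set A : Polynomial ℤ := ∑ t ∈ range (J + 1), Polynomial.monomial t (a (t * m)) with hA
  have hAc : ∀ t ≤ J, A.coeff t = a (t * m) := by
    intro t ht
    rw [hA, Polynomial.finsetSum_coeff, Finset.sum_eq_single t]
    · rw [Polynomial.coeff_monomial, if_pos rfl]
    · intro s _ hs
      rw [Polynomial.coeff_monomial, if_neg hs]
    · intro h; exact absurd (Finset.mem_range.2 (by omega)) h
  have hAd : A.natDegree ≤ J := by
    rw [hA]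
    apply Polynomial.natDegree_sum_le_of_forall_le
    intro t ht
    have := Finset.mem_range.1 ht
    exact (Polynomial.natDegree_monomial_le _).trans (by omega)
  have hz : ∀ j ≤ J * m, ¬ m ∣ j → a j = 0 := by
    intro j hj h
    by_contra h0
    exact h (hdiv j hj h0)
  refine ⟨J, A, rfl, ?_, hAd, ?_, ?_, ?_⟩
  · intro h0
    obtain ⟨j, hj, ha⟩ := hne
    obtain ⟨t, rfl⟩ := hdiv j hj ha
    have ht : t ≤ J := by
      have : m * t ≤ m * J := by rw [mul_comm m J]; exact hj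
      exact Nat.le_of_mul_le_mul_left this (by omega)
    have h1 := hAc t ht
    rw [h0, Polynomial.coeff_zero, mul_comm] at h1
    exact ha h1.symm
  · rw [l1_eq (show A.natDegree < J + 1 by omega),
      sum_mult hm (fun j hj h => by rw [hz j hj h, abs_zero])]
    apply Finset.sum_congr rfl
    intro t ht
    rw [hAc t (by have := Finset.mem_range.1 ht; omega)]
  · ext t
    rw [Polynomial.coeff_reflect, Polynomial.coeff_C_mul]
    rcases Nat.lt_or_ge J t with ht | ht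
    · have : Polynomial.revAt J t = t := by simp [Polynomial.revAt, Nat.not_le.2 ht]
      rw [this, Polynomial.coeff_eq_zero_of_natDegree_lt (by omega), mul_zero]
    · rw [Polynomial.revAt_le ht, hAc _ (by omega), hAc _ ht]
      have := hrcp (t * m) (Nat.mul_le_mul_right m ht)
      rwa [← Nat.sub_mul] at this
  · intro i hi
    rw [op_apply hAd]
    have h1 := hdig i hi
    rw [sum_mult hm (fun j hj h => by rw [hz j hj h, zero_mul])] at h1
    rw [← h1]
    apply Finset.sum_congr rfl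
    intro t ht
    rw [hAc t (by have := Finset.mem_range.1 ht; omega), smul_eq_mul]

end Pool.Agent.H95.LC
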