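import Pool.Agent.H95.LC.Op

/-!
# The multiplicity of `X^2 - T X + 1` is at most the logarithm of the height
-/

set_option autoImplicit false

namespace Pool.Agent.H95.LC

open Polynomial Finset

/-- the map to the complex polynomials -/
noncomputable def toC (A : ℤ[X]) : ℂ[X] := A.map (Int.castRingHom ℂ)

lemma toC_mul (A B : ℤ[X]) : toC (A * B) = toC A * toC B := by simp [toC]

lemma toC_pow (A : ℤ[X]) (n : ℕ) : toC (A ^ n) = toC A ^ n := by simp [toC]

lemma mahler_le (A : ℤ[X]) : (toC A).mahlerMeasure ≤ l1 A := by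
  refine (mahlerMeasure_le_sum_norm_coeff _).trans (le_of_eq ?_)
  rw [sum_over_range _ (fun n => norm_zero)]
  unfold toC
  rw [natDegree_map_eq_of_injective (RingHom.injective_int (Int.castRingHom ℂ))]
  unfold l1
  push_cast
  apply Finset.sum_congr rfl
  intro t _
  rw [coeff_map]
  simp

lemma one_le_mahler {A : ℤ[X]} (hA : A ≠ 0) : 1 ≤ (toC A).mahlerMeasure := by
  apply one_le_mahlerMeasure_of_one_le_norm_leadingCoeff
  unfold toC
  rw [leadingCoeff_map_of_injective (RingHom.injective_int (Int.castRingHom ℂ))]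
  simp only [eq_intCast, Complex.norm_intCast]
  have : (1 : ℤ) ≤ |A.leadingCoeff| := Int.one_le_abs (leadingCoeff_ne_zero.2 hA)
  exact_mod_cast this

lemma mahler_G {T : ℤ} (hT : 3 ≤ T) : 2 ≤ (toC (G T)).mahlerMeasure := by
  have hT3 : (3 : ℝ) ≤ T := by exact_mod_cast hT
  set s := Real.sqrt ((T : ℝ) ^ 2 - 4) with hs
  have hs2 : s ^ 2 = (T : ℝ) ^ 2 - 4 := Real.sq_sqrt (by nlinarith)
  have hs0 : 0 ≤ s := Real.sqrt_nonneg _
  have hs1 : 1 ≤ s := by nlinarith
  set x : ℝ := ((T : ℝ) + s) / 2 with hx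
  set y : ℝ := ((T : ℝ) - s) / 2 with hy
  have hsum : x + y = T := by rw [hx, hy]; ring
  have hprod : x * y = 1 := by rw [hx, hy]; nlinarith
  have hx2 : 2 ≤ x := by rw [hx]; linarith
  have hfac : toC (G T) = (X - C (x : ℂ)) * (X - C (y : ℂ)) := by
    have e1 : (x : ℂ) + y = T := by exact_mod_cast hsum
    have e2 : (x : ℂ) * y = 1 := by exact_mod_cast hprod
    have e3 : (X - C (x : ℂ)) * (X - C (y : ℂ)) = X ^ 2 - C ((x : ℂ) + y) * X + C ((x : ℂ) * y) := by
      rw [C_add, C_mul]; ring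
    rw [e3, e1, e2]
    unfold toC G
    simp
  rw [hfac, mahlerMeasure_mul, mahlerMeasure_X_sub_C, mahlerMeasure_X_sub_C]
  have h1 : (2 : ℝ) ≤ max 1 ‖(x : ℂ)‖ := by
    refine le_trans ?_ (le_max_right _ _)
    rw [Complex.norm_real, Real.norm_eq_abs]
    exact hx2.trans (le_abs_self x)
  have h2 : (1 : ℝ) ≤ max 1 ‖(y : ℂ)‖ := le_max_left _ _
  nlinarith

/-- The multiplicity of `X^2 - T X + 1` in a polynomial of height `A` is at most `log_2 A`. -/
lemma two_pow_le {T : ℤ} (hT : 3 ≤ T) (μ : ℕ) {B : ℤ[X]} (hB : B ≠ 0) :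
    (2 : ℤ) ^ μ ≤ l1 (G T ^ μ * B) := by
  have h1 : (2 : ℝ) ^ μ ≤ (toC (G T ^ μ * B)).mahlerMeasure := by
    rw [toC_mul, toC_pow, mahlerMeasure_mul]
    have h2 : (toC (G T) ^ μ).mahlerMeasure = (toC (G T)).mahlerMeasure ^ μ := by
      induction μ with
      | zero => simp
      | succ μ ih => rw [pow_succ, mahlerMeasure_mul, ih, pow_succ]
    rw [h2]
    have h3 : (2 : ℝ) ^ μ ≤ (toC (G T)).mahlerMeasure ^ μ :=
      pow_le_pow_left₀ (by norm_num) (mahler_G hT) μ
    have h4 := one_le_mahler hB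
    have h5 : (0 : ℝ) < 2 ^ μ := by positivity
    nlinarith
  have := h1.trans (mahler_le _)
  exact_mod_cast this

lemma l1_div_pow {T : ℤ} (hT : 3 ≤ T) (B : ℤ[X]) (μ : ℕ) : l1 B ≤ l1 (G T ^ μ * B) := by
  induction μ with
  | zero => simp
  | succ μ ih =>
    refine ih.trans ?_
    rw [pow_succ', mul_assoc]
    exact l1_div hT _

lemma split_G (T : ℤ) {A : ℤ[X]} (hA : A ≠ 0) :
    ∃ (μ : ℕ) (B : ℤ[X]), A = G T ^ μ * B ∧ ¬ G T ∣ B := by
  have h1 : (0 : WithBot ℕ) < degree (G T) := by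
    rw [degree_eq_natDegree (G_monic T).ne_zero, G_natDegree]
    norm_num
  exact ⟨_, (finiteMultiplicity_of_degree_pos_of_monic h1 (G_monic T)
    hA).exists_eq_pow_mul_and_not_dvd⟩

lemma G_reflect (T : ℤ) : (G T).reflect 2 = G T := by
  ext i
  rw [coeff_reflect]
  rcases Nat.lt_or_ge 2 i with h | h
  · have : revAt 2 i = i := by
      simp [revAt, Nat.not_le.2 h]
    rw [this]
  · rw [revAt_le h]
    interval_cases i
    · rw [G_coeff0]; exact G_coeff2 T
    · rfl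
    · rw [G_coeff2]; exact G_coeff0 T

lemma G_pow_reflect (T : ℤ) (μ : ℕ) : (G T ^ μ).reflect (2 * μ) = G T ^ μ := by
  induction μ with
  | zero => simp [reflect_one]
  | succ μ ih =>
    have h1 : (G T ^ μ).natDegree ≤ 2 * μ := by
      rw [(G_monic T).natDegree_pow, G_natDegree]; omega
    rw [pow_succ, show 2 * (μ + 1) = 2 * μ + 2 by ring, reflect_mul _ _ h1 (by rw [G_natDegree]),
      ih, G_reflect]

/-- the cofactor of a reciprocal polynomial is reciprocal -/
lemma reflect_cofactor {T σ : ℤ} {μ J : ℕ} {B : ℤ[X]} (hB : (G T ^ μ * B).natDegree ≤ J)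
    (hB0 : B ≠ 0) (h : (G T ^ μ * B).reflect J = C σ * (G T ^ μ * B)) :
    2 * μ ≤ J ∧ B.natDegree ≤ J - 2 * μ ∧ B.reflect (J - 2 * μ) = C σ * B := by
  have hG0 : G T ^ μ ≠ 0 := pow_ne_zero _ (G_monic T).ne_zero
  have hdeg : (G T ^ μ * B).natDegree = 2 * μ + B.natDegree := by
    rw [natDegree_mul hG0 hB0, (G_monic T).natDegree_pow, G_natDegree]; ring
  rw [hdeg] at hB
  refine ⟨by omega, by omega, ?_⟩
  have h1 : (G T ^ μ).natDegree ≤ 2 * μ := by
    rw [(G_monic T).natDegree_pow, G_natDegree]; omega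
  have h2 : B.natDegree ≤ J - 2 * μ := by omega
  have h3 := reflect_mul (G T ^ μ) B h1 h2
  rw [show 2 * μ + (J - 2 * μ) = J by omega, h, G_pow_reflect] at h3
  apply mul_left_cancel₀ hG0
  rw [← h3]
  ring

/-- Division of a relation by a power of `X^2 - T X + 1`. -/
lemma div_window_pow {T : ℤ} (hT : 3 ≤ T) {m a : ℕ} {B : ℤ[X]} {e : ℕ → ℤ} {F : ℤ}
    (hF0 : 0 ≤ F) (he : ∀ k, |e k| ≤ F) (μ : ℕ) : ∀ {n w : ℕ},
    l1 (G T ^ μ * B) * F < 2 ^ a →
    (∀ i < w, op m (G T ^ μ * B) e (n + i) = 0) →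
    ∀ i < w - μ * (2 * (a + 1) * m), op m B e (n + μ * ((a + 1) * m) + i) = 0 := by
  induction μ with
  | zero =>
    intro n w _ hrel i hi
    have := hrel i (by omega)
    simpa using this
  | succ μ ih =>
    intro n w hF hrel i hi
    rw [pow_succ', mul_assoc] at hF hrel
    have h1 : l1 (G T ^ μ * B) * F < 2 ^ a :=
      lt_of_le_of_lt (mul_le_mul_of_nonneg_right (l1_div hT _) hF0) hF
    have h2 := div_window hT he h1 hrel
    have h3 := ih h1 h2 i (by
      have : (μ + 1) * (2 * (a + 1) * m) = μ * (2 * (a + 1) * m) + 2 * (a + 1) * m := by ring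
      omega)
    rw [show n + (μ + 1) * ((a + 1) * m) + i = n + (a + 1) * m + μ * ((a + 1) * m) + i by ring]
    exact h3

end Pool.Agent.H95.LC
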