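import Mathlib

/-!
# Shift operators with polynomial coefficients, division by `X^2 - T X + 1`
-/

set_option autoImplicit false

namespace Pool.Agent.H95.LC

open Polynomial Finset

/-- The shift by `m`. -/
def sh (M : Type*) [AddCommGroup M] (m : ℕ) : Module.End ℤ (ℕ → M) where
  toFun y k := y (k + m)
  map_add' _ _ := rfl
  map_smul' _ _ := rfl

/-- The operator `∑ A_t S^(t m)`. -/
noncomputable def op {M : Type*} [AddCommGroup M] (m : ℕ) (A : ℤ[X]) (y : ℕ → M) : ℕ → M :=
  (aeval (sh M m) A : Module.End ℤ (ℕ → M)) y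

variable {M : Type*} [AddCommGroup M]

lemma sh_pow (m t : ℕ) (y : ℕ → M) (k : ℕ) : ((sh M m) ^ t) y k = y (k + t * m) := by
  induction t generalizing y k with
  | zero => simp
  | succ t ih =>
    rw [pow_succ, Module.End.mul_apply, ih]
    show y (k + t * m + m) = _
    congr 1
    ring

lemma op_apply {m J : ℕ} {A : ℤ[X]} (hA : A.natDegree ≤ J) (y : ℕ → M) (k : ℕ) :
    op m A y k = ∑ t ∈ range (J + 1), A.coeff t • y (k + t * m) := by
  unfold op
  rw [aeval_eq_sum_range' (Nat.lt_succ_of_le hA), LinearMap.sum_apply, Finset.sum_apply]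
  apply Finset.sum_congr rfl
  intro t _
  rw [LinearMap.smul_apply, Pi.smul_apply, sh_pow]

lemma op_mul (m : ℕ) (A B : ℤ[X]) (y : ℕ → M) : op m (A * B) y = op m A (op m B y) := by
  simp [op, map_mul, Module.End.mul_apply]

lemma op_add (m : ℕ) (A B : ℤ[X]) (y : ℕ → M) : op m (A + B) y = op m A y + op m B y := by
  simp [op, map_add]

/-- The characteristic polynomial of a period. -/
noncomputable def G (T : ℤ) : ℤ[X] := X ^ 2 - C T * X + 1

lemma G_eq (T : ℤ) : G T = X ^ 2 + (C (-T) * X + C 1) := by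
  unfold G
  simp
  ring

lemma G_monic (T : ℤ) : (G T).Monic := by
  rw [G_eq]
  exact monic_X_pow_add (lt_of_le_of_lt (degree_linear_le) (by norm_num))

lemma G_natDegree (T : ℤ) : (G T).natDegree = 2 := by
  rw [G_eq]
  rw [natDegree_add_eq_left_of_natDegree_lt]
  · simp
  · refine lt_of_le_of_lt natDegree_linear_le ?_
    simp

lemma G_coeff0 (T : ℤ) : (G T).coeff 0 = 1 := by simp [G]

lemma G_coeff1 (T : ℤ) : (G T).coeff 1 = -T := by
  rw [G_eq, coeff_add, coeff_add, coeff_C_mul, coeff_X_pow, coeff_X_one, coeff_C]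
  simp

lemma G_coeff2 (T : ℤ) : (G T).coeff 2 = 1 := by
  rw [G_eq, coeff_add, coeff_add, coeff_C_mul, coeff_X_pow, coeff_X, coeff_C]
  simp

lemma op_G (m : ℕ) (T : ℤ) (y : ℕ → M) (k : ℕ) :
    op m (G T) y k = y (k + 2 * m) - T • y (k + m) + y k := by
  rw [op_apply (J := 2) (by rw [G_natDegree])]
  simp only [Finset.sum_range_succ, Finset.sum_range_zero, G_coeff0, G_coeff1, G_coeff2,
    Nat.zero_mul, Nat.one_mul, Nat.add_zero]
  simp
  abel

/-- The sum of the absolute values of the coefficients. -/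
noncomputable def l1 (A : ℤ[X]) : ℤ := ∑ t ∈ range (A.natDegree + 1), |A.coeff t|

lemma l1_eq {A : ℤ[X]} {N : ℕ} (hN : A.natDegree < N) : l1 A = ∑ t ∈ range N, |A.coeff t| := by
  unfold l1
  apply Finset.sum_subset
  · intro t ht
    have := Finset.mem_range.1 ht
    exact Finset.mem_range.2 (by omega)
  · intro t _ ht
    have : A.natDegree < t := by
      by_contra h
      exact ht (Finset.mem_range.2 (by omega))
    rw [coeff_eq_zero_of_natDegree_lt this, abs_zero]

lemma l1_nonneg (A : ℤ[X]) : 0 ≤ l1 A := Finset.sum_nonneg (fun _ _ => abs_nonneg _)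

/-- Division by `X^2 - T X + 1` does not increase the height. -/
lemma l1_div {T : ℤ} (hT : 3 ≤ T) (B : ℤ[X]) : l1 B ≤ l1 (G T * B) := by
  set A := G T * B with hA
  obtain ⟨N, hN1, hN2⟩ : ∃ N, B.natDegree < N ∧ A.natDegree < N + 2 :=
    ⟨B.natDegree + A.natDegree + 1, by omega, by omega⟩
  have h0 : ∀ n, ∑ t ∈ range (n + 1), |(X * B).coeff t| = ∑ t ∈ range n, |B.coeff t| := by
    intro n
    rw [Finset.sum_range_succ']
    simp [coeff_X_mul]
  have h1 : ∑ t ∈ range (N + 2), |(X * (X * B)).coeff t| = ∑ t ∈ range N, |B.coeff t| := by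
    rw [Finset.sum_range_succ']
    simp only [coeff_X_mul, coeff_zero_eq_eval_zero, eval_mul, eval_X, zero_mul, abs_zero,
      add_zero]
    exact h0 N
  have h2 : ∀ t, T * (X * B).coeff t = (X * (X * B)).coeff t + B.coeff t - A.coeff t := by
    intro t
    have : C T * (X * B) = X * (X * B) + B - A := by
      rw [hA]; unfold G; ring
    rw [← coeff_C_mul, this, coeff_sub, coeff_add]
  have h3 : T * ∑ t ∈ range (N + 2), |(X * B).coeff t| ≤
      ∑ t ∈ range (N + 2), |(X * (X * B)).coeff t| + ∑ t ∈ range (N + 2), |B.coeff t| +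
      ∑ t ∈ range (N + 2), |A.coeff t| := by
    rw [Finset.mul_sum, ← Finset.sum_add_distrib, ← Finset.sum_add_distrib]
    apply Finset.sum_le_sum
    intro t _
    have e0 : T * |(X * B).coeff t| = |T * (X * B).coeff t| := by
      rw [abs_mul, abs_of_pos (by omega : 0 < T)]
    rw [e0, h2 t]
    have e1 := abs_sub ((X * (X * B)).coeff t + B.coeff t) (A.coeff t)
    have e2 := abs_add_le ((X * (X * B)).coeff t) (B.coeff t)
    linarith
  rw [h1, h0 (N + 1), ← l1_eq hN1, ← l1_eq (by omega), ← l1_eq (by omega), ← l1_eq hN2] at h3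
  have h4 := l1_nonneg B
  nlinarith

/-- Evaluation of `op` on integer sequences is bounded by the height. -/
lemma op_bound {m : ℕ} {A : ℤ[X]} {y : ℕ → ℤ} {F : ℤ} (hy : ∀ k, |y k| ≤ F) (k : ℕ) :
    |op m A y k| ≤ l1 A * F := by
  rw [op_apply (J := A.natDegree) le_rfl]
  refine (Finset.abs_sum_le_sum_abs _ _).trans ?_
  unfold l1
  rw [Finset.sum_mul]
  apply Finset.sum_le_sum
  intro t _
  rw [smul_eq_mul, abs_mul]
  exact mul_le_mul_of_nonneg_left (hy _) (abs_nonneg _)

/-- A small integer solution of the recurrence vanishes in the middle. -/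
lemma int_zero {T : ℤ} (hT : 3 ≤ T) {a : ℕ} {g : ℕ → ℤ} (hb : ∀ s ≤ 2 * a + 2, |g s| < 2 ^ a)
    (hr : ∀ s ≤ 2 * a, g (s + 2) = T * g (s + 1) - g s) : g (a + 1) = 0 := by
  by_contra hne
  have h1 : 1 ≤ |g (a + 1)| := Int.one_le_abs hne
  have hTg : ∀ x : ℤ, 3 * |x| ≤ |T * x| := by
    intro x
    rw [abs_mul, abs_of_pos (by omega : 0 < T)]
    exact mul_le_mul_of_nonneg_right hT (abs_nonneg _)
  have hmid : |g (a + 1)| ≤ |g (a + 2)| ∨ |g (a + 1)| ≤ |g a| := by
    by_contra hcon
    push Not at hcon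
    have h2 := hr a (by omega)
    have h3 := hTg (g (a + 1))
    have h4 : T * g (a + 1) = g (a + 2) + g a := by linarith
    have h5 := abs_add_le (g (a + 2)) (g a)
    rw [← h4] at h5
    omega
  rcases hmid with h | h
  · have key : ∀ j ≤ a, |g (a + 1 + j)| ≤ |g (a + 2 + j)| ∧ 2 ^ j ≤ |g (a + 2 + j)| := by
      intro j
      induction j with
      | zero => intro _; exact ⟨h, by simpa using h1.trans h⟩
      | succ j ih =>
        intro hj
        obtain ⟨i1, i2⟩ := ih (by omega)
        have h2 := hr (a + 1 + j) (by omega)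
        rw [show a + 1 + j + 2 = a + 2 + (j + 1) by ring,
          show a + 1 + j + 1 = a + 2 + j by ring] at h2
        have h3 := hTg (g (a + 2 + j))
        have h4 : |T * g (a + 2 + j)| - |g (a + 1 + j)| ≤ |g (a + 2 + (j + 1))| := by
          rw [h2]; exact abs_sub_abs_le_abs_sub _ _
        have h5 := abs_nonneg (g (a + 2 + j))
        rw [show a + 1 + (j + 1) = a + 2 + j by ring, pow_succ]
        constructor <;> omega
    have h2 := (key a le_rfl).2
    have h3 := hb (a + 2 + a) (by omega)
    omega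
  · have key : ∀ j ≤ a, |g (a + 1 - j)| ≤ |g (a - j)| ∧ 2 ^ j ≤ |g (a - j)| := by
      intro j
      induction j with
      | zero => intro _; exact ⟨h, by simpa using h1.trans h⟩
      | succ j ih =>
        intro hj
        obtain ⟨i1, i2⟩ := ih (by omega)
        have h2 := hr (a - (j + 1)) (by omega)
        rw [show a - (j + 1) + 2 = a + 1 - j by omega,
          show a - (j + 1) + 1 = a - j by omega] at h2
        have h3 := hTg (g (a - j))
        have h4 : |T * g (a - j)| - |g (a + 1 - j)| ≤ |g (a - (j + 1))| := by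
          rw [show g (a - (j + 1)) = T * g (a - j) - g (a + 1 - j) by linarith]
          exact abs_sub_abs_le_abs_sub _ _
        have h5 := abs_nonneg (g (a - j))
        rw [show a + 1 - (j + 1) = a - j by omega, pow_succ]
        constructor <;> omega
    have h2 := (key a le_rfl).2
    have h3 := hb (a - a) (by omega)
    omega

/-- Division of a relation by `X^2 - T X + 1`. -/
lemma div_window {T : ℤ} (hT : 3 ≤ T) {m a n w : ℕ} {B : ℤ[X]} {e : ℕ → ℤ} {F : ℤ}
    (he : ∀ k, |e k| ≤ F) (hF : l1 B * F < 2 ^ a)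
    (hrel : ∀ i < w, op m (G T * B) e (n + i) = 0) :
    ∀ i < w - 2 * (a + 1) * m, op m B e (n + (a + 1) * m + i) = 0 := by
  intro i hi
  have h := int_zero hT (a := a) (g := fun s => op m B e (n + i + s * m))
    (fun s _ => lt_of_le_of_lt (op_bound he _) hF) (fun s hs => by
      have h1 : i + s * m < w := by
        have : s * m ≤ 2 * a * m := Nat.mul_le_mul_right m hs
        have h2 : 2 * (a + 1) * m = 2 * a * m + 2 * m := by ring
        omega
      have h2 := hrel (i + s * m) h1
      rw [op_mul, op_G] at h2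
      simp only [smul_eq_mul] at h2
      rw [show n + (i + s * m) + 2 * m = n + i + (s + 2) * m by ring,
        show n + (i + s * m) + m = n + i + (s + 1) * m by ring,
        show n + (i + s * m) = n + i + s * m by ring] at h2
      linarith)
  rw [show n + (a + 1) * m + i = n + i + (a + 1) * m by ring]
  exact h

end Pool.Agent.H95.LC
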