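import Pool.Agent.H95.LC.QuadRel
import Pool.Agent.H95.LC.Mult

/-!
# Reciprocal relations, quadratic case: logarithmic dependence on the height
-/

set_option autoImplicit false

namespace Pool.Agent.H95.LC

open Finset
open Pool.Agent.H1.PC
open Pool.Agent.H18.LC

/-- sums over multiples of `m` -/
lemma sum_mult {β : Type*} [AddCommMonoid β] {m J : ℕ} (hm : 1 ≤ m) {f : ℕ → β}
    (hf : ∀ j ≤ J * m, ¬ m ∣ j → f j = 0) :
    ∑ j ∈ range (J * m + 1), f j = ∑ t ∈ range (J + 1), f (t * m) := by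
  classical
  have hinj : Function.Injective (fun t : ℕ => t * m) := fun x y h =>
    Nat.eq_of_mul_eq_mul_right (by omega) h
  have h1 : ∑ t ∈ range (J + 1), f (t * m) =
      ∑ j ∈ (range (J + 1)).image (fun t => t * m), f j := by
    rw [Finset.sum_image (fun x _ y _ h => hinj h)]
  rw [h1]
  symm
  apply Finset.sum_subset
  · intro j hj
    obtain ⟨t, ht, rfl⟩ := Finset.mem_image.1 hj
    have ht' : t ≤ J := by have := Finset.mem_range.1 ht; omega
    rw [Finset.mem_range]
    have : t * m ≤ J * m := Nat.mul_le_mul_right m ht'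
    omega
  · intro j hj hj'
    have hjL : j ≤ J * m := by have := Finset.mem_range.1 hj; omega
    apply hf j hjL
    rintro ⟨t, rfl⟩
    apply hj'
    rw [Finset.mem_image]
    refine ⟨t, Finset.mem_range.2 ?_, by ring⟩
    have : m * t ≤ m * J := by rw [mul_comm m J]; exact hjL
    have := Nat.le_of_mul_le_mul_left this (by omega)
    omega

/-- The coefficient function of `A(x^m)`. -/
noncomputable def spread (m : ℕ) (A : Polynomial ℤ) : ℕ → ℤ :=
  fun j => if m ∣ j then A.coeff (j / m) else 0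

lemma spread_mul {m : ℕ} (hm : 1 ≤ m) (A : Polynomial ℤ) (t : ℕ) :
    spread m A (t * m) = A.coeff t := by
  unfold spread
  rw [if_pos (Dvd.intro_left t rfl), Nat.mul_div_cancel _ (by omega)]

lemma spread_not {m : ℕ} {A : Polynomial ℤ} {j : ℕ} (h : ¬ m ∣ j) : spread m A j = 0 := by
  unfold spread
  rw [if_neg h]

/-- `op` as a sum. -/
lemma op_spread {m J : ℕ} (hm : 1 ≤ m) {A : Polynomial ℤ} (hA : A.natDegree ≤ J) (y : ℕ → ℤ)
    (k : ℕ) : ∑ j ∈ range (J * m + 1), spread m A j * y (k + j) = op m A y k := by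
  rw [op_apply hA, sum_mult hm (fun j _ h => by rw [spread_not h, zero_mul])]
  apply Finset.sum_congr rfl
  intro t _
  rw [spread_mul hm, smul_eq_mul]

lemma spread_abs {m J : ℕ} (hm : 1 ≤ m) {A : Polynomial ℤ} (hA : A.natDegree ≤ J) :
    ∑ j ∈ range (J * m + 1), |spread m A j| = l1 A := by
  rw [l1_eq (show A.natDegree < J + 1 by omega),
    sum_mult hm (fun j _ h => by rw [spread_not h, abs_zero])]
  apply Finset.sum_congr rfl
  intro t _
  rw [spread_mul hm]

lemma spread_rcp {m J : ℕ} (hm : 1 ≤ m) {A : Polynomial ℤ} {σ : ℤ}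
    (h : A.reflect J = Polynomial.C σ * A) (j : ℕ) (hj : j ≤ J * m) :
    spread m A (J * m - j) = σ * spread m A j := by
  by_cases hd : m ∣ j
  · obtain ⟨t, rfl⟩ := hd
    have ht : t ≤ J := by
      have : m * t ≤ m * J := by rw [mul_comm m J]; exact hj
      exact Nat.le_of_mul_le_mul_left this (by omega)
    rw [mul_comm m t, ← Nat.sub_mul, spread_mul hm, spread_mul hm]
    have h1 := congrArg (fun p => Polynomial.coeff p t) h
    simp only [Polynomial.coeff_reflect, Polynomial.coeff_C_mul] at h1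
    rw [Polynomial.revAt_le ht] at h1
    exact h1
  · rw [spread_not hd, mul_zero]
    apply spread_not
    intro h1
    apply hd
    have h2 := Nat.dvd_sub (Dvd.intro_left J rfl : m ∣ J * m) h1
    rwa [Nat.sub_sub_self hj] at h2

section bad

variable {α : ℝ} (hα : Irrational α) {δ : ℝ} (hδ : 0 < δ)
  (hbad : ∀ q : ℕ, 0 < q → ∀ p : ℤ, δ ≤ (q : ℝ) * |(q : ℝ) * α - p|)
include hα hδ hbad

/-- the real operator -/
lemma op_tr {m J : ℕ} (hm : 1 ≤ m) {A : Polynomial ℤ} (hA : A.natDegree ≤ J) (y : ℕ → ℝ)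
    (k : ℕ) : tr (spread m A) (J * m) y k = op m A y k := by
  unfold tr
  rw [op_apply hA, sum_mult hm (fun j _ h => by rw [spread_not h]; simp)]
  apply Finset.sum_congr rfl
  intro t _
  rw [spread_mul hm, zsmul_eq_mul]

/-- If `A` kills the denominators (far out) then `X^2 - T X + 1` divides `A`. -/
lemma G_dvd {k0 m J : ℕ} (hm : 1 ≤ m) (hper : ∀ k, k0 ≤ k → pq α (k + m) = pq α k) {T σ : ℤ}
    (hT3 : 3 ≤ T) (hσ : σ = 1 ∨ σ = -1)
    (hT : ∀ y : ℕ → ℝ, IsSol α k0 y → ∀ k, k0 ≤ k → y (k + 2 * m) = T * y (k + m) - y k)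
    {A : Polynomial ℤ} (hA : A.natDegree ≤ J) (hrcp : A.reflect J = Polynomial.C σ * A)
    (h : ∀ x, k0 ≤ x → op m A (den α) x = 0) : G T ∣ A := by
  obtain ⟨p, q, U, hpq, hfac⟩ := rel_fac hm hσ hT (spread_rcp hm hrcp)
    (fun j _ h => by by_contra hc; exact h (spread_not hc))
  -- `U = 0`
  have hU : U = 0 := by
    set x := k0 + m + 1 with hx
    have h1 := hfac _ (den_sol (α := α) k0) x (by omega)
    rw [op_tr hα hδ hbad hm hA] at h1
    have h2 : op m A (fun k => (den α k : ℝ)) x = 0 := by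
      rw [op_apply hA]
      have h3 := h x (by omega)
      rw [op_apply hA] at h3
      have h4 : ((∑ t ∈ range (J + 1), A.coeff t • den α (x + t * m) : ℤ) : ℝ) = 0 := by
        rw [h3]; simp
      push_cast at h4
      simpa [zsmul_eq_mul] using h4
    rw [h2, mul_zero] at h1
    have h5 := pq_low hα hδ hbad hm hT (show k0 + m ≤ x + J / 2 * m by omega) hpq
    have h6 : (0 : ℝ) < den α (x + J / 2 * m) := by
      have := den_ge hα (x + J / 2 * m)
      have h7 : (0 : ℤ) < den α (x + J / 2 * m) := by omega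
      exact_mod_cast h7
    rw [show x + J / 2 * m + m = x + (J / 2 + 1) * m by ring] at h5
    have h7 : (0 : ℝ) < p * den α (x + (J / 2 + 1) * m) + q * den α (x + J / 2 * m) := by
      have : 0 < δ * (den α (x + J / 2 * m) : ℝ) := by positivity
      linarith
    rcases mul_eq_zero.1 h1.symm with h8 | h8
    · exact_mod_cast h8
    · exact absurd h8 h7.ne'
  have hsol : ∀ y : ℕ → ℝ, IsSol α k0 y → ∀ x, k0 ≤ x → op m A y x = 0 := by
    intro y hy x hx
    have h1 := hfac y hy x hx
    rw [op_tr hα hδ hbad hm hA, hU] at h1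
    simpa using h1
  -- division
  have hmon := G_monic T
  rw [← Polynomial.modByMonic_eq_zero_iff_dvd hmon]
  set r := A %ₘ G T with hr
  have hdeg : r.natDegree ≤ 1 := by
    have h1 := Polynomial.natDegree_modByMonic_lt A hmon (by
      intro h1
      have := G_natDegree T
      rw [h1] at this
      simp at this)
    rw [G_natDegree, ← hr] at h1
    omega
  have hA' : A = r + A /ₘ G T * G T := by
    rw [mul_comm]; exact (Polynomial.modByMonic_add_div A (G T)).symm
  have hGy : ∀ y : ℕ → ℝ, IsSol α k0 y → ∀ x, k0 ≤ x → op m (G T) y x = 0 := by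
    intro y hy x hx
    rw [op_G, hT y hy x hx, zsmul_eq_mul]
    ring
  have hrr : ∀ y : ℕ → ℝ, IsSol α k0 y → ∀ x, k0 ≤ x →
      (r.coeff 0 : ℝ) * y x + r.coeff 1 * y (x + m) = 0 := by
    intro y hy x hx
    have h1 := hsol y hy x hx
    rw [hA', op_add, op_mul, Pi.add_apply] at h1
    have h2 : op m (A /ₘ G T) (op m (G T) y) x = 0 := by
      rw [op_apply (J := (A /ₘ G T).natDegree) le_rfl]
      apply Finset.sum_eq_zero
      intro t _
      rw [hGy y hy (x + t * m) (by omega), smul_zero]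
    rw [h2, add_zero, op_apply hdeg] at h1
    simp only [Finset.sum_range_succ, Finset.sum_range_zero, zero_add, Nat.zero_mul,
      Nat.add_zero, Nat.one_mul, zsmul_eq_mul] at h1
    exact h1
  obtain ⟨A0, B0, C0, D0, hdet, htr, htrans⟩ := transfer_trace hper hT (le_refl k0)
  have e : ∀ y : ℕ → ℝ, IsSol α k0 y →
      ((r.coeff 0 + r.coeff 1 * A0 : ℤ) : ℝ) * y k0 + ((r.coeff 1 * B0 : ℤ) : ℝ) * y (k0 + 1) = 0 := by
    intro y hy
    have h1 := hrr y hy k0 le_rfl
    rw [(htrans y hy).1] at h1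
    push_cast
    linear_combination h1
  obtain ⟨e1, e2⟩ := indep (e _ (den_sol (α := α) k0)) (e _ (num_sol (α := α) k0))
  have e1' : r.coeff 0 + r.coeff 1 * A0 = 0 := by exact_mod_cast e1
  have e2' : r.coeff 1 * B0 = 0 := by exact_mod_cast e2
  have hB0 : B0 ≠ 0 := by
    intro h0
    rw [h0, zero_mul, sub_zero] at hdet
    rcases Int.eq_one_or_neg_one_of_mul_eq_one' hdet with ⟨h1, h2⟩ | ⟨h1, h2⟩
    · rw [h1, h2] at htr; omega
    · rw [h1, h2] at htr; omega
  have hr1 : r.coeff 1 = 0 := (mul_eq_zero.1 e2').resolve_right hB0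
  have hr0 : r.coeff 0 = 0 := by rw [hr1] at e1'; simpa using e1'
  ext i
  rw [Polynomial.coeff_zero]
  rcases Nat.lt_or_ge 1 i with h1 | h1
  · exact Polynomial.coeff_eq_zero_of_natDegree_lt (by omega)
  · interval_cases i
    · exact hr0
    · exact hr1

end bad

end Pool.Agent.H95.LC
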