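import Pool.Agent.H95.LC.Poly

/-!
# Reciprocal relations, quadratic case
-/

set_option autoImplicit false

namespace Pool.Agent.H95.LC

open Finset
open Pool.Agent.H1.PC
open Pool.Agent.H18.LC

lemma arith6 (x1 x2 A M d c1 c2 pm pJ : ℝ) :
    (x1 * (2 * ((2 * (2 * (A * M)) / (d * c1)) * x2))) ^ 4 * ((2 * A * c2 / d) ^ 2 * pm * pJ) =
      ((x1 * (2 * ((2 * (2 * M) / (d * c1)) * x2))) ^ 4 * ((2 * c2 / d) ^ 2 * pm)) *
        (A ^ 6 * pJ) := by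
  have e1 : x1 * (2 * ((2 * (2 * (A * M)) / (d * c1)) * x2)) =
      A * (x1 * (2 * ((2 * (2 * M) / (d * c1)) * x2))) := by ring
  have e2 : 2 * A * c2 / d = A * (2 * c2 / d) := by ring
  rw [e1, e2, mul_pow, mul_pow]
  ring

section bad

variable {α : ℝ} (hα : Irrational α) {δ : ℝ} (hδ : 0 < δ)
  (hbad : ∀ q : ℕ, 0 < q → ∀ p : ℤ, δ ≤ (q : ℝ) * |(q : ℝ) * α - p|)
include hα hδ hbad

/-- Relations not divisible by `X^2 - T X + 1`. -/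
lemma poly_proper {β : ℝ} {R : ℕ → ℤ} {M : ℝ} (hM : ∀ k, |(den α k : ℝ) * β - R k| ≤ M)
    {k0 m : ℕ} (hm : 1 ≤ m) (hper : ∀ k, k0 ≤ k → pq α (k + m) = pq α k) {T : ℤ}
    (hT : ∀ y : ℕ → ℝ, IsSol α k0 y → ∀ k, k0 ≤ k → y (k + 2 * m) = T * y (k + m) - y k)
    (hrel : ∀ K : ℕ, ∃ (μ n w J : ℕ) (A : Polynomial ℤ) (σ : ℤ), (σ = 1 ∨ σ = -1) ∧
      k0 + m ≤ n ∧ J * m + K * (μ + 1) ≤ 2 * w ∧ A.natDegree ≤ J ∧ l1 A ≤ 2 ^ μ ∧
      A.reflect J = Polynomial.C σ * A ∧ ¬ G T ∣ A ∧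
      ∀ i < w, op m A (digit α R) (n + i) = 0)
    (ε : ℝ) (hε : 0 < ε) (N : ℕ) :
    ∃ q : ℕ, N ≤ q ∧ 0 < q ∧ ∃ p r : ℤ,
      (q : ℝ) * |(q : ℝ) * α - p| * |(q : ℝ) * β - r| < ε := by
  have hM0 : 0 ≤ M := (abs_nonneg _).trans (hM 0)
  have hd1 := delta_le_one hα hδ hbad
  have hT3 := trace_ge hα hδ hbad hm hT
  obtain ⟨ρ, c1, c2, hρ, hc1, hc2, hg⟩ := growth hα hδ hbad hm hT
  set k1 := k0 + m with hk1
  have hg' : ∀ k h, k1 ≤ k → c1 * ρ ^ h * den α k ≤ den α (k + h) ∧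
      (den α (k + h) : ℝ) ≤ c2 * ρ ^ h * den α k :=
    fun k h hk => hg k h (by omega) (by omega)
  have hρ0 : 0 < ρ := by linarith
  have hTR : (0 : ℝ) ≤ ((|T| : ℤ) : ℝ) := by exact_mod_cast abs_nonneg T
  set G1 : ℝ := ((4 * (|T| + 3) ^ 2 * (c2 * ρ ^ (1 + m) / δ)) *
          (2 * ((2 * (2 * M) / (δ * c1)) * (c2 * ρ ^ 2 + ρ + 1)))) ^ 4 *
        ((2 * c2 / δ) ^ 2 * ρ ^ m) with hG1
  have hG0 : 0 ≤ G1 := by
    rw [hG1]
    positivity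
  -- parameters
  obtain ⟨K3, hK3⟩ := pow_unbounded_of_one_lt (G1 * ρ ^ 2 / ε ^ 4) hρ
  obtain ⟨K6, hK6⟩ := pow_unbounded_of_one_lt (64 : ℝ) hρ
  obtain ⟨K7, hK7⟩ := exists_pow_lt_of_lt_one (show (0 : ℝ) < 1 / 2 by norm_num)
    (show 1 - δ < 1 by linarith)
  obtain ⟨K8, hK8⟩ := exists_pow_lt_of_lt_one
    (show (0 : ℝ) < δ / (4 * (N + 1)) by positivity) (show 1 - δ < 1 by linarith)
  set K := K3 + K6 + 4 * (K7 + K8 + 1) + 2 with hK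
  obtain ⟨μ, n, w, J, A, σ, hσ, hn, hLw, hA, hl1, hrcp, hG, hrl⟩ := hrel K
  have eK : K * (μ + 1) = K3 * (μ + 1) + K6 * (μ + 1) + 4 * (K7 * (μ + 1)) + 4 * (K8 * (μ + 1)) +
      6 * (μ + 1) := by rw [hK]; ring
  have i3 : K3 ≤ K3 * (μ + 1) := Nat.le_mul_of_pos_right _ (by omega)
  have i6 : K6 * μ ≤ K6 * (μ + 1) := Nat.mul_le_mul_left _ (by omega)
  have i7 : K7 * μ ≤ K7 * (μ + 1) := Nat.mul_le_mul_left _ (by omega)
  have i8 : K8 ≤ K8 * (μ + 1) := Nat.le_mul_of_pos_right _ (by omega)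
  set h := w / 2 with hh
  have hh2 : 2 * h ≤ w := by omega
  have hh3 : K8 + K7 * μ + 1 ≤ h := by omega
  -- smallness of `θ`
  have hθ : 4 * ((2 ^ μ : ℕ) : ℝ) * th α (n + h + 1) * (N + 1) < δ := by
    have h0 : th α 0 = 1 := by simp [th, num, den]
    have h1 := th_decay hα hδ hbad 0 (n + h + 1)
    rw [Nat.zero_add, h0, mul_one] at h1
    have h2 : (1 - δ) ^ (n + h + 1) ≤ (1 - δ) ^ (K8 + K7 * μ) :=
      pow_le_pow_of_le_one (by linarith) (by linarith) (by omega)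
    have h3 : (1 - δ) ^ (K8 + K7 * μ) = (1 - δ) ^ K8 * ((1 - δ) ^ K7) ^ μ := by
      rw [pow_add, pow_mul]
    have h4 : ((1 - δ) ^ K7) ^ μ ≤ (1 / 2) ^ μ :=
      pow_le_pow_left₀ (pow_nonneg (by linarith) _) hK7.le μ
    have h5 : th α (n + h + 1) ≤ (1 - δ) ^ K8 * (1 / 2) ^ μ := by
      refine h1.trans (h2.trans ?_)
      rw [h3]
      exact mul_le_mul_of_nonneg_left h4 (pow_nonneg (by linarith) _)
    have h6 : (2 : ℝ) ^ μ * (1 / 2) ^ μ = 1 := by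
      rw [← mul_pow]; norm_num
    have h7 : ((2 ^ μ : ℕ) : ℝ) * th α (n + h + 1) ≤ (1 - δ) ^ K8 := by
      push_cast
      calc (2 : ℝ) ^ μ * th α (n + h + 1) ≤ 2 ^ μ * ((1 - δ) ^ K8 * (1 / 2) ^ μ) :=
            mul_le_mul_of_nonneg_left h5 (by positivity)
        _ = (1 - δ) ^ K8 * (2 ^ μ * (1 / 2) ^ μ) := by ring
        _ = (1 - δ) ^ K8 := by rw [h6, mul_one]
    rw [lt_div_iff₀ (by positivity)] at hK8
    have h8 : 4 * ((2 ^ μ : ℕ) : ℝ) * th α (n + h + 1) * (N + 1) =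
        (((2 ^ μ : ℕ) : ℝ) * th α (n + h + 1)) * (4 * (N + 1)) := by ring
    rw [h8]
    exact lt_of_le_of_lt (mul_le_mul_of_nonneg_right h7 (by positivity)) hK8
  have hθ4 : 4 * ((2 ^ μ : ℕ) : ℝ) * th α (n + h + 1) < 1 := by
    have h1 : 0 ≤ 4 * ((2 ^ μ : ℕ) : ℝ) * th α (n + h + 1) :=
      mul_nonneg (by positivity) (th_nonneg hα _)
    have h2 : (0 : ℝ) ≤ N := Nat.cast_nonneg N
    nlinarith
  have hne : ∃ x, k0 ≤ x ∧ ∑ j ∈ range (J * m + 1), spread m A j * den α (x + j) ≠ 0 := by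
    by_contra hcon
    push Not at hcon
    apply hG
    apply G_dvd hα hδ hbad hm hper hT3 hσ hT hA hrcp
    intro x hx
    rw [← op_spread hm hA]
    exact hcon x hx
  obtain ⟨q, p, r, hq0, hqp, hX⟩ := core2 hα hδ hbad hM hm hper hT3 hT le_rfl
    (by omega : 1 ≤ k1) hρ hc1 hc2 hg' (A := 2 ^ μ) (J := J) (a := spread m A) hσ
    (spread_rcp hm hrcp) (fun j _ h => by by_contra hc; exact h (spread_not hc))
    (by rw [spread_abs hm hA]; exact_mod_cast hl1) hn hh2 (by omega : 1 ≤ h)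
    (fun i hi => by rw [op_spread hm hA]; exact hrl i hi) hne hθ4
  -- the product is small
  have hXε : (|(q : ℝ)| * |(q : ℝ) * α - p| * |(q : ℝ) * β - r|) ^ 4 < ε ^ 4 := by
    refine lt_of_le_of_lt hX ?_
    have e1 : ((4 * (|T| + 3) ^ 2 * (c2 * ρ ^ (1 + m) / δ)) *
          (2 * ((2 * (2 * (((2 ^ μ : ℕ) : ℝ) * M)) / (δ * c1)) * (c2 * ρ ^ 2 + ρ + 1)))) ^ 4 *
        ((2 * ((2 ^ μ : ℕ) : ℝ) * c2 / δ) ^ 2 * ρ ^ m * ρ ^ (J * m)) =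
        G1 * (((2 ^ μ : ℕ) : ℝ) ^ 6 * ρ ^ (J * m)) := by
      rw [hG1]; exact arith6 _ _ _ _ _ _ _ _ _
    rw [e1]
    have h0 : (((2 ^ μ : ℕ) : ℝ)) ^ 6 ≤ ρ ^ (K6 * μ) := by
      push_cast
      rw [← pow_mul, mul_comm μ 6, pow_mul, pow_mul]
      exact pow_le_pow_left₀ (by norm_num) (by norm_num; linarith) μ
    have h1 : ρ ^ (K6 * μ) * ρ ^ (J * m) * ρ ^ K3 ≤ ρ ^ 2 * (ρ ^ h) ^ 4 := by
      rw [← pow_add, ← pow_mul, ← pow_add, ← pow_add]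
      exact pow_le_pow_right₀ hρ.le (by omega)
    have h2 : G1 * ρ ^ 2 < ρ ^ K3 * ε ^ 4 := by
      rwa [div_lt_iff₀ (by positivity)] at hK3
    rw [div_lt_iff₀ (by positivity)]
    have hp3 : 0 < ρ ^ K3 := by positivity
    have h3 : ρ ^ K3 * (G1 * (((2 ^ μ : ℕ) : ℝ) ^ 6 * ρ ^ (J * m))) <
        ρ ^ K3 * (ε ^ 4 * (ρ ^ h) ^ 4) := by
      calc ρ ^ K3 * (G1 * (((2 ^ μ : ℕ) : ℝ) ^ 6 * ρ ^ (J * m)))
          ≤ ρ ^ K3 * (G1 * (ρ ^ (K6 * μ) * ρ ^ (J * m))) := by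
            apply mul_le_mul_of_nonneg_left _ hp3.le
            apply mul_le_mul_of_nonneg_left _ hG0
            exact mul_le_mul_of_nonneg_right h0 (by positivity)
        _ = G1 * (ρ ^ (K6 * μ) * ρ ^ (J * m) * ρ ^ K3) := by ring
        _ ≤ G1 * (ρ ^ 2 * (ρ ^ h) ^ 4) := mul_le_mul_of_nonneg_left h1 hG0
        _ = (G1 * ρ ^ 2) * (ρ ^ h) ^ 4 := by ring
        _ < (ρ ^ K3 * ε ^ 4) * (ρ ^ h) ^ 4 := mul_lt_mul_of_pos_right h2 (by positivity)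
        _ = _ := by ring
    exact lt_of_mul_lt_mul_left h3 hp3.le
  have hX1 : |(q : ℝ)| * |(q : ℝ) * α - p| * |(q : ℝ) * β - r| < ε :=
    lt_of_pow_lt_pow_left₀ 4 hε.le hXε
  have key : ∀ q p r : ℤ, 0 < q → |(q : ℝ) * α - p| ≤ 4 * ((2 ^ μ : ℕ) : ℝ) * th α (n + h + 1) →
      (q : ℝ) * |(q : ℝ) * α - p| * |(q : ℝ) * β - r| < ε →
      ∃ q : ℕ, N ≤ q ∧ 0 < q ∧ ∃ p r : ℤ,
      (q : ℝ) * |(q : ℝ) * α - p| * |(q : ℝ) * β - r| < ε := by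
    intro q p r hq hqp hX
    have hqN : (N : ℝ) ≤ q := by
      have h1 := bad_int hα hδ hbad q hq p
      have hqR : (0 : ℝ) < q := by exact_mod_cast hq
      have h2 : δ ≤ q * (4 * ((2 ^ μ : ℕ) : ℝ) * th α (n + h + 1)) :=
        h1.trans (mul_le_mul_of_nonneg_left hqp hqR.le)
      have h3 : (0 : ℝ) ≤ N := Nat.cast_nonneg N
      by_contra hcon
      push Not at hcon
      have h4 : 0 ≤ 4 * ((2 ^ μ : ℕ) : ℝ) * th α (n + h + 1) :=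
        mul_nonneg (by positivity) (th_nonneg hα _)
      have h5 : (q : ℝ) * (4 * ((2 ^ μ : ℕ) : ℝ) * th α (n + h + 1)) ≤
          (N + 1) * (4 * ((2 ^ μ : ℕ) : ℝ) * th α (n + h + 1)) :=
        mul_le_mul_of_nonneg_right (by linarith) h4
      linarith
    obtain ⟨q', hq'⟩ : ∃ q' : ℕ, q = q' := ⟨q.toNat, by omega⟩
    rw [hq'] at hX hqN hq
    refine ⟨q', by exact_mod_cast hqN, by exact_mod_cast hq, p, r, ?_⟩
    exact_mod_cast hX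
  rcases Int.lt_or_lt_of_ne hq0 with hneg | hpos
  · apply key (-q) (-p) (-r) (by omega)
    · push_cast
      rw [show -(q : ℝ) * α - -(p : ℝ) = -((q : ℝ) * α - p) by ring, abs_neg]
      push_cast at hqp
      exact hqp
    · have hqR : (q : ℝ) < 0 := by exact_mod_cast hneg
      rw [abs_of_neg hqR] at hX1
      push_cast
      rw [show -(q : ℝ) * α - -(p : ℝ) = -((q : ℝ) * α - p) by ring,
        show -(q : ℝ) * β - -(r : ℝ) = -((q : ℝ) * β - r) by ring, abs_neg, abs_neg]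
      exact hX1
  · apply key q p r hpos hqp
    have hqR : (0 : ℝ) < q := by exact_mod_cast hpos
    rw [abs_of_pos hqR] at hX1
    exact hX1

/-- All non-zero relations. -/
lemma poly_all {R : ℕ → ℤ} {F : ℕ} (hF : ∀ k, |digit α R k| ≤ F)
    {k0 m : ℕ} (hm : 1 ≤ m) (hper : ∀ k, k0 ≤ k → pq α (k + m) = pq α k) {T : ℤ}
    (hT : ∀ y : ℕ → ℝ, IsSol α k0 y → ∀ k, k0 ≤ k → y (k + 2 * m) = T * y (k + m) - y k)
    {K1 : ℕ} (hK1 : ∀ (μ n w J : ℕ) (A : Polynomial ℤ) (σ : ℤ), (σ = 1 ∨ σ = -1) →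
      k0 + m ≤ n → A.natDegree ≤ J → l1 A ≤ 2 ^ μ →
      A.reflect J = Polynomial.C σ * A → ¬ G T ∣ A →
      (∀ i < w, op m A (digit α R) (n + i) = 0) → 2 * w < J * m + K1 * (μ + 1)) :
    ∃ K : ℕ, ∀ (μ n w J : ℕ) (A : Polynomial ℤ) (σ : ℤ), (σ = 1 ∨ σ = -1) →
      k0 + m ≤ n → A.natDegree ≤ J → l1 A ≤ 2 ^ μ →
      A.reflect J = Polynomial.C σ * A → A ≠ 0 →
      (∀ i < w, op m A (digit α R) (n + i) = 0) → 2 * w < J * m + K * (μ + 1) ^ 2 := by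
  have hT3 := trace_ge hα hδ hbad hm hT
  obtain ⟨b, hb⟩ : ∃ b : ℕ, F < 2 ^ b := ⟨F, Nat.lt_two_pow_self⟩
  refine ⟨K1 + 4 * (b + 1) * m, fun μ n w J A σ hσ hn hA hl1 hrcp hA0 hrl => ?_⟩
  obtain ⟨ν, B, rfl, hB⟩ := split_G T hA0
  have hB0 : B ≠ 0 := by rintro rfl; simp at hA0
  obtain ⟨h1, h2, h3⟩ := reflect_cofactor hA hB0 hrcp
  have hν : ν ≤ μ := by
    have h4 := (two_pow_le hT3 ν hB0).trans hl1
    exact (Nat.pow_le_pow_iff_right (by norm_num : 1 < 2)).1 (by exact_mod_cast h4)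
  have hlt : l1 (G T ^ ν * B) * (F : ℤ) < 2 ^ (μ + b) := by
    rw [pow_add]
    have h4 : (F : ℤ) < 2 ^ b := by exact_mod_cast hb
    have h5 : (0 : ℤ) ≤ F := by positivity
    have h6 : (0 : ℤ) < 2 ^ μ := by positivity
    have h7 := l1_nonneg (G T ^ ν * B)
    nlinarith
  have hw := div_window_pow hT3 (by positivity : (0 : ℤ) ≤ F) hF ν hlt hrl
  have hfin := hK1 μ _ _ (J - 2 * ν) B σ hσ (by omega) h2
    ((l1_div_pow hT3 B ν).trans hl1) h3 hB hw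
  -- arithmetic
  have e1 : ν * (2 * (μ + b + 1) * m) ≤ μ * (2 * (μ + b + 1) * m) := Nat.mul_le_mul_right _ hν
  have e2 : (J - 2 * ν) * m ≤ J * m := Nat.mul_le_mul_right m (by omega)
  have e3 : K1 * (μ + 1) ≤ K1 * (μ + 1) ^ 2 := by
    apply Nat.mul_le_mul_left
    nlinarith
  have e4 : 2 * (μ * (2 * (μ + b + 1) * m)) ≤ 4 * (b + 1) * m * (μ + 1) ^ 2 := by
    have h5 : μ + b + 1 ≤ (b + 1) * (μ + 1) := by
      have : (b + 1) * (μ + 1) = b * μ + (μ + b + 1) := by ring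
      omega
    have : μ * (μ + b + 1) ≤ (b + 1) * (μ + 1) ^ 2 := by
      calc μ * (μ + b + 1) ≤ (μ + 1) * ((b + 1) * (μ + 1)) := Nat.mul_le_mul (by omega) h5
        _ = _ := by ring
    calc 2 * (μ * (2 * (μ + b + 1) * m)) = 4 * m * (μ * (μ + b + 1)) := by ring
      _ ≤ 4 * m * ((b + 1) * (μ + 1) ^ 2) := Nat.mul_le_mul_left _ this
      _ = _ := by ring
  have e5 : (K1 + 4 * (b + 1) * m) * (μ + 1) ^ 2 = K1 * (μ + 1) ^ 2 +
      4 * (b + 1) * m * (μ + 1) ^ 2 := by ring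
  omega

end bad

end Pool.Agent.H95.LC
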