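import Pool.Agent.H95.LC.Free

/-!
# Quadratic `α`: all linear relations of the digits
-/

set_option autoImplicit false

namespace Pool.Agent.H95.LC

open Finset
open Pool.Agent.H1.PC
open Pool.Agent.H18.LC

theorem quad_all {α : ℝ} (hα : Irrational α) {δ : ℝ} (hδ : 0 < δ)
    (hbad : ∀ q : ℕ, 0 < q → ∀ p : ℤ, δ ≤ (q : ℝ) * |(q : ℝ) * α - p|)
    {β : ℝ} {R : ℕ → ℤ} {M : ℝ} (hM : ∀ k, |(den α k : ℝ) * β - R k| ≤ M)
    {F : ℕ} (hF : ∀ k, |digit α R k| ≤ F)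
    {k0 m0 : ℕ} (hm0 : 1 ≤ m0) (hper : ∀ k, k0 ≤ k → pq α (k + m0) = pq α k)
    (hfail : ¬ ∀ ε : ℝ, 0 < ε → ∀ N : ℕ, ∃ q : ℕ, N ≤ q ∧ 0 < q ∧ ∃ p r : ℤ,
      (q : ℝ) * |(q : ℝ) * α - p| * |(q : ℝ) * β - r| < ε) :
    ∃ K : ℕ → ℕ, ∀ (n w L : ℕ) (a : ℕ → ℤ), (∃ j ≤ L, a j ≠ 0) →
      (∀ i < w, (∀ j ≤ L, a j ≠ 0 → pq α (n + i + j + 1) = pq α (n + i + 1)) ∧
        ∑ j ∈ range (L + 1), a j * digit α R (n + i + j) = 0) →
      (∀ s : ℕ, 1 ≤ s → s * w < (2 * s + 1) * L + K s) ∧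
      ∀ σ : ℤ, (σ = 1 ∨ σ = -1) → (∀ j ≤ L, a (L - j) = σ * a j) →
        (∀ s : ℕ, 1 ≤ s → s * (2 * w) < (s + 1) * L + K s) ∧
        ∀ μ : ℕ, ∑ j ∈ range (L + 1), |a j| ≤ 2 ^ μ → 2 * w < L + K 0 * (μ + 1) ^ 2 := by
  obtain ⟨m, hm, hperm, hmul⟩ := min_period' hm0 hper
  obtain ⟨T, hT⟩ := trace_exists (α := α) hperm
  set k1 := k0 + m with hk1
  -- proper relations
  have h1 : ∃ K1 : ℕ, ∀ (μ n w J : ℕ) (A : Polynomial ℤ) (σ : ℤ), (σ = 1 ∨ σ = -1) →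
      k0 + m ≤ n → A.natDegree ≤ J → l1 A ≤ 2 ^ μ →
      A.reflect J = Polynomial.C σ * A → ¬ G T ∣ A →
      (∀ i < w, op m A (digit α R) (n + i) = 0) → 2 * w < J * m + K1 * (μ + 1) := by
    by_contra hcon
    push Not at hcon
    apply hfail
    apply poly_proper hα hδ hbad hM hm hperm hT
    intro K
    obtain ⟨μ, n, w, J, A, σ, g1, g2, g3, g4, g5, g6, g7, g8⟩ := hcon K
    exact ⟨μ, n, w, J, A, σ, g1, g2, g8, g3, g4, g5, g6, g7⟩
  obtain ⟨K1, hK1⟩ := h1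
  obtain ⟨K2, hK2⟩ := poly_all hα hδ hbad hF hm hperm hT hK1
  have h3 : ∀ s : ℕ, ∃ K : ℕ, 1 ≤ s → ∀ (n w J : ℕ) (A : Polynomial ℤ) (σ : ℤ),
      (σ = 1 ∨ σ = -1) → k1 ≤ n → A.natDegree ≤ J → A.reflect J = Polynomial.C σ * A → A ≠ 0 →
      (∀ i < w, op m A (digit α R) (n + i) = 0) → s * (2 * w) < (s + 1) * (J * m) + K := by
    intro s
    by_cases hs : 1 ≤ s
    · obtain ⟨K, hK⟩ := poly_free hF hm hK2 s hs
      exact ⟨K, fun _ => hK⟩
    · exact ⟨0, fun h => absurd h hs⟩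
  choose K3 hK3 using h3
  refine ⟨fun s => K2 + K3 s + 2 * (s + 1) * (k1 + m) + 1, fun n w L a hne hrel => ?_⟩
  -- short windows
  rcases Nat.lt_or_ge w (k1 + m) with hw | hw
  · have g1 : ∀ s : ℕ, s * (2 * w) ≤ 2 * (s + 1) * (k1 + m) := by
      intro s
      calc s * (2 * w) ≤ (s + 1) * (2 * (k1 + m)) := Nat.mul_le_mul (by omega) (by omega)
        _ = _ := by ring
    refine ⟨fun s _ => ?_, fun σ _ _ => ⟨fun s _ => ?_, fun μ _ => ?_⟩⟩
    · have := g1 s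
      have e1 : s * (2 * w) = 2 * (s * w) := by ring
      have : s * w < K2 + K3 s + 2 * (s + 1) * (k1 + m) + 1 := by omega
      exact this.trans_le (Nat.le_add_left _ _)
    · have := g1 s
      have : s * (2 * w) < K2 + K3 s + 2 * (s + 1) * (k1 + m) + 1 := by omega
      exact this.trans_le (Nat.le_add_left _ _)
    · have g2 : 2 * w < K2 + K3 0 + 2 * (0 + 1) * (k1 + m) + 1 := by omega
      have g3 : 1 ≤ (μ + 1) ^ 2 := Nat.one_le_pow _ _ (by omega)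
      calc 2 * w < K2 + K3 0 + 2 * (0 + 1) * (k1 + m) + 1 := g2
        _ ≤ (K2 + K3 0 + 2 * (0 + 1) * (k1 + m) + 1) * (μ + 1) ^ 2 := Nat.le_mul_of_pos_right _ g3
        _ ≤ _ := Nat.le_add_left _ _
  -- long windows
  set w1 := w - k1 with hw1
  have hcomp : ∀ i < w1, ∀ j ≤ L, a j ≠ 0 → pq α (n + k1 + i + j + 1) = pq α (n + k1 + i + 1) := by
    intro i hi j hj ha
    have := (hrel (k1 + i) (by omega)).1 j hj ha
    rw [show n + k1 + i + j + 1 = n + (k1 + i) + j + 1 by ring,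
      show n + k1 + i + 1 = n + (k1 + i) + 1 by ring]
    exact this
  have hdig : ∀ i < w1, ∑ j ∈ range (L + 1), a j * digit α R (n + k1 + i + j) = 0 := by
    intro i hi
    have := (hrel (k1 + i) (by omega)).2
    rw [show n + k1 + i = n + (k1 + i) by ring]
    exact this
  have hdiv : ∀ j ≤ L, a j ≠ 0 → m ∣ j := by
    intro j hj ha
    obtain ⟨t, ht⟩ := hmul (n + k1 + 1) j w1 (by omega) (by omega) (fun i hi => by
      have := hcomp i hi j hj ha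
      rw [show n + k1 + 1 + i = n + k1 + i + 1 by ring,
        show n + k1 + 1 + j + i = n + k1 + i + j + 1 by ring]
      exact this.symm)
    exact ⟨t, by rw [ht]; ring⟩
  have hww : w = w1 + k1 := by omega
  refine ⟨fun s hs => ?_, fun σ hσ hrcp => ?_⟩
  · obtain ⟨J, A, hJL, hA0, hAd, hAr⟩ := to_poly_gen hm hdiv hne hdig
    have g := poly_free_gen (hK3 s hs) (n + k1) w1 J A (by omega) hAd hA0 hAr
    have g2 : (2 * s + 1) * (J * m) ≤ (2 * s + 1) * L := Nat.mul_le_mul_left _ hJL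
    have e1 : s * w = s * w1 + s * k1 := by rw [hww]; ring
    have e2 : 2 * (s + 1) * (k1 + m) = 2 * (s * k1) + 2 * k1 + 2 * (s * m) + 2 * m := by ring
    simp only []
    rw [e1, e2]
    omega
  · obtain ⟨J, A, hJL, hA0, hAd, hAl, hArf, hAr⟩ := to_poly hm hσ hdiv hrcp hne hdig
    refine ⟨fun s hs => ?_, fun μ hμ => ?_⟩
    · have g := hK3 s hs (n + k1) w1 J A σ hσ (by omega) hAd hArf hA0 hAr
      rw [← hJL] at g
      have e1 : s * (2 * w) = s * (2 * w1) + 2 * (s * k1) := by rw [hww]; ring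
      have e2 : 2 * (s + 1) * (k1 + m) = 2 * (s * k1) + 2 * k1 + 2 * (s * m) + 2 * m := by ring
      simp only []
      rw [e1, e2]
      omega
    · have g := hK2 μ (n + k1) w1 J A σ hσ (by omega) hAd (by rw [hAl]; exact hμ) hArf hA0 hAr
      rw [← hJL] at g
      have g3 : 1 ≤ (μ + 1) ^ 2 := Nat.one_le_pow _ _ (by omega)
      have g4 : 2 * k1 ≤ 2 * k1 * (μ + 1) ^ 2 := Nat.le_mul_of_pos_right _ g3
      have e1 : (K2 + K3 0 + 2 * (0 + 1) * (k1 + m) + 1) * (μ + 1) ^ 2 =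
          K2 * (μ + 1) ^ 2 + 2 * k1 * (μ + 1) ^ 2 + (K3 0 + 2 * m + 1) * (μ + 1) ^ 2 := by ring
      simp only []
      rw [e1]
      omega

end Pool.Agent.H95.LC
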