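import Pool.Agent.H95.LC.Core2
import Pool.Agent.H95.LC.Rel

/-!
# Quadratic `α`: reciprocal relations on windows longer than half their span
-/

set_option autoImplicit false

namespace Pool.Agent.H95.LC

open Finset
open Pool.Agent.H1.PC
open Pool.Agent.H18.LC

/-! The next three lemmas are copied from `H18.LC.QuadCase` (to avoid a slow import). -/

lemma per_mul' {c : ℕ → ℤ} {k0 m : ℕ} (hper : ∀ k, k0 ≤ k → c (k + m) = c k) (t : ℕ) :
    ∀ k, k0 ≤ k → c (k + t * m) = c k := by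
  induction t with
  | zero => intro k _; simp
  | succ t ih =>
    intro k hk
    rw [show k + (t + 1) * m = k + t * m + m by ring, hper _ (by omega), ih k hk]

lemma per_of_window' {c : ℕ → ℤ} {k0 m : ℕ} (hm : 1 ≤ m)
    (hper : ∀ k, k0 ≤ k → c (k + m) = c k) {a l s : ℕ} (ha : k0 ≤ a) (hs : m ≤ s)
    (h : ∀ i < s, c (a + i) = c (a + l + i)) : ∀ k, k0 ≤ k → c (k + l) = c k := by
  intro k hk
  have ham : a ≤ k + a * m := le_trans (Nat.le_mul_of_pos_right a hm) (Nat.le_add_left _ _)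
  set d := k + a * m - a with hd
  have hd' : k + a * m = a + d := by omega
  have hi : d % m < m := Nat.mod_lt _ hm
  have hdm : d = d % m + (d / m) * m := by
    have := Nat.mod_add_div d m
    rw [mul_comm] at this
    omega
  have e1 : c k = c (a + d % m) := by
    rw [← per_mul' hper a k hk, hd']
    conv_lhs => rw [hdm, ← add_assoc]
    rw [per_mul' hper (d / m) (a + d % m) (by omega)]
  have e2 : c (k + l) = c (a + l + d % m) := by
    rw [← per_mul' hper a (k + l) (by omega), show k + l + a * m = a + l + d by omega]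
    conv_lhs => rw [hdm, ← add_assoc]
    rw [per_mul' hper (d / m) (a + l + d % m) (by omega)]
  rw [e1, e2, ← h (d % m) (by omega)]

lemma min_period' {c : ℕ → ℤ} {k0 m0 : ℕ} (hm0 : 1 ≤ m0)
    (hper : ∀ k, k0 ≤ k → c (k + m0) = c k) :
    ∃ m, 1 ≤ m ∧ (∀ k, k0 ≤ k → c (k + m) = c k) ∧
      ∀ a l s, k0 ≤ a → m ≤ s → (∀ i < s, c (a + i) = c (a + l + i)) → ∃ j, l = j * m := by
  classical
  have hex : ∃ m, 1 ≤ m ∧ ∀ k, k0 ≤ k → c (k + m) = c k := ⟨m0, hm0, hper⟩
  set m := Nat.find hex with hm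
  obtain ⟨h1, h2⟩ := Nat.find_spec hex
  have hmin := fun r => Nat.find_min hex (m := r)
  refine ⟨m, h1, h2, fun a l s ha hs h => ?_⟩
  have h3 := per_of_window' h1 h2 ha hs h
  by_contra hcon
  have hr : l % m ≠ 0 := by
    intro h0
    apply hcon
    refine ⟨l / m, ?_⟩
    have := Nat.mod_add_div l m
    rw [h0, zero_add, mul_comm] at this
    exact this.symm
  have hlt : l % m < m := Nat.mod_lt _ h1
  apply hmin (l % m) hlt
  refine ⟨Nat.one_le_iff_ne_zero.2 hr, fun k hk => ?_⟩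
  have h4 := per_mul' h2 (l / m) (k + l % m) (by omega)
  have h5 : k + l % m + l / m * m = k + l := by
    have := Nat.mod_add_div l m
    rw [mul_comm] at this
    omega
  rw [← h4, h5]
  exact h3 k hk

/-- Reciprocal relations of bounded height, quadratic case. -/
lemma quad_rel_case {α : ℝ} (hα : Irrational α) {δ : ℝ} (hδ : 0 < δ)
    (hbad : ∀ q : ℕ, 0 < q → ∀ p : ℤ, δ ≤ (q : ℝ) * |(q : ℝ) * α - p|)
    {β : ℝ} {R : ℕ → ℤ} {M : ℝ} (hM : ∀ k, |(den α k : ℝ) * β - R k| ≤ M)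
    {k0 m0 : ℕ} (hm0 : 1 ≤ m0) (hper : ∀ k, k0 ≤ k → pq α (k + m0) = pq α k) (A : ℕ)
    (hrel : ∀ K : ℕ, ∃ (n w L : ℕ) (a : ℕ → ℤ) (σ : ℤ), (σ = 1 ∨ σ = -1) ∧ L + K ≤ 2 * w ∧
      ∑ j ∈ range (L + 1), |a j| ≤ A ∧ (∀ j ≤ L, a (L - j) = σ * a j) ∧
      (∀ j ≤ L, a j ≠ 0 → ∀ i < w, pq α (n + i + j + 1) = pq α (n + i + 1)) ∧
      (∀ i < w, ∑ j ∈ range (L + 1), a j * digit α R (n + i + j) = 0) ∧
      ∃ i ≤ w + 1, ∑ j ∈ range (L + 1), a j * den α (n + i + j) ≠ 0)
    (ε : ℝ) (hε : 0 < ε) (N : ℕ) :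
    ∃ q : ℕ, N ≤ q ∧ 0 < q ∧ ∃ p r : ℤ,
      (q : ℝ) * |(q : ℝ) * α - p| * |(q : ℝ) * β - r| < ε := by
  have hM0 : 0 ≤ M := (abs_nonneg _).trans (hM 0)
  have hd1 := delta_le_one hα hδ hbad
  obtain ⟨m, hm, hperm, hmul⟩ := min_period' hm0 hper
  obtain ⟨T, hT⟩ := trace_exists (α := α) hperm
  have hT3 := trace_ge hα hδ hbad hm hT
  obtain ⟨ρ, c1, c2, hρ, hc1, hc2, hg⟩ := growth hα hδ hbad hm hT
  set k1 := k0 + m with hk1
  have hg' : ∀ k h, k1 ≤ k → c1 * ρ ^ h * den α k ≤ den α (k + h) ∧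
      (den α (k + h) : ℝ) ≤ c2 * ρ ^ h * den α k :=
    fun k h hk => hg k h (by omega) (by omega)
  have hρ0 : 0 < ρ := by linarith
  have hA0 : (0 : ℝ) ≤ A := Nat.cast_nonneg _
  have hTR : (0 : ℝ) ≤ ((|T| : ℤ) : ℝ) := by exact_mod_cast abs_nonneg T
  set G : ℝ := ((4 * (|T| + 3) ^ 2 * (c2 * ρ ^ (1 + m) / δ)) *
          (2 * ((2 * (2 * (A * M)) / (δ * c1)) * (c2 * ρ ^ 2 + ρ + 1)))) ^ 4 *
        ((2 * A * c2 / δ) ^ 2 * ρ ^ m) with hG
  have hG0 : 0 ≤ G := by
    rw [hG]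
    positivity
  -- parameters
  obtain ⟨K3, hK3⟩ := pow_unbounded_of_one_lt (G * ρ ^ 2 / ε ^ 4) hρ
  obtain ⟨K4, hK4⟩ := exists_nat_gt (4 * A / δ)
  obtain ⟨K5, hK5⟩ := exists_nat_ge (4 * A * (N : ℝ) / δ ^ 2)
  set K := K3 + 4 * (K4 + K5 + 1) + 2 * m + 4 with hK
  obtain ⟨n', w', L, a, σ, hσ, hLw, hA, hrcp, hcomp, hdig', hne⟩ := hrel (K + 2 * k1)
  set n := n' + k1 with hn
  set w := w' - k1 with hw
  have hw' : w' = w + k1 := by omega
  have hLw2 : L + K ≤ 2 * w := by omega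
  -- the support
  have hsupp : ∀ j ≤ L, a j ≠ 0 → m ∣ j := by
    intro j hj ha
    obtain ⟨t, ht⟩ := hmul (n + 1) j w (by omega) (by omega) (fun i hi => by
      have := hcomp j hj ha (k1 + i) (by omega)
      rw [show n' + (k1 + i) + j + 1 = n + 1 + j + i by omega,
        show n' + (k1 + i) + 1 = n + 1 + i by omega] at this
      exact this.symm)
    exact ⟨t, by rw [ht]; ring⟩
  have hexa : ∃ j ≤ L, a j ≠ 0 := by
    by_contra hcon
    push Not at hcon
    obtain ⟨i, _, hne⟩ := hne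
    apply hne
    apply Finset.sum_eq_zero
    intro j hj
    rw [hcon j (by have := Finset.mem_range.1 hj; omega), zero_mul]
  have hmL : m ∣ L := by
    obtain ⟨j, hj, ha⟩ := hexa
    have h1 := hsupp j hj ha
    have ha' : a (L - j) ≠ 0 := by
      rw [hrcp j hj]
      rcases hσ with rfl | rfl
      · simpa using ha
      · simpa using ha
    have h2 := hsupp (L - j) (by omega) ha'
    have h3 := Nat.dvd_add h1 h2
    rwa [show j + (L - j) = L by omega] at h3
  obtain ⟨J, hJ⟩ := hmL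
  rw [mul_comm] at hJ
  subst hJ
  -- non-vanishing
  have hne' : ∃ x, k0 ≤ x ∧ ∑ j ∈ range (J * m + 1), a j * den α (x + j) ≠ 0 := by
    by_contra hcon
    push Not at hcon
    have hz : ∀ i < w', (fun k => tr a (J * m) (fun k => (den α k : ℝ)) k) (n' + i + 2) =
        pq α (n' + i + 1) * (fun k => tr a (J * m) (fun k => (den α k : ℝ)) k) (n' + i + 1) -
        (fun k => tr a (J * m) (fun k => (den α k : ℝ)) k) (n' + i) := by
      intro i hi
      have := tr_rec (α := α) (L := J * m) (k := n' + i) (a := a)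
        (fun j hj ha => hcomp j hj ha i hi) (fun k => (den α k : ℝ)) (fun _ => 0) (fun k => by
          simp only [sub_zero]; exact den_rec k)
      have h0 : tr a (J * m) (fun _ => (0 : ℝ)) (n' + i) = 0 := by
        unfold tr; simp
      rw [h0, sub_zero] at this
      exact this
    have hzz : ∀ x, k0 ≤ x → tr a (J * m) (fun k => (den α k : ℝ)) x = 0 := by
      intro x hx
      have := hcon x hx
      show ∑ j ∈ range (J * m + 1), (a j : ℝ) * (den α (x + j) : ℝ) = 0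
      exact_mod_cast this
    obtain ⟨i, hi, hne⟩ := hne
    have h1 := zero_window (fun k => tr a (J * m) (fun k => (den α k : ℝ)) k) hz (h := k1)
      (by omega) (hzz _ (by omega)) (hzz _ (by omega)) i hi
    apply hne
    have h2 : ∑ j ∈ range (J * m + 1), (a j : ℝ) * (den α (n' + i + j) : ℝ) = 0 := h1
    exact_mod_cast h2
  have hdig : ∀ i < w, ∑ j ∈ range (J * m + 1), a j * digit α R (n + i + j) = 0 := by
    intro i hi
    have := hdig' (k1 + i) (by omega)
    rw [← this]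
    apply Finset.sum_congr rfl
    intro j _
    rw [show n' + (k1 + i) + j = n + i + j by omega]
  set h := w / 2 with hh
  have hh2 : 2 * h ≤ w := by omega
  have hh3 : K4 + K5 + 1 ≤ h := by omega
  have hQk : (h : ℝ) ≤ den α (n + h + 1) := by
    have h1 : ((n + h + 1 : ℕ) : ℤ) ≤ den α (n + h + 1) := den_ge hα _
    have h2 : ((h : ℕ) : ℤ) ≤ den α (n + h + 1) := by push_cast at h1 ⊢; omega
    exact_mod_cast h2
  have hhR : (0 : ℝ) < h := by
    have : 0 < h := by omega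
    exact_mod_cast this
  have hθh : th α (n + h + 1) * (δ * h) ≤ 1 := by
    have h1 := (step_facts hα hδ hbad (n + h + 1)).2.2
    have h2 := (th_pos hα (n + h + 1)).1
    rw [le_div_iff₀ hδ] at h1
    have h3 : th α (n + h + 1) * (δ * h) ≤ th α (n + h + 1) * (δ * den α (n + h + 1)) := by
      apply mul_le_mul_of_nonneg_left _ h2.le
      exact mul_le_mul_of_nonneg_left hQk hδ.le
    linarith
  have hθ4 : 4 * A * th α (n + h + 1) < 1 := by
    have h2 := (th_pos hα (n + h + 1)).1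
    have h3 : (K4 : ℝ) < h := by
      have : K4 < h := by omega
      exact_mod_cast this
    have h4 : 4 * A < δ * h := by
      rw [div_lt_iff₀ hδ] at hK4
      have := mul_lt_mul_of_pos_left h3 hδ
      linarith
    have h5 := mul_lt_mul_of_pos_left h4 h2
    linarith
  obtain ⟨q, p, r, hq0, hqp, hX⟩ := core2 hα hδ hbad hM hm hperm hT3 hT le_rfl
    (by omega : 1 ≤ k1) hρ hc1 hc2 hg' hσ hrcp hsupp hA (by omega : k1 ≤ n) hh2
    (by omega : 1 ≤ h) hdig hne' hθ4
  rw [← mul_assoc, ← hG] at hX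
  -- the product is small
  have hXε : (|(q : ℝ)| * |(q : ℝ) * α - p| * |(q : ℝ) * β - r|) ^ 4 < ε ^ 4 := by
    refine lt_of_le_of_lt hX ?_
    have h1 : ρ ^ (J * m) * ρ ^ K3 ≤ ρ ^ 2 * (ρ ^ h) ^ 4 := by
      rw [← pow_add, ← pow_mul, ← pow_add]
      exact pow_le_pow_right₀ hρ.le (by omega)
    have h2 : G * ρ ^ 2 < ρ ^ K3 * ε ^ 4 := by
      rwa [div_lt_iff₀ (by positivity)] at hK3
    rw [div_lt_iff₀ (by positivity)]
    have hp3 : 0 < ρ ^ K3 := by positivity
    have h3 : ρ ^ K3 * (G * ρ ^ (J * m)) < ρ ^ K3 * (ε ^ 4 * (ρ ^ h) ^ 4) := by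
      calc ρ ^ K3 * (G * ρ ^ (J * m)) = G * (ρ ^ (J * m) * ρ ^ K3) := by ring
        _ ≤ G * (ρ ^ 2 * (ρ ^ h) ^ 4) := mul_le_mul_of_nonneg_left h1 hG0
        _ = (G * ρ ^ 2) * (ρ ^ h) ^ 4 := by ring
        _ < (ρ ^ K3 * ε ^ 4) * (ρ ^ h) ^ 4 := mul_lt_mul_of_pos_right h2 (by positivity)
        _ = _ := by ring
    exact lt_of_mul_lt_mul_left h3 hp3.le
  have hX1 : |(q : ℝ)| * |(q : ℝ) * α - p| * |(q : ℝ) * β - r| < ε :=
    lt_of_pow_lt_pow_left₀ 4 hε.le hXε
  have key : ∀ q p r : ℤ, 0 < q → |(q : ℝ) * α - p| ≤ 4 * A * th α (n + h + 1) →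
      (q : ℝ) * |(q : ℝ) * α - p| * |(q : ℝ) * β - r| < ε →
      ∃ q : ℕ, N ≤ q ∧ 0 < q ∧ ∃ p r : ℤ,
      (q : ℝ) * |(q : ℝ) * α - p| * |(q : ℝ) * β - r| < ε := by
    intro q p r hq hqp hX
    have hqN : (N : ℝ) ≤ q := by
      have h1 := bad_int hα hδ hbad q hq p
      have hqR : (0 : ℝ) < q := by exact_mod_cast hq
      have h2 : δ ≤ q * (4 * A * th α (n + h + 1)) :=
        h1.trans (mul_le_mul_of_nonneg_left hqp hqR.le)
      have hApos : (0 : ℝ) < A := by
        rcases hA0.eq_or_lt with h0 | h0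
        · rw [← h0] at h2
          simp only [mul_zero, zero_mul] at h2
          linarith
        · exact h0
      have h3 : δ * (δ * h) ≤ 4 * A * q := by
        have h4 := mul_le_mul_of_nonneg_right h2 (show (0 : ℝ) ≤ δ * h by positivity)
        have h5 := mul_le_mul_of_nonneg_left hθh (show (0 : ℝ) ≤ 4 * A * (q : ℝ) by positivity)
        linarith
      have h6 : (K5 : ℝ) ≤ h := by
        have : K5 ≤ h := by omega
        exact_mod_cast this
      rw [div_le_iff₀ (by positivity)] at hK5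
      have h7 := mul_le_mul_of_nonneg_right h6 (show (0 : ℝ) ≤ δ ^ 2 by positivity)
      have h8 : (4 * (A : ℝ)) * N ≤ (4 * A) * q := by nlinarith
      exact le_of_mul_le_mul_left h8 (by positivity)
    obtain ⟨q', hq'⟩ : ∃ q' : ℕ, q = q' := ⟨q.toNat, by omega⟩
    rw [hq'] at hX hqN hq
    refine ⟨q', by exact_mod_cast hqN, by exact_mod_cast hq, p, r, ?_⟩
    exact_mod_cast hX
  rcases Int.lt_or_lt_of_ne hq0 with hneg | hpos
  · apply key (-q) (-p) (-r) (by omega)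
    · push_cast
      rw [show -(q : ℝ) * α - -(p : ℝ) = -((q : ℝ) * α - p) by ring, abs_neg]
      exact hqp
    · have hqR : (q : ℝ) < 0 := by exact_mod_cast hneg
      rw [abs_of_neg hqR] at hX1
      push_cast
      rw [show -(q : ℝ) * α - -(p : ℝ) = -((q : ℝ) * α - p) by ring,
        show -(q : ℝ) * β - -(r : ℝ) = -((q : ℝ) * β - r) by ring, abs_neg, abs_neg]
      exact hX1
  · apply key q p r hpos hqp
    have hqR : (0 : ℝ) < q := by exact_mod_cast hpos
    rw [abs_of_pos hqR] at hX1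
    exact hX1

end Pool.Agent.H95.LC
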