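import Pool.Agent.H95.LC.Rel

/-!
# Integer relations, general `α`: logarithmic dependence on the height
-/

set_option autoImplicit false

namespace Pool.Agent.H95.LC

open Finset
open Pool.Agent.H1.PC
open Pool.Agent.H18.LC

/-- A relation of height `2^μ` on windows longer than twice its span. -/
lemma rel_case_log {α : ℝ} (hα : Irrational α) {δ : ℝ} (hδ : 0 < δ)
    (hbad : ∀ q : ℕ, 0 < q → ∀ p : ℤ, δ ≤ (q : ℝ) * |(q : ℝ) * α - p|)
    {β : ℝ} {R : ℕ → ℤ} {M : ℝ} (hM : ∀ k, |(den α k : ℝ) * β - R k| ≤ M)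
    (hrel : ∀ K : ℕ, ∃ (μ n w L : ℕ) (a b : ℕ → ℤ), 2 * L + K * (μ + 1) ≤ w ∧
      height a b L ≤ 2 ^ μ ∧
      Compat α n w L a b ∧
      (∀ i < w, ∑ j ∈ range (L + 1),
        (a j * digit α R (n + i + j) + b j * digit α R (n + (w - 1 - i) + j)) = 0) ∧
      ∃ i ≤ w + 1, ∑ j ∈ range (L + 1),
        (a j * den α (n + i + j) + b j * den α (n + (w + 1 - i) + j)) ≠ 0)
    (ε : ℝ) (hε : 0 < ε) (N : ℕ) :
    ∃ q : ℕ, N ≤ q ∧ 0 < q ∧ ∃ p r : ℤ,
      (q : ℝ) * |(q : ℝ) * α - p| * |(q : ℝ) * β - r| < ε := by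
  have hM0 : 0 ≤ M := (abs_nonneg _).trans (hM 0)
  have hd1 := delta_le_one hα hδ hbad
  set κ : ℝ := 1 + (1 + 1 / δ) / δ + 1 / δ with hκ
  have hκ0 : 0 < κ := by positivity
  set C : ℝ := 2 * M * (κ * (1 / δ) + 2 * κ * κ * (1 / δ)) with hC
  have hC0 : 0 ≤ C := by positivity
  obtain ⟨K1, hK1⟩ := exists_pow_lt_of_lt_one
    (show (0 : ℝ) < ε / (C + 1) by positivity) (show 1 - δ < 1 by linarith)
  obtain ⟨K7, hK7⟩ := exists_pow_lt_of_lt_one (show (0 : ℝ) < 1 / 8 by norm_num)
    (show 1 - δ < 1 by linarith)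
  obtain ⟨K8, hK8⟩ := exists_pow_lt_of_lt_one
    (show (0 : ℝ) < δ / (N + 1) by positivity) (show 1 - δ < 1 by linarith)
  obtain ⟨μ, n, w, L, a, b, hw, hA2, hc, hdig, i0, hi0, hne⟩ := hrel (2 * (K1 + K8 + K7) + 8)
  set A : ℕ := 2 ^ μ with hAdef
  have hA : height a b L ≤ A := by rw [hAdef]; exact_mod_cast hA2
  set g := K1 + K8 + K7 * μ with hg
  have hw : 2 * L + 2 * g + 8 ≤ w := by
    have e1 : (2 * (K1 + K8 + K7) + 8) * (μ + 1) = 2 * (K1 * μ) + 2 * K1 + 2 * (K8 * μ) + 2 * K8 +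
      2 * (K7 * μ) + 2 * K7 + 8 * μ + 8 := by ring
    omega
  have hQ : ∀ i, (0 : ℝ) ≤ den α i := den_cast_nonneg hα
  have hth : ∀ i, 0 ≤ th α i := th_nonneg hα
  have hth' : ∀ i, 0 < th α i := fun i => (th_pos hα i).1
  set h := w / 2 with hh
  set u := n + h with hu
  set N' := 2 * n + w + 1 with hN'
  have hA0 : (0 : ℝ) ≤ A := Nat.cast_nonneg _
  -- the integer sequences
  let qd : ℕ → ℤ := fun k => ∑ j ∈ range (L + 1), (a j * den α (k + j) + b j * den α (N' - k + j))
  let pd : ℕ → ℤ := fun k => ∑ j ∈ range (L + 1), (a j * num α (k + j) + b j * num α (N' - k + j))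
  let rd : ℕ → ℤ := fun k => ∑ j ∈ range (L + 1), (a j * R (k + j) + b j * R (N' - k + j))
  have hqd : ∀ k, (qd k : ℝ) = cmb a b L N' (fun k => (den α k : ℝ)) k := by
    intro k; simp only [qd, cmb]; push_cast; rfl
  have hpd : ∀ k, (pd k : ℝ) = cmb a b L N' (fun k => (num α k : ℝ)) k := by
    intro k; simp only [pd, cmb]; push_cast; rfl
  have hrd : ∀ k, (rd k : ℝ) = cmb a b L N' (fun k => (R k : ℝ)) k := by
    intro k; simp only [rd, cmb]; push_cast; rfl
  let V : ℕ → ℝ := fun k => (den α k : ℝ) * β - R k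
  have hV : ∀ k, V (k + 2) = pq α (k + 1) * V (k + 1) - V k - digit α R k := by
    intro k
    have h3 := digit_cast (α := α) R k
    have h5 := den_rec (α := α) k
    simp only [V]
    linear_combination β * h5 + h3
  have hYrec : ∀ i < w, cmb a b L N' V (n + i + 2) =
      pq α (n + i + 1) * cmb a b L N' V (n + i + 1) - cmb a b L N' V (n + i) := by
    intro i hi
    rw [hN', cmb_rec hc V (fun k => (digit α R k : ℝ)) hV hi]
    have := hdig i hi
    have h2 : ∑ j ∈ range (L + 1), ((a j : ℝ) * (digit α R (n + i + j) : ℝ) +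
        (b j : ℝ) * (digit α R (n + (w - 1 - i) + j) : ℝ)) = 0 := by
      exact_mod_cast this
    simp only [h2, sub_zero]
  have hQrec : ∀ i < w, cmb a b L N' (fun k => (den α k : ℝ)) (n + i + 2) =
      pq α (n + i + 1) * cmb a b L N' (fun k => (den α k : ℝ)) (n + i + 1) -
        cmb a b L N' (fun k => (den α k : ℝ)) (n + i) := by
    intro i hi
    rw [hN', cmb_rec hc (fun k => (den α k : ℝ)) (fun _ => 0) (fun k => by
      simp only [sub_zero]; exact den_rec k) hi]
    simp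
  -- a nonzero member near the centre
  have hex : ∃ k, u ≤ k ∧ k ≤ u + 1 ∧ qd k ≠ 0 := by
    by_contra hcon
    push Not at hcon
    have z0 := hcon u le_rfl (by omega)
    have z1 := hcon (u + 1) (by omega) le_rfl
    have := zero_window (fun k => (qd k : ℝ)) (n := n) (w := w) (fun i hi => by
      simp only [hqd]; exact hQrec i hi) (h := h) (by omega)
      (show (qd (n + h) : ℝ) = 0 by exact_mod_cast z0)
      (show (qd (n + h + 1) : ℝ) = 0 by exact_mod_cast z1) i0 hi0
    have this' : (qd (n + i0) : ℝ) = 0 := this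
    apply hne
    have h2 : qd (n + i0) = 0 := by exact_mod_cast this'
    simp only [qd] at h2
    rw [← h2]
    apply Finset.sum_congr rfl
    intro j _
    rw [show n + (w + 1 - i0) + j = N' - (n + i0) + j by omega]
  obtain ⟨k, hk1, hk2, hqk⟩ := hex
  have hNk1 : u ≤ N' - k := by omega
  have hNk2 : N' - k ≤ u + 2 := by omega
  -- the three bounds
  have b1 : |(qd k : ℝ)| ≤ A * den α (u + 2 + L) := by
    rw [hqd]
    apply cmb_bound hA
    intro j hj
    constructor
    · rw [abs_of_nonneg (hQ _)]; exact den_cast_mono hα (by omega)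
    · rw [abs_of_nonneg (hQ _)]; exact den_cast_mono hα (by omega)
  have b2 : |(qd k : ℝ) * α - pd k| ≤ A * th α u := by
    have e : (qd k : ℝ) * α - pd k = -cmb a b L N' (th α) k := by
      rw [hqd, hpd]
      unfold cmb
      rw [Finset.sum_mul, ← Finset.sum_sub_distrib, ← Finset.sum_neg_distrib]
      apply Finset.sum_congr rfl
      intro j _
      unfold th; ring
    rw [e, abs_neg]
    apply cmb_bound hA
    intro j hj
    constructor
    · rw [abs_of_nonneg (hth _)]; exact th_anti hα (by omega)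
    · rw [abs_of_nonneg (hth _)]; exact th_anti hα (by omega)
  have b3 : |(qd k : ℝ) * β - rd k| ≤ 2 * (A * M) * (den α (u + 2) * th α (n + w) +
      th α u * den α (n + 1)) := by
    have e : (qd k : ℝ) * β - rd k = cmb a b L N' V k := by
      rw [hqd, hrd]
      unfold cmb
      rw [Finset.sum_mul, ← Finset.sum_sub_distrib]
      apply Finset.sum_congr rfl
      intro j _
      simp only [V]; ring
    rw [e]
    have hY : ∀ k, |cmb a b L N' V k| ≤ A * M := fun k =>
      cmb_bound hA k (fun j _ => ⟨hM _, hM _⟩)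
    have := window_bound hα (cmb a b L N' V) (A * M) hY n w hYrec (k - n - 1) (by omega)
    rw [show n + (k - n - 1) + 1 = k by omega] at this
    refine this.trans ?_
    apply mul_le_mul_of_nonneg_left _ (by positivity)
    have m1 : (den α k : ℝ) * th α (n + w) ≤ den α (u + 2) * th α (n + w) :=
      mul_le_mul_of_nonneg_right (den_cast_mono hα (by omega)) (hth _)
    have m2 : th α k * den α (n + 1) ≤ th α u * den α (n + 1) :=
      mul_le_mul_of_nonneg_right (th_anti hα hk1) (hQ _)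
    linarith
  -- products
  have hp0 : 0 ≤ (1 - δ) ^ g := pow_nonneg (by linarith) _
  have c0 : (den α (u + 2) : ℝ) * th α u ≤ κ := prod_bound hα hδ hbad u
  have c1 : (den α (u + 2 + L) : ℝ) * th α (n + w) ≤ (1 / δ) * (1 - δ) ^ g := by
    have h1 := th_decay hα hδ hbad (u + 2 + L) g
    have h2 := (step_facts hα hδ hbad (u + 2 + L)).2.2
    have h3 : th α (n + w) ≤ th α (u + 2 + L + g) := th_anti hα (by omega)
    calc (den α (u + 2 + L) : ℝ) * th α (n + w)
        ≤ den α (u + 2 + L) * ((1 - δ) ^ g * th α (u + 2 + L)) :=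
          mul_le_mul_of_nonneg_left (h3.trans h1) (hQ _)
      _ = (1 - δ) ^ g * (den α (u + 2 + L) * th α (u + 2 + L)) := by ring
      _ ≤ (1 - δ) ^ g * (1 / δ) :=
          mul_le_mul_of_nonneg_left h2 hp0
      _ = _ := by ring
  have c2 : (den α (n + L + 1) : ℝ) * th α u ≤ (1 / δ) * (1 - δ) ^ g := by
    have h1 := th_decay hα hδ hbad (n + L + 1) g
    have h2 := (step_facts hα hδ hbad (n + L + 1)).2.2
    have h3 : th α u ≤ th α (n + L + 1 + g) := th_anti hα (by omega)
    calc (den α (n + L + 1) : ℝ) * th α u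
        ≤ den α (n + L + 1) * ((1 - δ) ^ g * th α (n + L + 1)) :=
          mul_le_mul_of_nonneg_left (h3.trans h1) (hQ _)
      _ = (1 - δ) ^ g * (den α (n + L + 1) * th α (n + L + 1)) := by ring
      _ ≤ (1 - δ) ^ g * (1 / δ) :=
          mul_le_mul_of_nonneg_left h2 hp0
      _ = _ := by ring
  have c3 : (den α (n + 1) : ℝ) * th α n ≤ κ := by
    have h1 := prod_bound hα hδ hbad n
    have h2 : (den α (n + 1) : ℝ) ≤ den α (n + 2) := den_cast_mono hα (by omega)
    exact (mul_le_mul_of_nonneg_right h2 (hth _)).trans h1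
  have hgr := shift_growth hα n L w (fun i hi => hc.1 i hi) (h + 1) (by omega)
  rw [show n + (h + 1) + 1 + L = u + 2 + L by omega, show n + (h + 1) + 1 = u + 2 by omega] at hgr
  have t1 : ((den α (u + 2 + L) : ℝ) * th α u) * (den α (u + 2) * th α (n + w)) ≤
      (κ * (1 / δ)) * (1 - δ) ^ g := by
    calc ((den α (u + 2 + L) : ℝ) * th α u) * (den α (u + 2) * th α (n + w))
        = (den α (u + 2) * th α u) * ((den α (u + 2 + L) : ℝ) * th α (n + w)) := by ring
      _ ≤ κ * ((1 / δ) * (1 - δ) ^ g) :=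
        mul_le_mul c0 c1 (mul_nonneg (hQ _) (hth _)) (by positivity)
      _ = _ := by ring
  have t2 : ((den α (u + 2 + L) : ℝ) * th α u) * (th α u * den α (n + 1)) ≤
      (2 * κ * κ * (1 / δ)) * (1 - δ) ^ g := by
    calc ((den α (u + 2 + L) : ℝ) * th α u) * (th α u * den α (n + 1))
        ≤ ((2 * (den α (u + 2) * (den α (n + L + 1) * th α n))) * th α u) *
          (th α u * den α (n + 1)) := by
          apply mul_le_mul_of_nonneg_right _ (mul_nonneg (hth _) (hQ _))
          exact mul_le_mul_of_nonneg_right hgr (hth _)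
      _ = 2 * ((den α (u + 2) * th α u) * (den α (n + 1) * th α n) *
            (den α (n + L + 1) * th α u)) := by ring
      _ ≤ 2 * (κ * κ * ((1 / δ) * (1 - δ) ^ g)) := by
          apply mul_le_mul_of_nonneg_left _ (by norm_num)
          apply mul_le_mul _ c2 (mul_nonneg (hQ _) (hth _)) (by positivity)
          exact mul_le_mul c0 c3 (mul_nonneg (hQ _) (hth _)) (by positivity)
      _ = _ := by ring
  have hfin : |(qd k : ℝ)| * |(qd k : ℝ) * α - pd k| * |(qd k : ℝ) * β - rd k| < ε := by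
    have h1 : |(qd k : ℝ)| * |(qd k : ℝ) * α - pd k| ≤
        (A * den α (u + 2 + L)) * (A * th α u) :=
      mul_le_mul b1 b2 (abs_nonneg _) (mul_nonneg hA0 (hQ _))
    have h2 : |(qd k : ℝ)| * |(qd k : ℝ) * α - pd k| * |(qd k : ℝ) * β - rd k| ≤
        ((A * den α (u + 2 + L)) * (A * th α u)) * (2 * (A * M) * (den α (u + 2) * th α (n + w) +
      th α u * den α (n + 1))) :=
      mul_le_mul h1 b3 (abs_nonneg _) (mul_nonneg (mul_nonneg hA0 (hQ _))
        (mul_nonneg hA0 (hth _)))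
    have h3 : ((A * den α (u + 2 + L)) * (A * th α u)) * (2 * (A * M) *
        (den α (u + 2) * th α (n + w) + th α u * den α (n + 1))) =
        2 * A ^ 3 * M * (((den α (u + 2 + L) : ℝ) * th α u) * (den α (u + 2) * th α (n + w)) +
          ((den α (u + 2 + L) : ℝ) * th α u) * (th α u * den α (n + 1))) := by ring
    rw [h3] at h2
    have h4 : 2 * A ^ 3 * M * (((den α (u + 2 + L) : ℝ) * th α u) *
        (den α (u + 2) * th α (n + w)) +
          ((den α (u + 2 + L) : ℝ) * th α u) * (th α u * den α (n + 1))) ≤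
        2 * A ^ 3 * M * ((κ * (1 / δ)) * (1 - δ) ^ g + (2 * κ * κ * (1 / δ)) * (1 - δ) ^ g) :=
      mul_le_mul_of_nonneg_left (by linarith) (by positivity)
    have h5 : 2 * (A : ℝ) ^ 3 * M * ((κ * (1 / δ)) * (1 - δ) ^ g +
        (2 * κ * κ * (1 / δ)) * (1 - δ) ^ g) = C * ((A : ℝ) ^ 3 * (1 - δ) ^ g) := by rw [hC]; ring
    rw [h5] at h4
    have h6 : (A : ℝ) ^ 3 * (1 - δ) ^ g ≤ (1 - δ) ^ K1 := by
      have e1 : (1 - δ) ^ g = (1 - δ) ^ K1 * (1 - δ) ^ K8 * ((1 - δ) ^ K7) ^ μ := by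
        rw [hg, pow_add, pow_add, pow_mul]
      have e2 : ((1 - δ) ^ K7) ^ μ ≤ (1 / 8) ^ μ :=
        pow_le_pow_left₀ (pow_nonneg (by linarith) _) hK7.le μ
      have e3 : (A : ℝ) ^ 3 * (1 / 8) ^ μ = 1 := by
        rw [hAdef]
        push_cast
        rw [← pow_mul, mul_comm μ 3, pow_mul, ← mul_pow]
        norm_num
      have e4 : (1 - δ) ^ K8 ≤ 1 := pow_le_one₀ (by linarith) (by linarith)
      have e5 : 0 ≤ (1 - δ) ^ K1 := pow_nonneg (by linarith) _
      have e6 : (1 - δ) ^ K1 * (1 - δ) ^ K8 ≤ (1 - δ) ^ K1 := by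
        calc (1 - δ) ^ K1 * (1 - δ) ^ K8 ≤ (1 - δ) ^ K1 * 1 := mul_le_mul_of_nonneg_left e4 e5
          _ = _ := mul_one _
      calc (A : ℝ) ^ 3 * (1 - δ) ^ g
          = (A : ℝ) ^ 3 * ((1 - δ) ^ K1 * (1 - δ) ^ K8 * ((1 - δ) ^ K7) ^ μ) := by rw [e1]
        _ ≤ (A : ℝ) ^ 3 * ((1 - δ) ^ K1 * (1 / 8) ^ μ) := by
            apply mul_le_mul_of_nonneg_left _ (by positivity)
            exact mul_le_mul e6 e2 (pow_nonneg (pow_nonneg (by linarith) _) _) e5
        _ = (1 - δ) ^ K1 * ((A : ℝ) ^ 3 * (1 / 8) ^ μ) := by ring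
        _ = _ := by rw [e3, mul_one]
    have h7 : (A : ℝ) ^ 3 * (1 - δ) ^ g < ε / (C + 1) := lt_of_le_of_lt h6 hK1
    have h8 : 0 ≤ (A : ℝ) ^ 3 * (1 - δ) ^ g := by positivity
    rw [lt_div_iff₀ (by positivity)] at h7
    nlinarith
  -- size of q
  have hqN : (N : ℝ) ≤ |(qd k : ℝ)| := by
    have h1 : δ ≤ |(qd k : ℝ)| * |(qd k : ℝ) * α - pd k| := by
      rcases Int.lt_or_lt_of_ne hqk with hneg | hpos
      · have := bad_int hα hδ hbad (-qd k) (by omega) (-pd k)
        push_cast at this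
        have hneg' : (qd k : ℝ) < 0 := by exact_mod_cast hneg
        rw [abs_of_neg hneg']
        rw [show -(qd k : ℝ) * α - -(pd k : ℝ) = -((qd k : ℝ) * α - pd k) by ring, abs_neg] at this
        exact this
      · have := bad_int hα hδ hbad (qd k) hpos (pd k)
        have hpos' : (0 : ℝ) < qd k := by exact_mod_cast hpos
        rwa [abs_of_pos hpos']
    have h2 : δ ≤ |(qd k : ℝ)| * (A * th α u) :=
      h1.trans (mul_le_mul_of_nonneg_left b2 (abs_nonneg _))
    have h3 : (A : ℝ) * th α u * (N + 1) < δ := by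
      have h0 : th α 0 = 1 := by simp [th, num, den]
      have h4 := th_decay hα hδ hbad 0 u
      rw [Nat.zero_add, h0, mul_one] at h4
      have h5 : (1 - δ) ^ u ≤ (1 - δ) ^ (K8 + K7 * μ) :=
        pow_le_pow_of_le_one (by linarith) (by linarith) (by omega)
      have h6 : (1 - δ) ^ (K8 + K7 * μ) = (1 - δ) ^ K8 * ((1 - δ) ^ K7) ^ μ := by
        rw [pow_add, pow_mul]
      have h7 : ((1 - δ) ^ K7) ^ μ ≤ (1 / 2) ^ μ :=
        pow_le_pow_left₀ (pow_nonneg (by linarith) _) (hK7.le.trans (by norm_num)) μ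
      have h8 : (A : ℝ) * (1 / 2) ^ μ = 1 := by
        rw [hAdef]
        push_cast
        rw [← mul_pow]
        norm_num
      have h9 : th α u ≤ (1 - δ) ^ K8 * (1 / 2) ^ μ := by
        refine h4.trans (h5.trans ?_)
        rw [h6]
        exact mul_le_mul_of_nonneg_left h7 (pow_nonneg (by linarith) _)
      have h10 : (A : ℝ) * th α u ≤ (1 - δ) ^ K8 := by
        calc (A : ℝ) * th α u ≤ A * ((1 - δ) ^ K8 * (1 / 2) ^ μ) :=
              mul_le_mul_of_nonneg_left h9 hA0
          _ = (1 - δ) ^ K8 * (A * (1 / 2) ^ μ) := by ring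
          _ = _ := by rw [h8, mul_one]
      rw [lt_div_iff₀ (by positivity)] at hK8
      exact lt_of_le_of_lt (mul_le_mul_of_nonneg_right h10 (by positivity)) hK8
    by_contra hcon
    push Not at hcon
    have h4 : 0 ≤ (A : ℝ) * th α u := mul_nonneg hA0 (hth u)
    have h5 : |(qd k : ℝ)| * (A * th α u) ≤ (N + 1) * (A * th α u) :=
      mul_le_mul_of_nonneg_right (by linarith) h4
    linarith
  rcases Int.lt_or_lt_of_ne hqk with hneg | hpos
  · have hneg' : (qd k : ℝ) < 0 := by exact_mod_cast hneg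
    obtain ⟨q', hq'⟩ : ∃ q' : ℕ, -qd k = q' := ⟨(-qd k).toNat, by omega⟩
    have hq'' : (q' : ℝ) = -(qd k : ℝ) := by rw [← Int.cast_natCast, ← hq']; push_cast; ring
    rw [abs_of_neg hneg', ← hq''] at hqN hfin
    refine ⟨q', by exact_mod_cast hqN, by omega, -pd k, -rd k, ?_⟩
    rw [hq''] at hfin ⊢
    push_cast
    rw [show -(qd k : ℝ) * α - -(pd k : ℝ) = -((qd k : ℝ) * α - pd k) by ring,
      show -(qd k : ℝ) * β - -(rd k : ℝ) = -((qd k : ℝ) * β - rd k) by ring, abs_neg, abs_neg]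
    exact hfin
  · have hpos' : (0 : ℝ) < qd k := by exact_mod_cast hpos
    obtain ⟨q', hq'⟩ : ∃ q' : ℕ, qd k = q' := ⟨(qd k).toNat, by omega⟩
    have hq'' : (q' : ℝ) = (qd k : ℝ) := by rw [← Int.cast_natCast, ← hq']
    rw [abs_of_pos hpos', ← hq''] at hqN hfin
    refine ⟨q', by exact_mod_cast hqN, by omega, pd k, rd k, hfin⟩

end Pool.Agent.H95.LC
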