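import Pool.Agent.H95.LC.QuadRel
import Pool.Agent.H18.LC.Sign

/-!
# Relations of the joint coding: definition, a criterion for non-vanishing, runs
-/

set_option autoImplicit false

namespace Pool.Agent.H95.LC

open Finset
open Pool.Agent.H1.PC
open Pool.Agent.H18.LC

/-- The sequence `e` satisfies a relation with coefficients `a_j` (translates) and `b_j`
(reflections), `0 ≤ j ≤ L`, on the window `n, ..., n + w - 1`, and `c` is compatible with it. -/
def Relation (c e : ℕ → ℤ) (n w L : ℕ) (a b : ℕ → ℤ) : Prop :=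
  ∀ i < w,
    (∀ j ≤ L, (a j ≠ 0 ∨ j = L → c (n + i + j) = c (n + i)) ∧
      (b j ≠ 0 → c (n + (w - 1 - i) + j) = c (n + i))) ∧
    ∑ j ∈ range (L + 1), (a j * e (n + i + j) + b j * e (n + (w - 1 - i) + j)) = 0

section irr

variable {α : ℝ} (hα : Irrational α) {δ : ℝ} (hδ : 0 < δ)
  (hbad : ∀ q : ℕ, 0 < q → ∀ p : ℤ, δ ≤ (q : ℝ) * |(q : ℝ) * α - p|)
include hα hδ hbad

/-- A dominating leading coefficient gives non-vanishing at the end of the window. -/
lemma top_ne {A w : ℕ} (hw : (A : ℝ) < δ * (1 + δ) ^ w) {n L : ℕ} {a b : ℕ → ℤ}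
    (hA : height a b L ≤ A) (haL : a L ≠ 0) (hdom : ∑ j ∈ range L, |a j| ≤ |a L|) :
    ∑ j ∈ range (L + 1), (a j * den α (n + (w + 1) + j) + b j * den α (n + (w + 1 - (w + 1)) + j))
      ≠ 0 := by
  have hmono := den_mono hα
  have hnn : ∀ k, 0 ≤ den α k := fun k => (den_inc hα k).1
  rw [Finset.sum_add_distrib, Finset.sum_range_succ]
  simp only [Nat.sub_self, Nat.add_zero]
  intro h0
  set top := den α (n + (w + 1) + L) with htop
  set sub := den α (n + w + L) with hsub
  -- the lower terms
  have h1 : |∑ j ∈ range L, a j * den α (n + (w + 1) + j)| ≤ |a L| * sub := by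
    refine (Finset.abs_sum_le_sum_abs _ _).trans ?_
    refine (Finset.sum_le_sum (fun j hj => ?_) :
      _ ≤ ∑ j ∈ range L, |a j| * sub).trans ?_
    · have hj' := Finset.mem_range.1 hj
      rw [abs_mul, abs_of_nonneg (hnn _)]
      exact mul_le_mul_of_nonneg_left (hmono (by omega)) (abs_nonneg _)
    · rw [← Finset.sum_mul]
      exact mul_le_mul_of_nonneg_right hdom (hnn _)
  have h2 : |∑ j ∈ range (L + 1), b j * den α (n + j)| ≤ A * den α (n + L) := by
    refine (Finset.abs_sum_le_sum_abs _ _).trans ?_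
    refine (Finset.sum_le_sum (fun j hj => ?_) :
      _ ≤ ∑ j ∈ range (L + 1), |b j| * den α (n + L)).trans ?_
    · have hj' := Finset.mem_range.1 hj
      rw [abs_mul, abs_of_nonneg (hnn _)]
      exact mul_le_mul_of_nonneg_left (hmono (by omega)) (abs_nonneg _)
    · rw [← Finset.sum_mul]
      apply mul_le_mul_of_nonneg_right _ (hnn _)
      refine le_trans ?_ hA
      unfold height
      exact Finset.sum_le_sum (fun j _ => by have := abs_nonneg (a j); omega)
  have h3 : |a L| * top ≤ |a L| * sub + A * den α (n + L) := by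
    have e1 : a L * top = -(∑ j ∈ range L, a j * den α (n + (w + 1) + j)) -
        ∑ j ∈ range (L + 1), b j * den α (n + j) := by linarith
    have e2 : |a L| * top = |a L * top| := by rw [abs_mul, abs_of_nonneg (hnn _)]
    rw [e2, e1]
    refine (abs_sub _ _).trans ?_
    rw [abs_neg]
    exact add_le_add h1 h2
  have h4 : 1 ≤ |a L| := Int.one_le_abs haL
  have hinc := (den_inc hα (n + w + L)).2
  rw [show n + w + L + 1 = n + (w + 1) + L by ring, ← htop, ← hsub] at hinc
  have h5 : top - sub ≤ A * den α (n + L) := by nlinarith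
  have h6 : (1 : ℤ) ≤ A * den α (n + L) := by omega
  have h7 : 0 < den α (n + L) := by
    rcases (hnn (n + L)).eq_or_lt with h | h
    · rw [← h] at h6; simp at h6
    · exact h
  -- growth
  have g1 := den_growth hα hδ hbad (n + L) w
  rw [show n + L + w = n + w + L by ring, ← hsub] at g1
  have g2 := (step_facts hα hδ hbad (n + w + L)).2.1
  rw [show n + w + L + 1 = n + (w + 1) + L by ring, ← htop, ← hsub] at g2
  have h5R : (top : ℝ) - sub ≤ A * den α (n + L) := by exact_mod_cast h5
  have h7R : (0 : ℝ) < den α (n + L) := by exact_mod_cast h7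
  have g3 : δ * ((1 + δ) ^ w * (den α (n + L) : ℝ)) ≤ A * den α (n + L) := by
    have := mul_le_mul_of_nonneg_left g1 hδ.le
    linarith
  have g4 : (A : ℝ) * den α (n + L) < (δ * (1 + δ) ^ w) * den α (n + L) :=
    mul_lt_mul_of_pos_right hw h7R
  linarith

end irr

/-- A run as a relation. -/
noncomputable def runA (l : ℕ) (τ : ℤ) : ℕ → ℤ := fun j => if j = l then 1 else if j = 0 then -τ else 0

lemma runA_sum {l : ℕ} (hl : 1 ≤ l) (τ : ℤ) (f : ℕ → ℤ) :
    ∑ j ∈ range (l + 1), runA l τ j * f j = f l - τ * f 0 := by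
  rw [Finset.sum_range_succ]
  have h1 : ∑ j ∈ range l, runA l τ j * f j = -τ * f 0 := by
    rw [Finset.sum_eq_single 0]
    · simp [runA, show ¬ (0 = l) by omega]
    · intro j hj h0
      have := Finset.mem_range.1 hj
      simp [runA, h0, show ¬ (j = l) by omega]
    · intro h
      exact absurd (Finset.mem_range.2 (by omega)) h
  rw [h1]
  simp [runA]
  ring

lemma runA_abs {l : ℕ} (hl : 1 ≤ l) {τ : ℤ} (hτ : τ = 1 ∨ τ = -1) :
    ∑ j ∈ range (l + 1), |runA l τ j| = 2 := by
  rw [Finset.sum_range_succ]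
  have h1 : ∑ j ∈ range l, |runA l τ j| = 1 := by
    rw [Finset.sum_eq_single 0]
    · rcases hτ with rfl | rfl <;> simp [runA, show ¬ (0 = l) by omega]
    · intro j hj h0
      have := Finset.mem_range.1 hj
      simp [runA, h0, show ¬ (j = l) by omega]
    · intro h
      exact absurd (Finset.mem_range.2 (by omega)) h
  rw [h1]
  simp [runA]

lemma runA_rcp {l : ℕ} (hl : 1 ≤ l) {τ : ℤ} (hτ : τ = 1 ∨ τ = -1) (j : ℕ) (hj : j ≤ l) :
    runA l τ (l - j) = (-τ) * runA l τ j := by
  unfold runA
  rcases Nat.eq_zero_or_pos j with rfl | hj0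
  · rw [if_pos (by omega), if_neg (by omega), if_pos rfl]
    rcases hτ with rfl | rfl <;> norm_num
  · rcases hj.eq_or_lt with rfl | hlt
    · rw [if_neg (by omega), if_pos (by omega), if_pos rfl]
      ring
    · rw [if_neg (by omega), if_neg (by omega), if_neg (by omega), if_neg (by omega)]
      ring

end Pool.Agent.H95.LC
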